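import Mathlib

set_option autoImplicit false

/-! Waring's problem with shifts: one more shifted power doubles the exponent of the saving
(the shift version of `Pool.Agent.K7.H77.WG.Step`). -/

namespace Pool.Agent.K7.H74.WD

open MeasureTheory Set Filter Topology

/-- the measure of the set in dyadic intervals is small -/
def Small (V : Set ℝ) (δ : ℝ) : Prop :=
  ∀ᶠ m : ℕ in atTop, volume (V ∩ Icc ((2:ℝ) ^ m) (2 ^ (m + 1))) ≤
    ENNReal.ofReal (((2:ℝ) ^ m) ^ (1 - δ))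

/-- the overlap of a set and its shift -/
noncomputable def ov (V : Set ℝ) (u : ℝ) : ENNReal := volume {t : ℝ | t ∈ V ∧ t + u ∈ V}

theorem ov_meas {V : Set ℝ} (hV : MeasurableSet V) : Measurable (ov V) := by
  have h : MeasurableSet {p : ℝ × ℝ | p.2 ∈ V ∧ p.2 + p.1 ∈ V} :=
    (measurable_snd hV).inter ((by fun_prop : Measurable (fun p : ℝ × ℝ => p.2 + p.1)) hV)
  exact measurable_measure_prodMk_left h

theorem ov_shift {V : Set ℝ} (p q : ℝ) :
    volume {t : ℝ | t - p ∈ V ∧ t - q ∈ V} = ov V (q - p) := by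
  have h1 : {t : ℝ | t - p ∈ V ∧ t - q ∈ V} = (fun t => t + (-q)) ⁻¹' {t : ℝ | t ∈ V ∧ t + (q - p) ∈ V} := by
    ext t
    simp only [mem_ofPred_eq, mem_preimage]
    have e1 : t + -q = t - q := by ring
    have e2 : t - q + (q - p) = t - p := by ring
    rw [e1, e2, and_comm]
  rw [h1, measure_preimage_add_right]
  rfl

/-- an expanding change of variables -/
theorem expand {V : Set ℝ} (hV : MeasurableSet V) {G G' : ℝ → ℝ} (hG : ∀ v, HasDerivAt G (G' v) v) {a b g : ℝ}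
    (hg : 0 < g) (hg' : ∀ v ∈ Icc a b, g ≤ G' v) (t : ℝ) :
    volume {v | v ∈ Icc a b ∧ t + G v ∈ V} ≤ ENNReal.ofReal (1 / g) * volume V := by
  have hGc : Continuous G := continuous_iff_continuousAt.2 fun v => (hG v).continuousAt
  set S : Set ℝ := {v | v ∈ Icc a b ∧ t + G v ∈ V} with hS
  have hSm : MeasurableSet S :=
    measurableSet_Icc.inter ((by fun_prop : Measurable (fun v : ℝ => t + G v)) hV)
  have hmono : StrictMonoOn (fun v => t + G v) (Icc a b) := by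
    apply strictMonoOn_of_deriv_pos (convex_Icc a b) (by fun_prop)
    intro x hx
    have h1 : HasDerivAt (fun v => t + G v) (G' x) x := (hG x).const_add t
    rw [h1.deriv]
    exact lt_of_lt_of_le hg (hg' x (interior_subset hx))
  have hinj : InjOn (fun v => t + G v) S := hmono.injOn.mono fun v hv => hv.1
  have h1 := lintegral_image_eq_lintegral_abs_deriv_mul hSm
    (fun x _ => ((hG x).const_add t).hasDerivWithinAt) hinj (fun _ => 1)
  simp only [mul_one, lintegral_const, Measure.restrict_apply MeasurableSet.univ, univ_inter, one_mul] at h1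
  have h2 : volume ((fun v => t + G v) '' S) ≤ volume V := by
    apply measure_mono
    rintro _ ⟨v, hv, rfl⟩
    exact hv.2
  have h3 : ENNReal.ofReal g * volume S ≤ ∫⁻ x in S, ENNReal.ofReal |G' x| := by
    rw [← setLIntegral_const]
    apply setLIntegral_mono_ae' hSm
    refine Eventually.of_forall fun x hx => ?_
    exact ENNReal.ofReal_le_ofReal ((hg' x hx.1).trans (le_abs_self _))
  have h4 : ENNReal.ofReal g * volume S ≤ volume V := (h3.trans h1.symm.le).trans h2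
  have hg0 : ENNReal.ofReal g ≠ 0 := (ENNReal.ofReal_pos.2 hg).ne'
  rw [one_div, ENNReal.ofReal_inv_of_pos hg]
  calc volume S = (ENNReal.ofReal g)⁻¹ * (ENNReal.ofReal g * volume S) := by
        rw [← mul_assoc, ENNReal.inv_mul_cancel hg0 ENNReal.ofReal_ne_top, one_mul]
    _ ≤ _ := by gcongr

/-- the average overlap -/
theorem ov_avg {V : Set ℝ} (hV : MeasurableSet V) {G G' : ℝ → ℝ} (hG : ∀ v, HasDerivAt G (G' v) v) {a b g : ℝ}
    (hg : 0 < g) (hg' : ∀ v ∈ Icc a b, g ≤ G' v) :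
    ∫⁻ v in Icc a b, ov V (G v) ≤ ENNReal.ofReal (1 / g) * (volume V * volume V) := by
  have hGc : Continuous G := continuous_iff_continuousAt.2 fun v => (hG v).continuousAt
  have hind : Measurable (V.indicator (fun _ => (1:ENNReal))) := measurable_one.indicator hV
  have h1 : ∀ v : ℝ, ov V (G v) = ∫⁻ t, V.indicator (fun _ => (1:ENNReal)) t *
      V.indicator (fun _ => (1:ENNReal)) (t + G v) := by
    intro v
    unfold ov
    have hm : MeasurableSet {t : ℝ | t ∈ V ∧ t + G v ∈ V} :=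
      hV.inter ((by fun_prop : Measurable (fun t : ℝ => t + G v)) hV)
    rw [← lintegral_indicator_one hm]
    apply lintegral_congr
    intro t
    by_cases ha : t ∈ V <;> by_cases hb : t + G v ∈ V <;> simp [Set.indicator, ha, hb]
  simp_rw [h1]
  rw [lintegral_lintegral_swap]
  · have h2 : ∀ t : ℝ, ∫⁻ v in Icc a b, V.indicator (fun _ => (1:ENNReal)) t *
        V.indicator (fun _ => (1:ENNReal)) (t + G v) ≤
        V.indicator (fun _ => (1:ENNReal)) t * (ENNReal.ofReal (1 / g) * volume V) := by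
      intro t
      have hcomp : Measurable (fun v : ℝ => V.indicator (fun _ => (1:ENNReal)) (t + G v)) :=
        hind.comp (by fun_prop : Measurable (fun v : ℝ => t + G v))
      rw [lintegral_const_mul _ hcomp]
      gcongr
      have h3 : ∫⁻ v in Icc a b, V.indicator (fun _ => (1:ENNReal)) (t + G v) = volume {v | v ∈ Icc a b ∧ t + G v ∈ V} := by
        have hm : MeasurableSet {v : ℝ | t + G v ∈ V} := (by fun_prop : Measurable (fun v : ℝ => t + G v)) hV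
        have e1 : (fun v : ℝ => V.indicator (fun _ => (1:ENNReal)) (t + G v)) = {v : ℝ | t + G v ∈ V}.indicator 1 := by
          funext v
          by_cases hb : t + G v ∈ V <;> simp [Set.indicator, hb]
        rw [e1, lintegral_indicator_one hm, Measure.restrict_apply hm]
        congr 1
        ext v
        simp only [mem_inter_iff, mem_ofPred_eq]
        tauto
      rw [h3]
      exact expand hV hG hg hg' t
    refine (lintegral_mono h2).trans ?_
    have hVint : ∫⁻ a, V.indicator (fun _ => (1:ENNReal)) a = volume V := by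
      rw [lintegral_indicator hV, setLIntegral_const, one_mul]
    rw [lintegral_mul_const _ hind, hVint]
    apply le_of_eq
    ring
  · apply Measurable.aemeasurable
    exact (hind.comp measurable_snd).mul
      (hind.comp (by fun_prop : Measurable (fun z : ℝ × ℝ => z.2 + G z.1)))

/-- tiling -/
theorem tileL (φ : ℝ → ENNReal) (hφ : Measurable φ) (a n : ℕ) :
    ∑ y ∈ Finset.Ico a (a + n), ∫⁻ ξ in Ioc (0:ℝ) 1, φ (y + ξ) = ∫⁻ v in Ioc (a:ℝ) ((a + n : ℕ) : ℝ), φ v := by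
  induction n with
  | zero => simp
  | succ n ih =>
    rw [← add_assoc, Finset.sum_Ico_succ_top (by omega), ih]
    have h1 : ∫⁻ ξ in Ioc (0:ℝ) 1, φ (((a + n : ℕ) : ℝ) + ξ) = ∫⁻ v in Ioc ((a + n : ℕ) : ℝ) ((a + n + 1 : ℕ) : ℝ), φ v := by
      have hmp := measurePreserving_add_left (volume : Measure ℝ) ((a + n : ℕ) : ℝ)
      have h2 := hmp.setLIntegral_comp_preimage (s := Ioc ((a + n : ℕ) : ℝ) ((a + n + 1 : ℕ) : ℝ)) measurableSet_Ioc hφ
      rw [← h2]
      congr 2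
      ext ξ
      simp only [mem_Ioc, mem_preimage]
      push_cast
      constructor
      · rintro ⟨h3, h4⟩; constructor <;> linarith
      · rintro ⟨h3, h4⟩; constructor <;> linarith
    rw [h1, ← lintegral_union measurableSet_Ioc]
    · rw [Ioc_union_Ioc_eq_Ioc]
      · exact_mod_cast (by omega : a ≤ a + n)
      · exact_mod_cast (by omega : a + n ≤ a + n + 1)
    · rw [Set.disjoint_left]
      rintro x ⟨_, h3⟩ ⟨h4, _⟩
      linarith

/-- the numbers `t` for which all `t - (y + ξ) ^ k` that are at least `t / 2` lie in `V` -/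
def Vst (V : Set ℝ) (k : ℕ) (ξ : ℝ) : Set ℝ :=
  {t | ∀ y : ℕ, ((y:ℝ) + ξ) ^ k ≤ t / 2 → t - ((y:ℝ) + ξ) ^ k ∈ V}

lemma pow_add_ge {x d : ℝ} (hx : 0 ≤ x) (hd : 0 ≤ d) (n : ℕ) :
    x ^ (n + 1) + (n + 1) * (d * x ^ n) ≤ (x + d) ^ (n + 1) := by
  induction n with
  | zero => simp
  | succ n ih =>
    have h1 : (x ^ (n + 1) + (n + 1) * (d * x ^ n)) * (x + d) ≤ (x + d) ^ (n + 1) * (x + d) :=
      mul_le_mul_of_nonneg_right ih (by linarith)
    have h2 : x ^ (n + 1 + 1) + (((n + 1 : ℕ) : ℝ) + 1) * (d * x ^ (n + 1)) ≤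
        (x ^ (n + 1) + (n + 1) * (d * x ^ n)) * (x + d) := by
      have h3 : 0 ≤ ((n : ℝ) + 1) * (d * x ^ n) * d := by positivity
      have h4 : (x ^ (n + 1) + (n + 1) * (d * x ^ n)) * (x + d) =
          x ^ (n + 1 + 1) + (((n + 1 : ℕ) : ℝ) + 1) * (d * x ^ (n + 1)) + ((n : ℝ) + 1) * (d * x ^ n) * d := by
        push_cast
        ring
      rw [h4]
      linarith
    calc _ ≤ _ := h2
      _ ≤ _ := h1
      _ = _ := by ring

/-- one scale -/
theorem one_scale {V : Set ℝ} (hV : MeasurableSet V) {k n : ℕ} (hk : 2 ≤ k) (hn : 1 ≤ n) :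
    ∫⁻ ξ in Ioc (0:ℝ) 1, ∑ y ∈ Finset.Ico n (n + n), ov V (((y:ℝ) + ξ + n) ^ k - ((y:ℝ) + ξ) ^ k) ≤
      ENNReal.ofReal (1 / (n:ℝ) ^ (k - 1)) * (volume V * volume V) := by
  obtain ⟨m, rfl⟩ : ∃ m, k = m + 2 := ⟨k - 2, by omega⟩
  have hn0 : (1:ℝ) ≤ n := by exact_mod_cast hn
  set G : ℝ → ℝ := fun v => (v + n) ^ (m + 2) - v ^ (m + 2) with hG
  have hGm : Measurable fun v : ℝ => ov V (G v) := (ov_meas hV).comp (by fun_prop)
  have e1 : ∫⁻ ξ in Ioc (0:ℝ) 1, ∑ y ∈ Finset.Ico n (n + n), ov V (((y:ℝ) + ξ + n) ^ (m + 2) - ((y:ℝ) + ξ) ^ (m + 2)) =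
      ∫⁻ v in Ioc (n:ℝ) ((n + n : ℕ) : ℝ), ov V (G v) := by
    rw [lintegral_finsetSum]
    · exact tileL (fun v => ov V (G v)) hGm n n
    · intro y _
      exact (ov_meas hV).comp (by fun_prop)
  rw [e1]
  have h2 : ∫⁻ v in Ioc (n:ℝ) ((n + n : ℕ) : ℝ), ov V (G v) ≤ ∫⁻ v in Icc (n:ℝ) ((n + n : ℕ) : ℝ), ov V (G v) :=
    lintegral_mono_set Ioc_subset_Icc_self
  refine h2.trans ?_
  have hd : ∀ v, HasDerivAt G (((m + 2 : ℕ) : ℝ) * (v + n) ^ (m + 1) - ((m + 2 : ℕ) : ℝ) * v ^ (m + 1)) v := by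
    intro v
    have h3 : HasDerivAt (fun v : ℝ => (v + n) ^ (m + 2)) (((m + 2 : ℕ) : ℝ) * (v + n) ^ (m + 1)) v := by
      have := ((hasDerivAt_id v).add_const (n:ℝ)).fun_pow (m + 2)
      simpa using this
    exact h3.sub (by simpa using hasDerivAt_pow (m + 2) v)
  have h3 := ov_avg hV hd (a := (n:ℝ)) (b := ((n + n : ℕ) : ℝ)) (g := (n:ℝ) ^ (m + 1)) (by positivity) (fun v hv => by
    have hv0 : (n:ℝ) ≤ v := hv.1
    have hv1 : 0 ≤ v := by linarith
    have h4 := pow_add_ge (x := v) (d := n) hv1 (by linarith) m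
    have h5 : (n:ℝ) ^ m ≤ v ^ m := pow_le_pow_left₀ (by linarith) hv0 m
    have h6 : (n:ℝ) ^ (m + 1) ≤ n * v ^ m := by
      rw [pow_succ, mul_comm]
      exact mul_le_mul_of_nonneg_left h5 (by linarith)
    have hm : (0:ℝ) ≤ m := Nat.cast_nonneg m
    have h7 : 0 ≤ (n:ℝ) * v ^ m := by positivity
    have h8 : (n:ℝ) ^ (m + 1) ≤ (v + n) ^ (m + 1) - v ^ (m + 1) := by nlinarith
    have h9 : 0 ≤ (v + n) ^ (m + 1) - v ^ (m + 1) := le_trans (by positivity) h8
    push_cast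
    nlinarith)
  exact h3

/-- **One more variable.** -/
theorem one_dim {V : Set ℝ} (hV : MeasurableSet V) {k : ℕ} (hk : 2 ≤ k) {δ' δ : ℝ} (hS : Small V δ') (hδ : δ < 2 * δ') :
    ∀ᵐ ξ ∂(volume.restrict (Ioc (0:ℝ) 1)), Small (Vst V k ξ) δ := by
  have hk0 : (0:ℝ) < k := by exact_mod_cast (by omega : 0 < k)
  -- the length
  set y : ℕ → ℝ := fun m => ((2:ℝ) ^ m / 2) ^ (1 / (k:ℝ)) / 3 with hy
  set n : ℕ → ℕ := fun m => ⌊y m⌋₊ with hn
  have hyt : Tendsto y atTop atTop := by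
    have h1 : Tendsto (fun m : ℕ => (2:ℝ) ^ m / 2) atTop atTop :=
      (tendsto_pow_atTop_atTop_of_one_lt (one_lt_two (α := ℝ))).atTop_div_const (by norm_num)
    exact ((tendsto_rpow_atTop (by positivity : 0 < 1 / (k:ℝ))).comp h1).atTop_div_const (by norm_num)
  have hny : ∀ m, (n m : ℝ) ≤ y m := fun m => Nat.floor_le (by positivity)
  have hyk : ∀ m, (3 * y m) ^ k = 2 ^ m / 2 := by
    intro m
    have h1 : 3 * y m = ((2:ℝ) ^ m / 2) ^ (1 / (k:ℝ)) := by rw [hy]; ring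
    rw [h1, ← Real.rpow_natCast, ← Real.rpow_mul (by positivity), one_div_mul_cancel hk0.ne', Real.rpow_one]
  -- the constant
  set c : ℝ := 1 / (2 * 6 ^ k) with hc
  have hc0 : 0 < c := by positivity
  have hnk : ∀ᶠ m : ℕ in atTop, 1 ≤ n m ∧ c * 2 ^ m ≤ (n m : ℝ) ^ k := by
    filter_upwards [hyt.eventually_ge_atTop 2] with m hm
    have h1 : y m < n m + 1 := Nat.lt_floor_add_one _
    have h2 : y m / 2 ≤ n m := by linarith
    refine ⟨?_, ?_⟩
    · have : (0:ℝ) < n m := by linarith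
      exact_mod_cast this
    · calc c * 2 ^ m = (y m / 2) ^ k := by
            have h3 : y m / 2 = (3 * y m) * (1 / 6) := by ring
            rw [h3, mul_pow, hyk, hc, one_div_pow]
            field_simp
        _ ≤ _ := pow_le_pow_left₀ (by linarith) h2 k
  -- the set at one scale
  set C₁ : ℝ := ((1:ℝ) / 2) ^ (1 - δ') + 1 with hC₁
  have hC₁0 : 0 < C₁ := by positivity
  have hVm : ∀ᶠ m : ℕ in atTop, volume (V ∩ Icc ((2:ℝ) ^ m / 2) (2 ^ (m + 1))) ≤
      ENNReal.ofReal (C₁ * ((2:ℝ) ^ m) ^ (1 - δ')) := by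
    have h' : ∀ᶠ m : ℕ in atTop, volume (V ∩ Icc ((2:ℝ) ^ (m-1)) (2 ^ (m - 1 + 1))) ≤
        ENNReal.ofReal (((2:ℝ) ^ (m-1)) ^ (1 - δ')) :=
      (tendsto_sub_atTop_nat 1).eventually hS
    filter_upwards [hS, h', eventually_ge_atTop 1] with m h1 h2 h3
    have e1 : m - 1 + 1 = m := by omega
    rw [e1] at h2
    have e2 : (2:ℝ) ^ (m - 1) = 2 ^ m / 2 := by
      rw [← e1, pow_succ, Nat.add_sub_cancel]; ring
    rw [e2] at h2
    have hsub : V ∩ Icc ((2:ℝ) ^ m / 2) (2 ^ (m + 1)) ⊆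
        (V ∩ Icc ((2:ℝ) ^ m / 2) (2 ^ m)) ∪ (V ∩ Icc ((2:ℝ) ^ m) (2 ^ (m + 1))) := by
      rintro t ⟨ht, ht1, ht2⟩
      rcases le_total t (2 ^ m) with h | h
      · exact Or.inl ⟨ht, ht1, h⟩
      · exact Or.inr ⟨ht, h, ht2⟩
    refine (measure_mono hsub).trans ((measure_union_le _ _).trans ((add_le_add h2 h1).trans ?_))
    rw [← ENNReal.ofReal_add (by positivity) (by positivity)]
    apply ENNReal.ofReal_le_ofReal
    rw [hC₁, add_mul, one_mul]
    apply add_le_add _ le_rfl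
    rw [← Real.mul_rpow (by norm_num) (by positivity)]
    apply le_of_eq
    congr 1; ring
  -- the bad shifts
  set e : ℝ := 2 * δ' - δ with he
  have he0 : 0 < e := by linarith
  set Vm : ℕ → Set ℝ := fun m => V ∩ Icc ((2:ℝ) ^ m / 2) (2 ^ (m + 1)) with hVmdef
  have hVmm : ∀ m, MeasurableSet (Vm m) := fun m => hV.inter measurableSet_Icc
  set F : ℕ → ℝ → ENNReal := fun m ξ =>
    ∑ y ∈ Finset.Ico (n m) (n m + n m), ov (Vm m) (((y:ℝ) + ξ + n m) ^ k - ((y:ℝ) + ξ) ^ k) with hF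
  have hFm : ∀ m, Measurable (F m) := by
    intro m
    apply Finset.measurable_sum
    intro y _
    exact (ov_meas (hVmm m)).comp (by fun_prop)
  have hbad : ∀ᶠ m : ℕ in atTop, (volume.restrict (Ioc (0:ℝ) 1)) {ξ : ℝ | ENNReal.ofReal (n m * ((2:ℝ) ^ m) ^ (1 - δ)) ≤ F m ξ} ≤
      ENNReal.ofReal (C₁ ^ 2 / c * ((2:ℝ) ^ m) ^ (-e)) := by
    filter_upwards [hnk, hVm] with m h1 h2
    have h2m : (0:ℝ) < 2 ^ m := by positivity
    have hn1 : (1:ℝ) ≤ n m := by exact_mod_cast h1.1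
    have hn0 : (0:ℝ) < n m := by linarith
    have hlam : 0 < n m * ((2:ℝ) ^ m) ^ (1 - δ) := mul_pos hn0 (Real.rpow_pos_of_pos h2m _)
    have hne : ENNReal.ofReal (n m * ((2:ℝ) ^ m) ^ (1 - δ)) ≠ 0 := (ENNReal.ofReal_pos.mpr hlam).ne'
    refine (meas_ge_le_lintegral_div (hFm m).aemeasurable hne ENNReal.ofReal_ne_top).trans ?_
    rw [ENNReal.div_le_iff hne ENNReal.ofReal_ne_top]
    refine (one_scale (hVmm m) hk h1.1).trans ?_
    calc ENNReal.ofReal (1 / (n m : ℝ) ^ (k - 1)) * (volume (Vm m) * volume (Vm m))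
        ≤ ENNReal.ofReal (1 / (n m : ℝ) ^ (k - 1)) * (ENNReal.ofReal (C₁ * ((2:ℝ) ^ m) ^ (1 - δ')) *
          ENNReal.ofReal (C₁ * ((2:ℝ) ^ m) ^ (1 - δ'))) := by
          gcongr
      _ = ENNReal.ofReal (1 / (n m : ℝ) ^ (k - 1) * (C₁ * ((2:ℝ) ^ m) ^ (1 - δ') * (C₁ * ((2:ℝ) ^ m) ^ (1 - δ')))) := by
          rw [← ENNReal.ofReal_mul (by positivity), ← ENNReal.ofReal_mul (by positivity)]
      _ ≤ ENNReal.ofReal (C₁ ^ 2 / c * ((2:ℝ) ^ m) ^ (-e) * (n m * ((2:ℝ) ^ m) ^ (1 - δ))) := by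
          apply ENNReal.ofReal_le_ofReal
          have e1 : ((2:ℝ) ^ m) ^ (1 - δ') * ((2:ℝ) ^ m) ^ (1 - δ') =
              ((2:ℝ) ^ m) ^ (-e) * ((2:ℝ) ^ m) ^ (1 - δ) * 2 ^ m := by
            rw [← Real.rpow_add h2m, ← Real.rpow_add h2m]
            nth_rewrite 3 [← Real.rpow_one ((2:ℝ) ^ m)]
            rw [← Real.rpow_add h2m]
            congr 1
            rw [he]; ring
          have e2 : (n m : ℝ) ^ k = n m ^ (k - 1) * n m := by
            rw [← pow_succ]; congr 1; omega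
          have h3 := h1.2
          rw [e2] at h3
          have hnp : 0 < (n m : ℝ) ^ (k - 1) := by positivity
          set R : ℝ := ((2:ℝ) ^ m) ^ (-e) * ((2:ℝ) ^ m) ^ (1 - δ) with hR
          have hR0 : 0 < R := by positivity
          have e3 : 1 / (n m : ℝ) ^ (k - 1) * (C₁ * ((2:ℝ) ^ m) ^ (1 - δ') * (C₁ * ((2:ℝ) ^ m) ^ (1 - δ'))) =
              C₁ ^ 2 * R * (2 ^ m / (n m : ℝ) ^ (k - 1)) := by
            calc _ = 1 / (n m : ℝ) ^ (k - 1) * C₁ ^ 2 * (((2:ℝ) ^ m) ^ (1 - δ') * ((2:ℝ) ^ m) ^ (1 - δ')) := by ring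
              _ = _ := by rw [e1]; ring
          have e4 : C₁ ^ 2 / c * ((2:ℝ) ^ m) ^ (-e) * (n m * ((2:ℝ) ^ m) ^ (1 - δ)) = C₁ ^ 2 * R * (n m / c) := by
            rw [hR]; ring
          rw [e3, e4]
          apply mul_le_mul_of_nonneg_left _ (by positivity)
          rw [div_le_div_iff₀ hnp hc0]
          linarith
      _ = _ := by rw [ENNReal.ofReal_mul (by positivity)]
  -- Borel–Cantelli
  have hsum : ∃ m0 : ℕ, ∑' m : ℕ, (volume.restrict (Ioc (0:ℝ) 1)) {ξ : ℝ |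
      ENNReal.ofReal (n (m + m0) * ((2:ℝ) ^ (m + m0)) ^ (1 - δ)) ≤ F (m + m0) ξ} ≠ ⊤ := by
    obtain ⟨m0, hm0⟩ := eventually_atTop.mp hbad
    refine ⟨m0, ?_⟩
    have h1 : ∀ m : ℕ, (volume.restrict (Ioc (0:ℝ) 1)) {ξ : ℝ |
        ENNReal.ofReal (n (m + m0) * ((2:ℝ) ^ (m + m0)) ^ (1 - δ)) ≤ F (m + m0) ξ} ≤
        ENNReal.ofReal (C₁ ^ 2 / c * ((2:ℝ) ^ (-e)) ^ m0 * ((2:ℝ) ^ (-e)) ^ m) := by
      intro m
      refine (hm0 (m + m0) (by omega)).trans (le_of_eq ?_)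
      congr 1
      have e1 : ((2:ℝ) ^ (m + m0)) ^ (-e) = ((2:ℝ) ^ (-e)) ^ (m + m0) := by
        rw [← Real.rpow_natCast 2 (m + m0), ← Real.rpow_mul (by norm_num),
          ← Real.rpow_natCast ((2:ℝ) ^ (-e)) (m + m0), ← Real.rpow_mul (by norm_num)]
        congr 1; ring
      rw [e1, pow_add]; ring
    refine ne_top_of_le_ne_top ?_ (ENNReal.tsum_le_tsum h1)
    have hr1 : (2:ℝ) ^ (-e) < 1 := Real.rpow_lt_one_of_one_lt_of_neg one_lt_two (by linarith)
    have hs : Summable (fun m : ℕ => C₁ ^ 2 / c * ((2:ℝ) ^ (-e)) ^ m0 * ((2:ℝ) ^ (-e)) ^ m) :=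
      (summable_geometric_of_lt_one (by positivity) hr1).mul_left _
    exact hs.tsum_ofReal_ne_top
  obtain ⟨m0, hm0⟩ := hsum
  filter_upwards [ae_eventually_notMem hm0, ae_restrict_mem measurableSet_Ioc] with ξ hξ hξ1
  obtain ⟨m1, hm1⟩ := eventually_atTop.mp hξ
  filter_upwards [hnk, eventually_ge_atTop (m1 + m0)] with m h1 hm
  have h3 := hm1 (m - m0) (by omega)
  rw [Nat.sub_add_cancel (by omega)] at h3
  have h4 : F m ξ < ENNReal.ofReal (n m * ((2:ℝ) ^ m) ^ (1 - δ)) := by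
    by_contra hcon
    push Not at hcon
    exact h3 hcon
  have h2m : (0:ℝ) < 2 ^ m := by positivity
  have hn1 : (1:ℝ) ≤ n m := by exact_mod_cast h1.1
  have hn0 : (0:ℝ) < n m := by linarith
  -- every `y` counts
  have key : ∀ z : ℕ, z + 1 ≤ 3 * n m → ∀ t ∈ Vst V k ξ ∩ Icc ((2:ℝ) ^ m) (2 ^ (m + 1)), t - ((z:ℝ) + ξ) ^ k ∈ Vm m := by
    rintro z hz t ⟨ht, ht1, ht2⟩
    have hz1 : (z:ℝ) + 1 ≤ 3 * n m := by exact_mod_cast hz
    have h5 : ((z:ℝ) + ξ) ^ k ≤ 2 ^ m / 2 := by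
      rw [← hyk]
      apply pow_le_pow_left₀ (by have := hξ1.1; positivity)
      have := hξ1.2
      have := hny m
      linarith
    have h6 : 0 ≤ ((z:ℝ) + ξ) ^ k := pow_nonneg (by have := hξ1.1; positivity) _
    exact ⟨ht z (by linarith), by constructor <;> linarith⟩
  have h5 : ENNReal.ofReal (n m) * volume (Vst V k ξ ∩ Icc ((2:ℝ) ^ m) (2 ^ (m + 1))) ≤ F m ξ := by
    have h6 : ∀ y ∈ Finset.Ico (n m) (n m + n m), volume (Vst V k ξ ∩ Icc ((2:ℝ) ^ m) (2 ^ (m + 1))) ≤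
        ov (Vm m) (((y:ℝ) + ξ + n m) ^ k - ((y:ℝ) + ξ) ^ k) := by
      intro y hy
      rw [Finset.mem_Ico] at hy
      rw [← ov_shift]
      apply measure_mono
      intro t ht
      refine ⟨key y (by omega) t ht, ?_⟩
      have h7 := key (y + n m) (by omega) t ht
      have e1 : (((y + n m : ℕ) : ℝ) + ξ) = (y:ℝ) + ξ + n m := by push_cast; ring
      rwa [e1] at h7
    have h7 := Finset.card_nsmul_le_sum _ _ _ h6
    rw [Nat.card_Ico, Nat.add_sub_cancel, nsmul_eq_mul] at h7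
    rwa [ENNReal.ofReal_natCast]
  have h6 : ENNReal.ofReal (n m) * volume (Vst V k ξ ∩ Icc ((2:ℝ) ^ m) (2 ^ (m + 1))) ≤
      ENNReal.ofReal (n m) * ENNReal.ofReal (((2:ℝ) ^ m) ^ (1 - δ)) := by
    rw [← ENNReal.ofReal_mul hn0.le]
    exact h5.trans h4.le
  exact (ENNReal.mul_le_mul_iff_right (ENNReal.ofReal_pos.2 hn0).ne' ENNReal.ofReal_ne_top).1 h6

end Pool.Agent.K7.H74.WD
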