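import Pool.Agent.K7.H74.WD.Dbl

/-! # Waring's problem with shifts: the induction on the number of variables
(adapted from `Pool.Agent.K7.H77.WG.Ind`) -/

set_option autoImplicit false

namespace Pool.Agent.K7.H74.WD

open MeasureTheory Set Filter Topology

/-- the exceptional set -/
def U {s : ℕ} (K : Fin s → ℕ) (A : Set ℕ) (η : ℝ) (ξ : Fin s → ℝ) : Set ℝ :=
  {t | 1 ≤ t ∧ ∀ a ∈ A, ∀ x : Fin s → ℕ, t ^ (-η) ≤ |(a:ℝ) + ∑ i, ((x i : ℝ) + ξ i) ^ K i - t|}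

theorem U_meas2 {s : ℕ} (K : Fin s → ℕ) (A : Set ℕ) (η : ℝ) :
    MeasurableSet {p : (Fin s → ℝ) × ℝ | p.2 ∈ U K A η p.1} := by
  have e : {p : (Fin s → ℝ) × ℝ | p.2 ∈ U K A η p.1} =
      {p | 1 ≤ p.2} ∩ ⋂ a ∈ A, ⋂ x : Fin s → ℕ, {p | p.2 ^ (-η) ≤ |(a:ℝ) + ∑ i, ((x i : ℝ) + p.1 i) ^ K i - p.2|} := by
    ext p
    simp [U]
  rw [e]
  refine (measurableSet_le measurable_const measurable_snd).inter
    (MeasurableSet.biInter (to_countable A) fun a _ => MeasurableSet.iInter (fun x => measurableSet_le (measurable_snd.pow_const _) ?_))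
  fun_prop

theorem U_meas {s : ℕ} (K : Fin s → ℕ) (A : Set ℕ) (η : ℝ) (ξ : Fin s → ℝ) : MeasurableSet (U K A η ξ) :=
  (measurable_prodMk_left (x := ξ)) (U_meas2 K A η)

theorem Small_meas {s : ℕ} (K : Fin s → ℕ) (A : Set ℕ) (η δ : ℝ) :
    MeasurableSet {ξ : Fin s → ℝ | Small (U K A η ξ) δ} := by
  have e : {ξ : Fin s → ℝ | Small (U K A η ξ) δ} = ⋃ m0 : ℕ, ⋂ m : ℕ, ⋂ (_ : m0 ≤ m),
      {ξ | volume (U K A η ξ ∩ Icc ((2:ℝ) ^ m) (2 ^ (m + 1))) ≤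
        ENNReal.ofReal (((2:ℝ) ^ m) ^ (1 - δ))} := by
    ext ξ
    simp [Small, eventually_atTop]
  rw [e]
  refine MeasurableSet.iUnion (fun m0 => MeasurableSet.iInter (fun m => MeasurableSet.iInter
    (fun _ => measurableSet_le ?_ measurable_const)))
  have h : MeasurableSet ({p : (Fin s → ℝ) × ℝ | p.2 ∈ U K A η p.1} ∩
      {p | p.2 ∈ Icc ((2:ℝ) ^ m) (2 ^ (m + 1))}) :=
    (U_meas2 K A η).inter (measurable_snd measurableSet_Icc)
  exact measurable_measure_prodMk_left h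

theorem Small_mono {V W : Set ℝ} {δ t₀ : ℝ} (h : ∀ t, t₀ ≤ t → t ∈ V → t ∈ W) (hW : Small W δ) :
    Small V δ := by
  have ht : ∀ᶠ m : ℕ in atTop, t₀ ≤ (2:ℝ) ^ m :=
    (tendsto_pow_atTop_atTop_of_one_lt (one_lt_two (α := ℝ))).eventually_ge_atTop t₀
  filter_upwards [hW, ht] with m h1 h2
  refine (measure_mono ?_).trans h1
  rintro t ⟨ht1, ht2⟩
  exact ⟨h t (h2.trans ht2.1) ht1, ht2⟩

theorem const_le {C e : ℝ} (he : 0 < e) : ∀ᶠ X : ℝ in atTop, C ≤ X ^ e :=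
  (tendsto_rpow_atTop he).eventually_ge_atTop C

/-- **One more variable.** -/
theorem step {s : ℕ} {K : Fin (s + 1) → ℕ} (hk : 2 ≤ K (Fin.last s)) {A : Set ℕ} {φ : ℝ → ℝ} (hφ : Continuous φ)
    (h : ∀ η δ : ℝ, 0 ≤ η → δ < φ η → ∀ᵐ ξ : Fin s → ℝ, (∀ i, ξ i ∈ Ioc (0:ℝ) 1) →
      Small (U (fun i => K i.castSucc) A η ξ) δ) :
    ∀ η δ : ℝ, 0 ≤ η → δ < 2 * φ η → ∀ᵐ ξ : Fin (s+1) → ℝ, (∀ i, ξ i ∈ Ioc (0:ℝ) 1) →
      Small (U K A η ξ) δ := by
  intro η δ hη hδ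
  obtain ⟨η', h1, hη'φ⟩ : ∃ η', η < η' ∧ δ / 2 < φ η' := by
    have h1 : ∀ᶠ x in 𝓝 η, δ / 2 < φ x := hφ.continuousAt.eventually (lt_mem_nhds (by linarith))
    have h2 : ∀ᶠ x in 𝓝[>] η, δ / 2 < φ x := nhdsWithin_le_nhds h1
    obtain ⟨x, hx1, hx2⟩ := (h2.and self_mem_nhdsWithin).exists
    exact ⟨x, hx2, hx1⟩
  obtain ⟨δ', hδ1, h3⟩ := exists_between hη'φ
  have h2 : δ < 2 * δ' := by linarith
  have hη'0 : 0 ≤ η' := by linarith
  have hbase := h η' δ' hη'0 h3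
  -- the statement on the product
  have hpr : ∀ᵐ ξ : Fin s → ℝ, ∀ᵐ β : ℝ, (∀ i, ξ i ∈ Ioc (0:ℝ) 1) → β ∈ Ioc (0:ℝ) 1 →
      Small (U K A η (Fin.snoc ξ β)) δ := by
    filter_upwards [hbase] with ξ hξ
    by_cases hpos : ∀ i, ξ i ∈ Ioc (0:ℝ) 1
    · have h5 := (ae_restrict_iff' measurableSet_Ioc).1 (one_dim (U_meas (fun i => K i.castSucc) A η' ξ) hk (hξ hpos) h2)
      filter_upwards [h5] with β hβ _ hβ0
      have hgap : ∀ᶠ t : ℝ in atTop, (2:ℝ) ^ η' ≤ t ^ (η' - η) := const_le (by linarith)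
      obtain ⟨t₀, ht₀⟩ := eventually_atTop.mp hgap
      refine Small_mono (t₀ := max t₀ 2) ?_ (hβ hβ0)
      rintro t ht ⟨ht1, ht2⟩ y hy2
      have hty := ht₀ t ((le_max_left _ _).trans ht)
      have ht3 : 2 ≤ t := (le_max_right _ _).trans ht
      have ht0 : 0 < t := by linarith
      set u : ℝ := t - ((y:ℝ) + β) ^ K (Fin.last s) with hu
      have hu1 : t / 2 ≤ u := by rw [hu]; linarith
      have hu0 : 0 < u := by linarith
      refine ⟨by linarith, fun a ha x => ?_⟩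
      have h6 := ht2 a ha (Fin.snoc x y)
      rw [Fin.sum_univ_castSucc] at h6
      simp only [Fin.snoc_castSucc, Fin.snoc_last] at h6
      have h7 : (a:ℝ) + (∑ i, ((x i : ℝ) + ξ i) ^ K i.castSucc + ((y:ℝ) + β) ^ K (Fin.last s)) - t =
          (a:ℝ) + ∑ i, ((x i : ℝ) + ξ i) ^ K i.castSucc - u := by rw [hu]; ring
      rw [h7] at h6
      refine le_trans ?_ h6
      calc u ^ (-η') ≤ (t / 2) ^ (-η') :=
            Real.rpow_le_rpow_of_nonpos (by positivity) hu1 (by linarith)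
        _ = 2 ^ η' * t ^ (-η') := by
          rw [Real.div_rpow ht0.le (by norm_num), Real.rpow_neg (by norm_num : (0:ℝ) ≤ 2),
            div_inv_eq_mul]
          ring
        _ ≤ t ^ (η' - η) * t ^ (-η') := by gcongr
        _ = t ^ (-η) := by rw [← Real.rpow_add ht0]; congr 1; ring
    · exact Eventually.of_forall (fun β hp => absurd hp hpos)
  -- Fubini
  set e := MeasurableEquiv.piFinSuccAbove (fun _ : Fin (s+1) => ℝ) (Fin.last s) with he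
  have hmp : MeasurePreserving e volume volume :=
    volume_preserving_piFinSuccAbove (fun _ : Fin (s+1) => ℝ) (Fin.last s)
  have hms : MeasurableSet {p : ℝ × (Fin s → ℝ) | (∀ i, p.2 i ∈ Ioc (0:ℝ) 1) → p.1 ∈ Ioc (0:ℝ) 1 →
      Small (U K A η (Fin.snoc p.2 p.1)) δ} := by
    have hsn : Measurable (fun p : ℝ × (Fin s → ℝ) => (Fin.snoc p.2 p.1 : Fin (s+1) → ℝ)) := by
      rw [measurable_pi_iff]
      intro i
      refine Fin.lastCases ?_ (fun j => ?_) i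
      · simp only [Fin.snoc_last]; exact measurable_fst
      · simp only [Fin.snoc_castSucc]; fun_prop
    have m1 : MeasurableSet {p : ℝ × (Fin s → ℝ) | ∀ i, p.2 i ∈ Ioc (0:ℝ) 1} := by
      have e1 : {p : ℝ × (Fin s → ℝ) | ∀ i, p.2 i ∈ Ioc (0:ℝ) 1} = ⋂ i, {p | p.2 i ∈ Ioc (0:ℝ) 1} := by
        ext p; simp
      rw [e1]
      exact MeasurableSet.iInter (fun i => (by fun_prop : Measurable fun p : ℝ × (Fin s → ℝ) => p.2 i) measurableSet_Ioc)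
    have m2 : MeasurableSet {p : ℝ × (Fin s → ℝ) | p.1 ∈ Ioc (0:ℝ) 1} := measurable_fst measurableSet_Ioc
    have m3 : MeasurableSet {p : ℝ × (Fin s → ℝ) | Small (U K A η (Fin.snoc p.2 p.1)) δ} :=
      hsn (Small_meas K A η δ)
    have e2 : {p : ℝ × (Fin s → ℝ) | (∀ i, p.2 i ∈ Ioc (0:ℝ) 1) → p.1 ∈ Ioc (0:ℝ) 1 →
      Small (U K A η (Fin.snoc p.2 p.1)) δ} = {p | ∀ i, p.2 i ∈ Ioc (0:ℝ) 1}ᶜ ∪ ({p | p.1 ∈ Ioc (0:ℝ) 1}ᶜ ∪
        {p | Small (U K A η (Fin.snoc p.2 p.1)) δ}) := by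
      ext p
      simp only [mem_ofPred_eq, mem_union, mem_compl_iff]
      tauto
    rw [e2]
    exact m1.compl.union (m2.compl.union m3)
  have hpr2 : ∀ᵐ p : ℝ × (Fin s → ℝ), (∀ i, p.2 i ∈ Ioc (0:ℝ) 1) → p.1 ∈ Ioc (0:ℝ) 1 →
      Small (U K A η (Fin.snoc p.2 p.1)) δ := by
    rw [Measure.volume_eq_prod]
    rw [Measure.ae_prod_iff_ae_ae hms]
    exact (Measure.ae_ae_comm (p := fun (β : ℝ) (ξ : Fin s → ℝ) => (∀ i, ξ i ∈ Ioc (0:ℝ) 1) → β ∈ Ioc (0:ℝ) 1 →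
      Small (U K A η (Fin.snoc ξ β)) δ) hms).mpr hpr
  have hpr3 := hmp.quasiMeasurePreserving.ae hpr2
  filter_upwards [hpr3] with γ hγ hpos
  have e3 : (Fin.snoc (e γ).2 (e γ).1 : Fin (s+1) → ℝ) = γ := by
    have e4 : (e γ).1 = γ (Fin.last s) := rfl
    have e5 : (e γ).2 = fun j => γ j.castSucc := by
      funext j
      show γ ((Fin.last s).succAbove j) = γ j.castSucc
      rw [Fin.succAbove_last]
    rw [e4, e5]
    funext i
    refine Fin.lastCases ?_ (fun j => ?_) i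
    · simp
    · simp
  have h8 := hγ (fun i => by
    show γ ((Fin.last s).succAbove i) ∈ Ioc (0:ℝ) 1
    exact hpos _) (hpos _)
  rwa [e3] at h8

/-- **The exceptional set with additional variables.** -/
theorem exceptional {r k : ℕ} {A : Set ℕ} {φ : ℝ → ℝ} (hφ : Continuous φ)
    (h : ∀ η δ : ℝ, 0 ≤ η → δ < φ η → ∀ᵐ ξ : Fin r → ℝ, (∀ i, ξ i ∈ Ioc (0:ℝ) 1) →
      Small (U (fun _ => k) A η ξ) δ) (j : ℕ) (K : Fin (r + j) → ℕ) (hK : ∀ i : Fin r, K (Fin.castAdd j i) = k)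
    (hK2 : ∀ i : Fin j, 2 ≤ K (Fin.natAdd r i)) :
    ∀ η δ : ℝ, 0 ≤ η → δ < 2 ^ j * φ η →
      ∀ᵐ ξ : Fin (r + j) → ℝ, (∀ i, ξ i ∈ Ioc (0:ℝ) 1) → Small (U K A η ξ) δ := by
  induction j with
  | zero =>
    intro η δ hη hδ
    have e : K = fun _ => k := funext fun i => hK i
    rw [e]
    exact h η δ hη (by simpa using hδ)
  | succ j ih =>
    intro η δ hη hδ
    have ih' := ih (fun i => K i.castSucc) (fun i => hK i) (fun i => hK2 i.castSucc)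
    refine step (s := r + j) (K := K) (hK2 (Fin.last j)) (φ := fun η => 2 ^ j * φ η) (by fun_prop) ih' η δ hη ?_
    rw [pow_succ] at hδ
    linarith

/-- if the saving is large then there is no exception -/
theorem none_of_small {s : ℕ} {K : Fin s → ℕ} {A : Set ℕ} {η η' δ : ℝ} (hη : 0 ≤ η) (hη' : η < η')
    (hδ : 1 + η' < δ) {ξ : Fin s → ℝ} (h : Small (U K A η' ξ) δ) :
    ∀ᶠ t : ℝ in atTop, ∃ a ∈ A, ∃ x : Fin s → ℕ, |(a:ℝ) + ∑ i, ((x i : ℝ) + ξ i) ^ K i - t| < t ^ (-η) := by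
  obtain ⟨m1, hm1⟩ := eventually_atTop.mp h
  have hg1 : ∀ᶠ t : ℝ in atTop, 2 * (2:ℝ) ^ η' ≤ t ^ (η' - η) := const_le (by linarith)
  have hg2 : ∀ᶠ t : ℝ in atTop, (2:ℝ) ^ (δ - 1) * 2 + 1 ≤ t ^ (δ - 1 - η') := const_le (by linarith)
  have hg3 : ∀ᶠ t : ℝ in atTop, (2:ℝ) ^ m1 ≤ t := eventually_ge_atTop _
  filter_upwards [hg1, hg2, hg3, eventually_ge_atTop 4] with t h1 h2 h3 h4
  have ht0 : 0 < t := by linarith
  by_contra hcon
  push Not at hcon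
  obtain ⟨m, hm, hm'⟩ := exists_nat_pow_near (x := t) (y := 2) (by linarith) one_lt_two
  have hmm : m1 ≤ m := by
    by_contra hc
    push Not at hc
    have : (2:ℝ) ^ (m + 1) ≤ 2 ^ m1 := pow_le_pow_right₀ (by norm_num) hc
    linarith
  have h2m : (0:ℝ) < 2 ^ m := by positivity
  have hsm := hm1 m hmm
  -- an interval of exceptions
  set w : ℝ := (t:ℝ) ^ (-η') with hw
  have hw0 : 0 < w := Real.rpow_pos_of_pos ht0 _
  have hw1 : w ≤ 1 := Real.rpow_le_one_of_one_le_of_nonpos (by linarith) (by linarith)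
  have hη'0 : 0 < η' := by linarith
  have hfar : ∀ u ∈ Icc (t / 2) (2 * t), |u - t| ≤ w → u ∈ U K A η' ξ := by
    intro u hu hut
    refine ⟨by linarith [hu.1], fun a ha x => ?_⟩
    have hu0 : 0 < u := by linarith [hu.1]
    have h5 := hcon a ha x
    have h6 : |(a:ℝ) + ∑ i, ((x i : ℝ) + ξ i) ^ K i - t| ≤ |(a:ℝ) + ∑ i, ((x i : ℝ) + ξ i) ^ K i - u| + |u - t| := by
      have e : (a:ℝ) + ∑ i, ((x i : ℝ) + ξ i) ^ K i - t = ((a:ℝ) + ∑ i, ((x i : ℝ) + ξ i) ^ K i - u) + (u - t) := by ring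
      rw [e]; exact abs_add_le _ _
    have h7 : u ^ (-η') ≤ 2 ^ η' * w := by
      calc u ^ (-η') ≤ (t / 2) ^ (-η') :=
            Real.rpow_le_rpow_of_nonpos (by positivity) hu.1 (by linarith)
        _ = 2 ^ η' * w := by
          rw [Real.div_rpow ht0.le (by norm_num), Real.rpow_neg (by norm_num : (0:ℝ) ≤ 2),
            div_inv_eq_mul, hw]
          ring
    have h8 : 2 * 2 ^ η' * w ≤ t ^ (-η) := by
      calc 2 * 2 ^ η' * w ≤ t ^ (η' - η) * w := by gcongr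
        _ = t ^ (-η) := by rw [hw, ← Real.rpow_add ht0]; congr 1; ring
    have h9 : 1 ≤ (2:ℝ) ^ η' := Real.one_le_rpow (by norm_num) hη'0.le
    nlinarith
  -- half of it lies in the dyadic interval
  have hvol : ENNReal.ofReal (w / 2) ≤ volume (U K A η' ξ ∩ Icc ((2:ℝ) ^ m) (2 ^ (m + 1))) := by
    rcases le_total (t + w / 2) (2 ^ (m + 1)) with h10 | h10
    · calc ENNReal.ofReal (w / 2) = volume (Icc t (t + w / 2)) := by
            rw [Real.volume_Icc]; congr 1; ring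
        _ ≤ _ := by
          apply measure_mono
          rintro u ⟨hu1, hu2⟩
          refine ⟨hfar u ⟨by linarith, by linarith⟩ ?_, by linarith, by linarith⟩
          rw [abs_of_nonneg (by linarith)]; linarith
    · calc ENNReal.ofReal (w / 2) = volume (Icc (t - w / 2) t) := by
            rw [Real.volume_Icc]; congr 1; ring
        _ ≤ _ := by
          apply measure_mono
          rintro u ⟨hu1, hu2⟩
          refine ⟨hfar u ⟨by linarith, by linarith⟩ ?_, ?_, by linarith⟩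
          · rw [abs_of_nonpos (by linarith)]; linarith
          · have : (2:ℝ) ^ (m + 1) = 2 ^ m + 2 ^ m := by ring
            have h11 : (2:ℝ) ≤ 2 ^ m := by
              have : (4:ℝ) < 2 ^ (m + 1) := lt_of_le_of_lt h4 hm'
              rw [pow_succ] at this; linarith
            linarith
  have h12 := hvol.trans hsm
  rw [ENNReal.ofReal_le_ofReal_iff (by positivity)] at h12
  -- contradiction
  have h13 : ((2:ℝ) ^ m) ^ (1 - δ) ≤ 2 ^ (δ - 1) * t ^ (1 - δ) := by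
    have h14 : t / 2 ≤ 2 ^ m := by rw [pow_succ] at hm'; linarith
    calc ((2:ℝ) ^ m) ^ (1 - δ) ≤ (t / 2) ^ (1 - δ) :=
          Real.rpow_le_rpow_of_nonpos (by positivity) h14 (by linarith)
      _ = _ := by
        rw [Real.div_rpow ht0.le (by norm_num), div_eq_mul_inv,
          ← Real.rpow_neg (by norm_num : (0:ℝ) ≤ 2), neg_sub]
        ring
  have h15 : t ^ (δ - 1 - η') * t ^ (1 - δ) = w := by
    rw [hw, ← Real.rpow_add ht0]; congr 1; ring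
  have h16 : 0 < t ^ (1 - δ) := Real.rpow_pos_of_pos ht0 _
  have h17 : ((2:ℝ) ^ (δ - 1) * 2 + 1) * t ^ (1 - δ) ≤ w := by
    rw [← h15]; gcongr
  nlinarith

/-- **All large numbers.** -/
theorem all_large {r k : ℕ} {A : Set ℕ} {φ : ℝ → ℝ} (hφ : Continuous φ)
    (h : ∀ η δ : ℝ, 0 ≤ η → δ < φ η → ∀ᵐ ξ : Fin r → ℝ, (∀ i, ξ i ∈ Ioc (0:ℝ) 1) →
      Small (U (fun _ => k) A η ξ) δ) (j : ℕ) (K : Fin (r + j) → ℕ) (hK : ∀ i : Fin r, K (Fin.castAdd j i) = k)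
    (hK2 : ∀ i : Fin j, 2 ≤ K (Fin.natAdd r i)) {η : ℝ} (hη : 0 ≤ η) (hs : 1 + η < 2 ^ j * φ η) :
    ∀ᵐ ξ : Fin (r + j) → ℝ, (∀ i, ξ i ∈ Ioc (0:ℝ) 1) →
      ∀ᶠ t : ℝ in atTop, ∃ a ∈ A, ∃ x : Fin (r + j) → ℕ, |(a:ℝ) + ∑ i, ((x i : ℝ) + ξ i) ^ K i - t| < t ^ (-η) := by
  obtain ⟨η', h1, h2⟩ : ∃ η', η < η' ∧ 1 + η' < 2 ^ j * φ η' := by
    have h1 : ∀ᶠ x in 𝓝 η, 0 < 2 ^ j * φ x - (1 + x) := by
      have hc : Continuous fun x => 2 ^ j * φ x - (1 + x) := by fun_prop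
      exact hc.continuousAt.eventually (lt_mem_nhds (by linarith))
    have h2 : ∀ᶠ x in 𝓝[>] η, 0 < 2 ^ j * φ x - (1 + x) := nhdsWithin_le_nhds h1
    obtain ⟨x, hx1, hx2⟩ := (h2.and self_mem_nhdsWithin).exists
    exact ⟨x, hx2, by linarith⟩
  obtain ⟨δ, hδ1, hδ2⟩ := exists_between h2
  filter_upwards [exceptional hφ h j K hK hK2 η' δ (by linarith) hδ2] with ξ hξ hpos
  exact none_of_small hη h1 hδ1 (hξ hpos)

end Pool.Agent.K7.H74.WD
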