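import Mathlib
import Pool.Agent.K7.H74.WS.SlA

set_option autoImplicit false

/-! Waring's problem with shifts: the mean square of the deviation, all frequencies. -/

namespace Pool.Agent.K7.H74.WD
open Finset MeasureTheory Complex
open Pool.Agent.K7.H74.WS (e norm_e e_cont e_add e_sub e_neg e_zero e_lip S M DS S_cont2 int_S CK DS_sq)

lemma e_sub_one_ge {δ : ℝ} (h0 : 0 ≤ δ) (h1 : δ ≤ 1 / 2) : 4 * δ ≤ ‖e δ - 1‖ := by
  have hpi := Real.pi_pos
  have h2 : ‖e δ - 1‖ = ‖(2 : ℝ) * Real.sin ((2 * Real.pi * δ) / 2)‖ := by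
    unfold e
    rw [mul_comm (((2 * Real.pi * δ : ℝ) : ℂ)) I]
    exact Complex.norm_exp_I_mul_ofReal_sub_one _
  have e1 : (2 * Real.pi * δ) / 2 = Real.pi * δ := by ring
  rw [h2, e1]
  have h3 := Real.mul_le_sin (x := Real.pi * δ) (by positivity) (by nlinarith)
  have e2 : 2 / Real.pi * (Real.pi * δ) = 2 * δ := by field_simp
  rw [e2] at h3
  rw [Real.norm_eq_abs]
  exact le_trans (by linarith) (le_abs_self _)

/-- the inequality of Kusmin and Landau -/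
theorem kl {φ : ℕ → ℝ} {lam : ℝ} (hlam : 0 < lam) (N : ℕ)
    (h1 : ∀ n < N, lam ≤ φ (n + 1) - φ n) (h2 : ∀ n < N, φ (n + 1) - φ n ≤ 1 / 2)
    (h3 : ∀ n, n + 1 < N → φ (n + 1) - φ n ≤ φ (n + 2) - φ (n + 1)) :
    ‖∑ n ∈ range N, e (φ n)‖ ≤ 1 / lam := by
  have hpi3 := Real.pi_gt_three
  have hpi4 := Real.pi_lt_four
  rcases Nat.eq_zero_or_pos N with h0 | hN
  · subst h0
    simp only [range_zero, sum_empty, norm_zero]
    positivity
  set c : ℕ → ℂ := fun n => (e (φ (n + 1) - φ n) - 1)⁻¹ with hc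
  have hpos : ∀ n < N, 0 < φ (n + 1) - φ n := fun n hn => lt_of_lt_of_le hlam (h1 n hn)
  have hge : ∀ n < N, 4 * (φ (n + 1) - φ n) ≤ ‖e (φ (n + 1) - φ n) - 1‖ := fun n hn =>
    e_sub_one_ge (hpos n hn).le (h2 n hn)
  have hne : ∀ n < N, e (φ (n + 1) - φ n) - 1 ≠ 0 := fun n hn => by
    have := hge n hn
    have := hpos n hn
    exact norm_pos_iff.1 (by linarith)
  have hcn : ∀ n < N, ‖c n‖ ≤ 1 / 4 * (φ (n + 1) - φ n)⁻¹ := by
    intro n hn
    rw [hc]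
    simp only [norm_inv]
    have h4 := inv_anti₀ (by have := hpos n hn; linarith) (hge n hn)
    rw [mul_inv] at h4
    linarith
  have hstep : ∀ n < N, e (φ n) = c n * (e (φ (n + 1)) - e (φ n)) := by
    intro n hn
    have h4 : e (φ (n + 1)) = e (φ n) * e (φ (n + 1) - φ n) := by
      rw [← e_add]; congr 1; ring
    rw [h4, hc]
    simp only
    have := hne n hn
    field_simp
  have hdiff : ∀ n, n + 1 < N → ‖c n - c (n + 1)‖ ≤ Real.pi / 8 * ((φ (n + 1) - φ n)⁻¹ - (φ (n + 2) - φ (n + 1))⁻¹) := by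
    intro n hn
    set d0 := φ (n + 1) - φ n with hd0
    set d1 := φ (n + 2) - φ (n + 1) with hd1
    have p0 : 0 < d0 := hpos n (by omega)
    have p1 : 0 < d1 := hpos (n + 1) hn
    have q0 := hge n (by omega)
    have q1 := hge (n + 1) hn
    have n0 := hne n (by omega)
    have n1 := hne (n + 1) hn
    rw [← hd0] at q0 n0
    rw [show φ (n + 1 + 1) - φ (n + 1) = d1 from rfl] at q1 n1
    have e1 : c n - c (n + 1) = (e d1 - e d0) / ((e d0 - 1) * (e d1 - 1)) := by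
      show (e d0 - 1)⁻¹ - (e d1 - 1)⁻¹ = _
      field_simp
      ring
    rw [e1, norm_div, norm_mul]
    have h5 : ‖e d1 - e d0‖ ≤ 2 * Real.pi * (d1 - d0) := by
      have h6 := e_lip d1 d0
      rwa [abs_of_nonneg (by have := h3 n hn; linarith)] at h6
    have h7 : (4 * d0) * (4 * d1) ≤ ‖e d0 - 1‖ * ‖e d1 - 1‖ := mul_le_mul q0 q1 (by positivity) (norm_nonneg _)
    have h8 : 0 ≤ d1 - d0 := by have := h3 n hn; linarith
    calc ‖e d1 - e d0‖ / (‖e d0 - 1‖ * ‖e d1 - 1‖) ≤ (2 * Real.pi * (d1 - d0)) / ((4 * d0) * (4 * d1)) := by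
          apply div_le_div₀ (by positivity) h5 (by positivity) h7
      _ = Real.pi / 8 * (d0⁻¹ - d1⁻¹) := by
          field_simp
          ring
  -- summation by parts
  have key : ∀ n, n + 1 ≤ N → ‖∑ i ∈ range (n + 1), e (φ i) - c n * e (φ (n + 1))‖ ≤
      1 / 4 * (φ 1 - φ 0)⁻¹ + Real.pi / 8 * ((φ 1 - φ 0)⁻¹ - (φ (n + 1) - φ n)⁻¹) := by
    intro n
    induction n with
    | zero =>
      intro _
      rw [sum_range_one]
      have h4 : e (φ 0) - c 0 * e (φ (0 + 1)) = -(c 0 * e (φ 0)) := by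
        have := hstep 0 hN
        nth_rewrite 1 [this]
        ring
      rw [h4, norm_neg, norm_mul, norm_e, mul_one, zero_add, sub_self, mul_zero, add_zero]
      exact hcn 0 hN
    | succ n ih =>
      intro hn
      have h4 := ih (by omega)
      have h5 := hdiff n (by omega)
      have h6 : ∑ i ∈ range (n + 1 + 1), e (φ i) - c (n + 1) * e (φ (n + 1 + 1)) =
          (∑ i ∈ range (n + 1), e (φ i) - c n * e (φ (n + 1))) + (c n - c (n + 1)) * e (φ (n + 1)) := by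
        rw [sum_range_succ _ (n + 1)]
        have := hstep (n + 1) (by omega)
        linear_combination this
      rw [h6]
      refine (norm_add_le _ _).trans ?_
      rw [norm_mul, norm_e, mul_one]
      have e7 : φ (n + 1 + 1) = φ (n + 2) := rfl
      rw [e7]
      linarith
  have h4 := key (N - 1) (by omega)
  have eN : N - 1 + 1 = N := by omega
  rw [eN] at h4
  have h5 := hcn (N - 1) (by omega)
  rw [eN] at h5
  have h6 : ‖∑ n ∈ range N, e (φ n)‖ ≤ ‖∑ i ∈ range N, e (φ i) - c (N - 1) * e (φ N)‖ + ‖c (N - 1)‖ := by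
    calc ‖∑ n ∈ range N, e (φ n)‖ = ‖(∑ i ∈ range N, e (φ i) - c (N - 1) * e (φ N)) + c (N - 1) * e (φ N)‖ := by
          rw [sub_add_cancel]
      _ ≤ _ := norm_add_le _ _
      _ = _ := by rw [norm_mul, norm_e, mul_one]
  have p0 : 0 < φ 1 - φ 0 := hpos 0 hN
  have p1 : 0 < φ N - φ (N - 1) := by
    have := hpos (N - 1) (by omega)
    rwa [eN] at this
  have i1 : 0 < (φ N - φ (N - 1))⁻¹ := inv_pos.2 p1
  have i0 : 0 < (φ 1 - φ 0)⁻¹ := inv_pos.2 p0
  have i2 : (φ 1 - φ 0)⁻¹ ≤ 1 / lam := by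
    rw [one_div]
    exact inv_anti₀ hlam (h1 0 hN)
  nlinarith

/-- with monotone weights -/
theorem abel {a : ℕ → ℂ} {w : ℕ → ℝ} (hw0 : ∀ n, 0 ≤ w n) (hw : ∀ n, w n ≤ w (n + 1)) {K : ℝ} (N : ℕ)
    (hK : ∀ n ≤ N, ‖∑ i ∈ range n, a i‖ ≤ K) :
    ‖∑ i ∈ range N, (w i : ℂ) * a i‖ ≤ 2 * w N * K := by
  have hK0 : 0 ≤ K := by
    have := hK 0 (Nat.zero_le _)
    simpa using this
  have key : ∀ n ≤ N, ‖∑ i ∈ range n, (w i : ℂ) * a i - (w n : ℂ) * ∑ i ∈ range n, a i‖ ≤ (w n - w 0) * K := by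
    intro n
    induction n with
    | zero => intro _; simp
    | succ n ih =>
      intro hn
      have h1 := ih (by omega)
      have h2 : ∑ i ∈ range (n + 1), (w i : ℂ) * a i - (w (n + 1) : ℂ) * ∑ i ∈ range (n + 1), a i =
          (∑ i ∈ range n, (w i : ℂ) * a i - (w n : ℂ) * ∑ i ∈ range n, a i) -
            ((w (n + 1) - w n : ℝ) : ℂ) * ∑ i ∈ range (n + 1), a i := by
        rw [sum_range_succ, sum_range_succ]
        push_cast
        ring
      rw [h2]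
      refine (norm_sub_le _ _).trans ?_
      rw [norm_mul, Complex.norm_of_nonneg (by have := hw n; linarith)]
      have h3 := mul_le_mul_of_nonneg_left (hK (n + 1) hn) (by have := hw n; linarith : 0 ≤ w (n + 1) - w n)
      nlinarith
  have h1 := key N le_rfl
  have h2 : ‖(w N : ℂ) * ∑ i ∈ range N, a i‖ ≤ w N * K := by
    rw [norm_mul, Complex.norm_of_nonneg (hw0 N)]
    exact mul_le_mul_of_nonneg_left (hK N le_rfl) (hw0 N)
  have h3 : ‖∑ i ∈ range N, (w i : ℂ) * a i‖ ≤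
      ‖∑ i ∈ range N, (w i : ℂ) * a i - (w N : ℂ) * ∑ i ∈ range N, a i‖ + ‖(w N : ℂ) * ∑ i ∈ range N, a i‖ := by
    calc _ = ‖(∑ i ∈ range N, (w i : ℂ) * a i - (w N : ℂ) * ∑ i ∈ range N, a i) + (w N : ℂ) * ∑ i ∈ range N, a i‖ := by
          rw [sub_add_cancel]
      _ ≤ _ := norm_add_le _ _
  have h4 : 0 ≤ w 0 * K := mul_nonneg (hw0 0) hK0
  nlinarith

lemma pow_sub_le {x y : ℝ} (hx : 0 ≤ x) (hxy : x ≤ y) (n : ℕ) : y ^ (n + 1) - x ^ (n + 1) ≤ (n + 1) * ((y - x) * y ^ n) := by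
  induction n with
  | zero => simp
  | succ n ih =>
    have hy : 0 ≤ y := hx.trans hxy
    have h1 := mul_le_mul_of_nonneg_left ih hy
    have h2 : x ^ (n + 1) ≤ y ^ (n + 1) := pow_le_pow_left₀ hx hxy _
    have h3 := mul_le_mul_of_nonneg_left h2 (by linarith : 0 ≤ y - x)
    have e1 : y ^ (n + 1 + 1) - x ^ (n + 1 + 1) = y * (y ^ (n + 1) - x ^ (n + 1)) + (y - x) * x ^ (n + 1) := by ring
    rw [e1]
    push_cast
    calc y * (y ^ (n + 1) - x ^ (n + 1)) + (y - x) * x ^ (n + 1) ≤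
          y * (((n:ℝ) + 1) * ((y - x) * y ^ n)) + (y - x) * y ^ (n + 1) := by linarith
      _ = _ := by ring

lemma pow_sub_ge {x y : ℝ} (hx : 0 ≤ x) (hxy : x ≤ y) (n : ℕ) : (n + 1) * ((y - x) * x ^ n) ≤ y ^ (n + 1) - x ^ (n + 1) := by
  induction n with
  | zero => simp
  | succ n ih =>
    have hy : 0 ≤ y := hx.trans hxy
    have h1 := mul_le_mul_of_nonneg_left ih hx
    have h2 : x ^ (n + 1) ≤ y ^ (n + 1) := pow_le_pow_left₀ hx hxy _
    have h3 := mul_le_mul_of_nonneg_left h2 (by linarith : 0 ≤ y - x)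
    have e1 : y ^ (n + 1 + 1) - x ^ (n + 1 + 1) = x * (y ^ (n + 1) - x ^ (n + 1)) + (y - x) * y ^ (n + 1) := by ring
    rw [e1]
    push_cast
    calc ((n:ℝ) + 1 + 1) * ((y - x) * x ^ (n + 1)) = x * (((n:ℝ) + 1) * ((y - x) * x ^ n)) + (y - x) * x ^ (n + 1) := by ring
      _ ≤ _ := by linarith

/-- low frequencies: the derivative with respect to the shift is bounded -/
lemma dS_low {m P : ℕ} (hP : 1 ≤ P) {α : ℝ} (hα : 0 < α) (hlow : α * ((m + 2) * (4 * (P:ℝ)) ^ (m + 1)) ≤ 1 / 2)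
    {ξ : ℝ} (h0 : 0 ≤ ξ) (h1 : ξ ≤ 1) :
    ‖∑ x ∈ Ico P (3 * P), e (α * ((x : ℝ) + ξ) ^ (m + 2)) * ((2 * Real.pi * (α * ((m + 2) * ((x : ℝ) + ξ) ^ (m + 1))) : ℝ) * I)‖ ≤
      4 * Real.pi * 4 ^ (m + 1) := by
  have hP0 : (0:ℝ) < P := by exact_mod_cast hP
  have hpi := Real.pi_pos
  -- reindex
  have e1 : ∑ x ∈ Ico P (3 * P), e (α * ((x : ℝ) + ξ) ^ (m + 2)) * ((2 * Real.pi * (α * ((m + 2) * ((x : ℝ) + ξ) ^ (m + 1))) : ℝ) * I) =
      ((2 * Real.pi * (α * (m + 2)) : ℝ) * I) * ∑ i ∈ range (2 * P), ((((P + i : ℕ) : ℝ) + ξ) ^ (m + 1) : ℝ) * e (α * (((P + i : ℕ) : ℝ) + ξ) ^ (m + 2)) := by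
    rw [sum_Ico_eq_sum_range, mul_sum]
    have : 3 * P - P = 2 * P := by omega
    rw [this]
    apply sum_congr rfl
    intro i _
    push_cast
    ring
  rw [e1, norm_mul]
  set φ : ℕ → ℝ := fun i => α * (((P + i : ℕ) : ℝ) + ξ) ^ (m + 2) with hφ
  have hx : ∀ i : ℕ, (0:ℝ) ≤ ((P + i : ℕ) : ℝ) + ξ := fun i => by positivity
  have hs : ∀ i : ℕ, (((P + (i + 1) : ℕ) : ℝ) + ξ) - (((P + i : ℕ) : ℝ) + ξ) = 1 := fun i => by push_cast; ring
  have hle : ∀ i : ℕ, ((P + i : ℕ) : ℝ) + ξ ≤ ((P + (i + 1) : ℕ) : ℝ) + ξ := fun i => by have := hs i; linarith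
  have hup : ∀ i : ℕ, φ (i + 1) - φ i ≤ α * ((m + 2) * (((P + (i + 1) : ℕ) : ℝ) + ξ) ^ (m + 1)) := by
    intro i
    have h3 := pow_sub_le (hx i) (hle i) (m + 1)
    rw [hs i, one_mul] at h3
    have h4 := mul_le_mul_of_nonneg_left h3 hα.le
    rw [hφ]
    push_cast at h4 ⊢
    calc _ = α * (((P:ℝ) + (i + 1) + ξ) ^ (m + 1 + 1) - ((P:ℝ) + i + ξ) ^ (m + 1 + 1)) := by ring
      _ ≤ _ := h4
      _ = _ := by ring
  have hdn : ∀ i : ℕ, α * ((m + 2) * (((P + i : ℕ) : ℝ) + ξ) ^ (m + 1)) ≤ φ (i + 1) - φ i := by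
    intro i
    have h3 := pow_sub_ge (hx i) (hle i) (m + 1)
    rw [hs i, one_mul] at h3
    have h4 := mul_le_mul_of_nonneg_left h3 hα.le
    rw [hφ]
    push_cast at h4 ⊢
    calc _ = α * (((m:ℝ) + 1 + 1) * ((P:ℝ) + i + ξ) ^ (m + 1)) := by ring
      _ ≤ _ := h4
      _ = _ := by ring
  have hlam : 0 < α * ((m + 2) * (P:ℝ) ^ (m + 1)) := by positivity
  have hK : ∀ n ≤ 2 * P, ‖∑ i ∈ range n, e (φ i)‖ ≤ 1 / (α * ((m + 2) * (P:ℝ) ^ (m + 1))) := by
    intro n hn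
    apply kl hlam n
    · intro i _
      refine le_trans ?_ (hdn i)
      apply mul_le_mul_of_nonneg_left _ hα.le
      apply mul_le_mul_of_nonneg_left _ (by positivity)
      apply pow_le_pow_left₀ hP0.le
      push_cast
      have : (0:ℝ) ≤ i := Nat.cast_nonneg i
      linarith
    · intro i hi
      refine (hup i).trans (le_trans ?_ hlow)
      apply mul_le_mul_of_nonneg_left _ hα.le
      apply mul_le_mul_of_nonneg_left _ (by positivity)
      apply pow_le_pow_left₀ (hx _)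
      have h5 : ((P + (i + 1) : ℕ) : ℝ) ≤ ((3 * P : ℕ) : ℝ) := by exact_mod_cast (by omega : P + (i + 1) ≤ 3 * P)
      have h6 : (1:ℝ) ≤ P := by exact_mod_cast hP
      push_cast at h5 ⊢
      linarith
    · intro i _
      refine (hup i).trans ?_
      exact hdn (i + 1)
  have h2 := abel (a := fun i => e (φ i)) (w := fun i => (((P + i : ℕ) : ℝ) + ξ) ^ (m + 1)) (fun n => pow_nonneg (hx n) _)
    (fun n => pow_le_pow_left₀ (hx n) (hle n) _) (2 * P) hK
  have h3 : ‖((2 * Real.pi * (α * (m + 2)) : ℝ) : ℂ) * I‖ = 2 * Real.pi * (α * (m + 2)) := by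
    rw [norm_mul, Complex.norm_I, mul_one, Complex.norm_of_nonneg (by positivity)]
  rw [h3]
  have h4 : (((P + 2 * P : ℕ) : ℝ) + ξ) ^ (m + 1) ≤ (4 * (P:ℝ)) ^ (m + 1) := by
    apply pow_le_pow_left₀ (hx _)
    have h6 : (1:ℝ) ≤ P := by exact_mod_cast hP
    push_cast
    linarith
  calc 2 * Real.pi * (α * (m + 2)) * ‖∑ i ∈ range (2 * P), ((((P + i : ℕ) : ℝ) + ξ) ^ (m + 1) : ℝ) * e (α * (((P + i : ℕ) : ℝ) + ξ) ^ (m + 2))‖
      ≤ 2 * Real.pi * (α * (m + 2)) * (2 * (((P + 2 * P : ℕ) : ℝ) + ξ) ^ (m + 1) * (1 / (α * ((m + 2) * (P:ℝ) ^ (m + 1))))) := by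
        apply mul_le_mul_of_nonneg_left _ (by positivity)
        exact h2
    _ ≤ 2 * Real.pi * (α * (m + 2)) * (2 * (4 * (P:ℝ)) ^ (m + 1) * (1 / (α * ((m + 2) * (P:ℝ) ^ (m + 1))))) := by
        gcongr
    _ = 4 * Real.pi * 4 ^ (m + 1) := by
        rw [mul_pow]
        field_simp
        ring

lemma S_low {m P : ℕ} (hP : 1 ≤ P) {α : ℝ} (hα : 0 < α) (hlow : α * ((m + 2) * (4 * (P:ℝ)) ^ (m + 1)) ≤ 1 / 2)
    {ξ : ℝ} (h0 : 0 ≤ ξ) (h1 : ξ ≤ 1) : ‖S (m + 2) P α ξ - M (m + 2) P α‖ ≤ 4 * Real.pi * 4 ^ (m + 1) := by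
  have hd : ∀ ζ : ℝ, HasDerivAt (fun ζ => S (m + 2) P α ζ)
      (∑ x ∈ Ico P (3 * P), e (α * ((x : ℝ) + ζ) ^ (m + 2)) * ((2 * Real.pi * (α * ((m + 2) * ((x : ℝ) + ζ) ^ (m + 1))) : ℝ) * I)) ζ := by
    intro ζ
    unfold S
    apply HasDerivAt.fun_sum
    intro x _
    have e1 : HasDerivAt (fun ζ : ℝ => ((x : ℝ) + ζ) ^ (m + 2)) ((m + 2) * ((x : ℝ) + ζ) ^ (m + 1)) ζ := by
      have := ((hasDerivAt_id ζ).const_add (x:ℝ)).fun_pow (m + 2)
      simpa using this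
    have e2 : HasDerivAt (fun ζ : ℝ => 2 * Real.pi * (α * ((x : ℝ) + ζ) ^ (m + 2)))
        (2 * Real.pi * (α * ((m + 2) * ((x : ℝ) + ζ) ^ (m + 1)))) ζ := (e1.const_mul α).const_mul (2 * Real.pi)
    have e3 := (e2.ofReal_comp.mul_const I).cexp
    exact e3
  have hM : S (m + 2) P α ξ - M (m + 2) P α = ∫ ζ in (0:ℝ)..1, (S (m + 2) P α ξ - S (m + 2) P α ζ) := by
    rw [intervalIntegral.integral_sub (by simp) ((S_cont2 _ _ α).intervalIntegrable _ _), int_S]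
    simp
  rw [hM]
  have h2 : ∀ ζ ∈ Set.uIoc (0:ℝ) 1, ‖S (m + 2) P α ξ - S (m + 2) P α ζ‖ ≤ 4 * Real.pi * 4 ^ (m + 1) := by
    intro ζ hζ
    rw [Set.uIoc_of_le zero_le_one] at hζ
    have h3 := Convex.norm_image_sub_le_of_norm_hasDerivWithin_le (s := Set.Icc (0:ℝ) 1) (C := 4 * Real.pi * 4 ^ (m + 1))
      (fun z hz => (hd z).hasDerivWithinAt) (fun z hz => dS_low hP hα hlow hz.1 hz.2) (convex_Icc 0 1)
      (x := ζ) (y := ξ) ⟨hζ.1.le, hζ.2⟩ ⟨h0, h1⟩
    refine h3.trans ?_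
    have h4 : ‖ξ - ζ‖ ≤ 1 := by
      rw [Real.norm_eq_abs, abs_le]
      constructor <;> linarith [hζ.1, hζ.2]
    have : 0 < 4 * Real.pi * 4 ^ (m + 1) := by have := Real.pi_pos; positivity
    nlinarith
  have h3 := intervalIntegral.norm_integral_le_of_norm_le_const h2
  simpa using h3

lemma S_neg (k P : ℕ) (α ξ : ℝ) : S k P (-α) ξ = (starRingEnd ℂ) (S k P α ξ) := by
  unfold S
  rw [map_sum]
  apply sum_congr rfl
  intro x _
  rw [← e_neg]
  congr 1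
  ring

lemma M_neg (k P : ℕ) (α : ℝ) : M k P (-α) = (starRingEnd ℂ) (M k P α) := by
  rw [← int_S, ← int_S]
  simp_rw [S_neg]
  rw [intervalIntegral, intervalIntegral, integral_conj, integral_conj, ← map_sub]

lemma DS_neg (k P : ℕ) (α : ℝ) : DS k P (-α) = DS k P α := by
  unfold DS
  simp_rw [S_neg, M_neg, ← map_sub, Complex.norm_conj]

/-- the constant -/
noncomputable def CD (m : ℕ) : ℝ := 2 + 2 * ((m + 2) * 4 ^ (m + 1)) + (4 * Real.pi * 4 ^ (m + 1)) ^ 2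

lemma CD_pos (m : ℕ) : 0 < CD m := by
  unfold CD
  positivity

/-- **the mean square of the deviation, all frequencies** -/
theorem DS_sup {m P : ℕ} (hP : 1 ≤ P) (α : ℝ) : DS (m + 2) P α ≤ CD m * (P * (1 + Real.log (2 * P))) := by
  have hP1 : (1:ℝ) ≤ P := by exact_mod_cast hP
  have hP0 : (0:ℝ) < P := by linarith
  have hlog : 0 ≤ Real.log (2 * P) := Real.log_nonneg (by linarith)
  have hL : 1 ≤ 1 + Real.log (2 * (P:ℝ)) := by linarith
  have hPL : (P:ℝ) ≤ P * (1 + Real.log (2 * P)) := le_mul_of_one_le_right hP0.le hL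
  have key : ∀ β : ℝ, 0 < β → DS (m + 2) P β ≤ CD m * (P * (1 + Real.log (2 * P))) := by
    intro β hβ
    rcases le_or_gt (β * ((m + 2) * (4 * (P:ℝ)) ^ (m + 1))) (1 / 2) with h | h
    · have h1 : DS (m + 2) P β ≤ ∫ ξ in (0 : ℝ)..1, (4 * Real.pi * 4 ^ (m + 1)) ^ 2 := by
        unfold DS
        apply intervalIntegral.integral_mono_on zero_le_one
        · exact (((S_cont2 _ _ β).sub continuous_const).norm.pow 2).intervalIntegrable _ _
        · exact intervalIntegrable_const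
        · intro ξ hξ
          exact pow_le_pow_left₀ (norm_nonneg _) (S_low hP hβ h hξ.1 hξ.2) 2
      have h2 : DS (m + 2) P β ≤ (4 * Real.pi * 4 ^ (m + 1)) ^ 2 := by simpa using h1
      refine h2.trans ?_
      have h3 : 0 ≤ 2 + 2 * (((m:ℝ) + 2) * 4 ^ (m + 1)) := by positivity
      have h4 : (4 * Real.pi * 4 ^ (m + 1)) ^ 2 ≤ CD m := by unfold CD; linarith
      calc (4 * Real.pi * 4 ^ (m + 1)) ^ 2 ≤ CD m := h4
        _ ≤ CD m * (P * (1 + Real.log (2 * P))) := le_mul_of_one_le_right (CD_pos m).le (by linarith)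
    · refine (DS_sq hP hβ.ne').trans ?_
      rw [abs_of_pos hβ]
      have h1 : (1 + Real.log (2 * P)) / (β * (P:ℝ) ^ m) ≤ 2 * ((m + 2) * 4 ^ (m + 1)) * (P * (1 + Real.log (2 * P))) := by
        rw [div_le_iff₀ (by positivity)]
        have h2 : 1 ≤ 2 * (β * ((m + 2) * (4 * (P:ℝ)) ^ (m + 1))) := by linarith
        calc 1 + Real.log (2 * P) ≤ (2 * (β * ((m + 2) * (4 * (P:ℝ)) ^ (m + 1)))) * (1 + Real.log (2 * P)) :=
              le_mul_of_one_le_left (by linarith) h2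
          _ = _ := by rw [mul_pow]; ring
      have h3 : 0 ≤ (4 * Real.pi * 4 ^ (m + 1)) ^ 2 * (P * (1 + Real.log (2 * P))) := by positivity
      unfold CD
      nlinarith
  rcases lt_trichotomy α 0 with h | h | h
  · rw [← DS_neg]
    exact key (-α) (by linarith)
  · rw [h]
    have h1 : DS (m + 2) P 0 = 0 := by
      unfold DS
      have e1 : ∀ ξ, S (m + 2) P 0 ξ = 2 * P := by
        intro ξ
        unfold S
        simp only [zero_mul, e_zero, sum_const, Nat.card_Ico, nsmul_eq_mul, mul_one]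
        have : 3 * P - P = 2 * P := by omega
        rw [this]; push_cast; rfl
      have e2 : M (m + 2) P 0 = 2 * P := by
        rw [← int_S]
        simp_rw [e1]
        simp
      simp_rw [e1, e2]
      simp
    rw [h1]
    have := CD_pos m
    positivity
  · exact key α h

end Pool.Agent.K7.H74.WD
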