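import Mathlib
import Pool.Agent.K7.H74.WS.SlD
import Pool.Agent.K7.H74.WD.Kus
import Pool.Agent.K7.H74.WD.Dbl

set_option autoImplicit false

/-! Waring's problem with shifts and a given set: one scale. -/

namespace Pool.Agent.K7.H74.WD
open Finset MeasureTheory Complex
open Pool.Agent.K7.H74.WS (e norm_e e_cont e_add e_sub e_neg e_zero e_sum S M DS S_cont S_cont2 S_le int_S M_cont M_le M_le'
  CK DS_sq W w W_cont W_nonneg W_le W_int w_eq w_nonneg w_zero w_half w_cont W_one We_int um um_mul um_norm tp tp_cont tp_bound tp_sq cube varsq int_unit DS_nonneg)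

/-! ### duality -/

theorem dualG {G : ℝ → ℂ} (hG : Continuous G) {B : ℝ} (hB : ∀ β, ‖G β‖ ≤ B) {η : ℝ} (hη : 0 < η) (Z : Finset ℕ) (c : ℝ)
    {l : ℝ} (hl : 0 < l) (hZ : ∀ n ∈ Z, l ≤ ‖∫ β : ℝ, (W β : ℂ) * G β * e (-(β / η * (η * ((n : ℝ) + c))))‖) :
    (Z.card : ℝ) ≤ (∫ β : ℝ, W β * ‖G β‖ ^ 2) / l ^ 2 := by
  set D : ℕ → ℂ := fun n => ∫ β : ℝ, (W β : ℂ) * G β * e (-(β / η * (η * ((n : ℝ) + c)))) with hD
  set u : ℕ → ℂ := fun n => um (D n) with hu
  have hu1 : ∀ n, ‖u n‖ ≤ 1 := fun n => um_norm _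
  have hB0 : 0 ≤ B := (norm_nonneg _).trans (hB 0)
  have hg : Integrable fun β : ℝ => (W β : ℂ) * G β := by
    refine (W_int.const_mul B).mono' ((continuous_ofReal.comp W_cont).mul hG).aestronglyMeasurable
      (Filter.Eventually.of_forall fun β => ?_)
    rw [norm_mul, Complex.norm_of_nonneg (W_nonneg _), mul_comm]
    exact mul_le_mul_of_nonneg_right (hB β) (W_nonneg _)
  have hge : ∀ x : ℝ, Integrable fun β : ℝ => (W β : ℂ) * G β * e (-(β / η * x)) := by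
    intro x
    have h2 : Continuous fun β : ℝ => e (-(β / η * x)) := e_cont.comp (by fun_prop)
    refine hg.mono (hg.aestronglyMeasurable.mul h2.aestronglyMeasurable) (Filter.Eventually.of_forall fun β => ?_)
    rw [norm_mul, norm_e, mul_one]
  have h1 : ((∑ n ∈ Z, ‖D n‖ : ℝ) : ℂ) = ∫ β : ℝ, (W β : ℂ) * G β * tp Z u 1 c β := by
    have e1 : ∀ β : ℝ, (W β : ℂ) * G β * tp Z u 1 c β = ∑ n ∈ Z, u n * ((W β : ℂ) * G β * e (-(β / η * (η * ((n : ℝ) + c))))) := by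
      intro β
      unfold tp
      rw [mul_sum]
      apply sum_congr rfl
      intro n _
      have e2 : β / η * (η * ((n : ℝ) + c)) = β / 1 * ((n : ℝ) + c) := by field_simp
      rw [e2]
      ring
    simp_rw [e1]
    rw [integral_finsetSum _ fun n _ => (hge _).const_mul _]
    push_cast
    apply sum_congr rfl
    intro n _
    rw [integral_const_mul, ← um_mul]
  have h2 : ∑ n ∈ Z, ‖D n‖ = ‖((∑ n ∈ Z, ‖D n‖ : ℝ) : ℂ)‖ := by
    rw [Complex.norm_of_nonneg (sum_nonneg fun _ _ => norm_nonneg _)]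
  have h3 : ‖((∑ n ∈ Z, ‖D n‖ : ℝ) : ℂ)‖ ≤ ∫ β : ℝ, ‖(W β : ℂ) * G β * tp Z u 1 c β‖ := by
    rw [h1]; exact norm_integral_le_integral_norm _
  have hW : Integrable fun β : ℝ => W β * ‖tp Z u 1 c β‖ ^ 2 := by
    refine (W_int.const_mul ((Z.card : ℝ) ^ 2)).mono' (W_cont.mul ((tp_cont Z u 1 c).norm.pow 2)).aestronglyMeasurable
      (Filter.Eventually.of_forall fun β => ?_)
    rw [Real.norm_of_nonneg (mul_nonneg (W_nonneg _) (sq_nonneg _)), mul_comm]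
    exact mul_le_mul_of_nonneg_right (pow_le_pow_left₀ (norm_nonneg _) (tp_bound Z hu1 1 c β) 2) (W_nonneg _)
  have hE : Integrable fun β : ℝ => W β * ‖G β‖ ^ 2 := by
    refine (W_int.const_mul (B ^ 2)).mono' (W_cont.mul (hG.norm.pow 2)).aestronglyMeasurable
      (Filter.Eventually.of_forall fun β => ?_)
    rw [Real.norm_of_nonneg (mul_nonneg (W_nonneg _) (sq_nonneg _)), mul_comm]
    exact mul_le_mul_of_nonneg_right (pow_le_pow_left₀ (norm_nonneg _) (hB β) 2) (W_nonneg _)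
  have h4 : ∫ β : ℝ, ‖(W β : ℂ) * G β * tp Z u 1 c β‖ ≤
      ∫ β : ℝ, (l⁻¹ / 2 * (W β * ‖G β‖ ^ 2) + l / 2 * (W β * ‖tp Z u 1 c β‖ ^ 2)) := by
    apply integral_mono_of_nonneg (Filter.Eventually.of_forall fun β => norm_nonneg _)
      ((hE.const_mul _).add (hW.const_mul _))
    refine Filter.Eventually.of_forall fun β => ?_
    simp only [Pi.add_apply]
    rw [norm_mul, norm_mul, Complex.norm_of_nonneg (W_nonneg _)]
    set a := ‖G β‖
    set b := ‖tp Z u 1 c β‖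
    have hW0 := W_nonneg β
    have h5 : a * b ≤ l⁻¹ / 2 * a ^ 2 + l / 2 * b ^ 2 := by
      have h6 : 0 ≤ (a - l * b) ^ 2 := sq_nonneg _
      have h7 : l * (a * b) ≤ l * (l⁻¹ / 2 * a ^ 2 + l / 2 * b ^ 2) := by
        have : l * (l⁻¹ / 2 * a ^ 2 + l / 2 * b ^ 2) = a ^ 2 / 2 + l ^ 2 / 2 * b ^ 2 := by
          field_simp
        rw [this]
        nlinarith
      exact le_of_mul_le_mul_left h7 hl
    have h8 := mul_le_mul_of_nonneg_left h5 hW0
    calc W β * a * b = W β * (a * b) := by ring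
      _ ≤ W β * (l⁻¹ / 2 * a ^ 2 + l / 2 * b ^ 2) := h8
      _ = _ := by ring
  rw [integral_add (hE.const_mul _) (hW.const_mul _), integral_const_mul, integral_const_mul] at h4
  have h5 := tp_sq Z hu1 one_pos le_rfl c
  have h6 : (Z.card : ℝ) * l ≤ ∑ n ∈ Z, ‖D n‖ := by
    have := card_nsmul_le_sum Z (fun n => ‖D n‖) l hZ
    rwa [nsmul_eq_mul] at this
  have h7 : l / 2 * ∫ β : ℝ, W β * ‖tp Z u 1 c β‖ ^ 2 ≤ l / 2 * Z.card := mul_le_mul_of_nonneg_left h5 (by positivity)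
  have h8 : (Z.card : ℝ) * l ≤ l⁻¹ / 2 * (∫ β : ℝ, W β * ‖G β‖ ^ 2) + l / 2 * Z.card := by linarith
  rw [le_div_iff₀ (by positivity)]
  have h9 : l * ((Z.card : ℝ) * l) ≤ l * (l⁻¹ / 2 * (∫ β : ℝ, W β * ‖G β‖ ^ 2) + l / 2 * Z.card) :=
    mul_le_mul_of_nonneg_left h8 hl.le
  have e3 : l * (l⁻¹ / 2 * (∫ β : ℝ, W β * ‖G β‖ ^ 2) + l / 2 * Z.card) =
      (∫ β : ℝ, W β * ‖G β‖ ^ 2) / 2 + l ^ 2 / 2 * Z.card := by
    field_simp
  rw [e3] at h9
  nlinarith

/-! ### from separated points to the measure -/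

theorem vol_bad {B : Set ℝ} (hB : MeasurableSet B) {η : ℝ} (hη : 0 < η) {N : ℕ} (hBN : B ⊆ Set.Ioc 0 (η * N)) {K : ℝ}
    (h : ∀ c ∈ Set.Ioc (0:ℝ) 1, ∀ Z : Finset ℕ, (∀ n ∈ Z, η * ((n:ℝ) + c) ∈ B) → (Z.card : ℝ) ≤ K) :
    volume B ≤ ENNReal.ofReal (η * K) := by
  classical
  set B' : Set ℝ := (fun u => η * u) ⁻¹' B with hB'
  have hB'm : MeasurableSet B' := (by fun_prop : Measurable fun u : ℝ => η * u) hB
  have h1 : volume B' = ENNReal.ofReal |η⁻¹| * volume B := Real.volume_preimage_mul_left hη.ne' B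
  rw [abs_of_pos (inv_pos.2 hη)] at h1
  have h2 : volume B = ENNReal.ofReal η * volume B' := by
    rw [h1, ← mul_assoc, ← ENNReal.ofReal_mul hη.le, mul_inv_cancel₀ hη.ne', ENNReal.ofReal_one, one_mul]
  have hind : Measurable (B'.indicator (fun _ => (1:ENNReal))) := measurable_one.indicator hB'm
  have h3 : volume B' = ∫⁻ v in Set.Ioc ((0:ℕ):ℝ) ((0 + N : ℕ) : ℝ), B'.indicator (fun _ => (1:ENNReal)) v := by
    rw [lintegral_indicator hB'm, setLIntegral_const, one_mul, Measure.restrict_apply hB'm]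
    congr 1
    apply (Set.inter_eq_left.2 _).symm
    intro u hu
    have h4 := hBN hu
    simp only [Nat.cast_zero, zero_add]
    exact ⟨by have := h4.1; exact (mul_pos_iff_of_pos_left hη).1 this, by have := h4.2; exact le_of_mul_le_mul_left this hη⟩
  rw [h2, ENNReal.ofReal_mul hη.le]
  gcongr
  rw [h3, ← tileL _ hind 0 N, ← lintegral_finsetSum]
  · calc ∫⁻ c in Set.Ioc (0:ℝ) 1, ∑ n ∈ Ico 0 (0 + N), B'.indicator (fun _ => (1:ENNReal)) ((n:ℝ) + c)
        ≤ ∫⁻ _c in Set.Ioc (0:ℝ) 1, ENNReal.ofReal K := by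
          apply setLIntegral_mono_ae' measurableSet_Ioc
          refine Filter.Eventually.of_forall fun c hc => ?_
          have e1 : ∑ n ∈ Ico 0 (0 + N), B'.indicator (fun _ => (1:ENNReal)) ((n:ℝ) + c) =
              (((Ico 0 (0 + N)).filter fun n : ℕ => (n:ℝ) + c ∈ B').card : ENNReal) := by
            rw [card_filter]
            push_cast
            apply sum_congr rfl
            intro n _
            by_cases hn : (n:ℝ) + c ∈ B' <;> simp [hn]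
          rw [e1]
          have h4 := h c hc ((Ico 0 (0 + N)).filter fun n : ℕ => (n:ℝ) + c ∈ B') (fun n hn => (mem_filter.1 hn).2)
          rw [← ENNReal.ofReal_natCast]
          exact ENNReal.ofReal_le_ofReal h4
      _ = ENNReal.ofReal K := by
          rw [setLIntegral_const, Real.volume_Ioc]
          simp
  · intro n _
    exact hind.comp (by fun_prop)

/-! ### the objects -/

/-- the trigonometric polynomial of the set -/
noncomputable def FA (A : Finset ℕ) (α : ℝ) : ℂ := ∑ a ∈ A, e (α * a)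

/-- the box of the other variables -/
def bx (t P' : ℕ) : Finset (Fin t → ℕ) := Fintype.piFinset fun _ => Ico P' (3 * P')

lemma bx_card (t P' : ℕ) : ((bx t P').card : ℝ) = (2 * (P':ℝ)) ^ t := by
  unfold bx
  rw [Fintype.card_piFinset, prod_const, card_univ, Fintype.card_fin, Nat.card_Ico]
  have : 3 * P' - P' = 2 * P' := by omega
  rw [this]
  push_cast
  ring

/-- the product of the other variables -/
noncomputable def PS (k P' : ℕ) {t : ℕ} (α : ℝ) (ξ : Fin (t + 1) → ℝ) : ℂ := ∏ i : Fin t, S k P' α (ξ i.succ)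

/-- the kernel -/
noncomputable def GG (k P P' : ℕ) (A : Finset ℕ) {t : ℕ} (η : ℝ) (ξ : Fin (t + 1) → ℝ) (β : ℝ) : ℂ :=
  FA A (β / η) * PS k P' (β / η) ξ * (S k P (β / η) (ξ 0) - M k P (β / η))

lemma FA_cont (A : Finset ℕ) : Continuous (FA A) := by
  unfold FA
  exact continuous_finsetSum _ fun a _ => e_cont.comp (by fun_prop)

lemma FA_le (A : Finset ℕ) (α : ℝ) : ‖FA A α‖ ≤ A.card := by
  unfold FA
  refine (norm_sum_le _ _).trans ?_
  rw [sum_congr rfl (fun x _ => norm_e _), sum_const, nsmul_eq_mul, mul_one]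

lemma PS_cont (k P' t : ℕ) : Continuous fun p : ℝ × (Fin (t + 1) → ℝ) => PS k P' p.1 p.2 := by
  unfold PS
  exact continuous_finsetProd _ fun i _ => (S_cont k P').comp (continuous_fst.prodMk ((continuous_apply i.succ).comp continuous_snd))

lemma PS_le (k P' : ℕ) {t : ℕ} (α : ℝ) (ξ : Fin (t + 1) → ℝ) : ‖PS k P' α ξ‖ ≤ (2 * P') ^ t := by
  unfold PS
  rw [norm_prod]
  have h1 : ∏ i : Fin t, ‖S k P' α (ξ i.succ)‖ ≤ ∏ _i : Fin t, (2 * (P':ℝ)) :=
    prod_le_prod (fun i _ => norm_nonneg _) fun i _ => S_le k P' α _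
  rwa [prod_const, card_univ, Fintype.card_fin] at h1

lemma GG_cont2 (k P P' : ℕ) (A : Finset ℕ) (t : ℕ) (η : ℝ) :
    Continuous fun p : (Fin (t + 1) → ℝ) × ℝ => GG k P P' A η p.1 p.2 := by
  unfold GG
  have h1 : Continuous fun p : (Fin (t + 1) → ℝ) × ℝ => p.2 / η := continuous_snd.div_const η
  exact (((FA_cont A).comp h1).mul ((PS_cont k P' t).comp (h1.prodMk continuous_fst))).mul
    (((S_cont k P).comp (h1.prodMk ((continuous_apply 0).comp continuous_fst))).sub ((M_cont k P).comp h1))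

lemma GG_cont (k P P' : ℕ) (A : Finset ℕ) {t : ℕ} (η : ℝ) (ξ : Fin (t + 1) → ℝ) : Continuous (GG k P P' A η ξ) := by
  have h1 := GG_cont2 k P P' A t η
  have h2 : Continuous fun β : ℝ => ((ξ, β) : (Fin (t + 1) → ℝ) × ℝ) := continuous_const.prodMk continuous_id
  have h3 := h1.comp h2
  refine h3.congr fun β => ?_
  simp only [Function.comp_apply]

lemma GG_le (k P P' : ℕ) (A : Finset ℕ) {t : ℕ} (η : ℝ) (ξ : Fin (t + 1) → ℝ) (β : ℝ) :
    ‖GG k P P' A η ξ β‖ ≤ A.card * (2 * P') ^ t * (4 * P) := by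
  unfold GG
  rw [norm_mul, norm_mul]
  have h1 : ‖S k P (β / η) (ξ 0) - M k P (β / η)‖ ≤ 4 * P := by
    have h2 := norm_sub_le (S k P (β / η) (ξ 0)) (M k P (β / η))
    have h3 := S_le k P (β / η) (ξ 0)
    have h4 := M_le' k P (β / η)
    linarith
  exact mul_le_mul (mul_le_mul (FA_le _ _) (PS_le _ _ _ _) (norm_nonneg _) (Nat.cast_nonneg _)) h1 (norm_nonneg _)
    (by positivity)

/-- the mean square -/
noncomputable def QQ (k P P' : ℕ) (A : Finset ℕ) {t : ℕ} (η : ℝ) (ξ : Fin (t + 1) → ℝ) : ℝ :=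
  ∫ β : ℝ, W β * ‖GG k P P' A η ξ β‖ ^ 2

/-- the deviation -/
noncomputable def DD (k P P' : ℕ) (A : Finset ℕ) {t : ℕ} (η : ℝ) (ξ : Fin (t + 1) → ℝ) (τ : ℝ) : ℂ :=
  ∫ β : ℝ, (W β : ℂ) * GG k P P' A η ξ β * e (-(β / η * τ))

/-! ### the deviation in physical space -/

lemma one_var (k P : ℕ) (η y ζ : ℝ) :
    (((∑ x ∈ Ico P (3 * P), w ((((x:ℝ) + ζ) ^ k - y) / η)) - ∫ v in (P:ℝ)..((3 * P : ℕ) : ℝ), w ((v ^ k - y) / η) : ℝ) : ℂ) =
      ∫ β : ℝ, (W β : ℂ) * ((S k P (β / η) ζ - M k P (β / η)) * e (-(β / η * y))) := by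
  have hle : (P:ℝ) ≤ ((3 * P : ℕ) : ℝ) := by exact_mod_cast (by omega : P ≤ 3 * P)
  have hi1 : Integrable fun β : ℝ => (W β : ℂ) * (S k P (β / η) ζ * e (-(β / η * y))) := by
    refine (W_int.const_mul (2 * (P:ℝ))).mono' ?_ (Filter.Eventually.of_forall fun β => ?_)
    · have h1 : Continuous fun β : ℝ => (W β : ℂ) := continuous_ofReal.comp W_cont
      have h2 : Continuous fun β : ℝ => e (-(β / η * y)) := e_cont.comp (by fun_prop)
      have h3 : Continuous fun β : ℝ => S k P (β / η) ζ := (S_cont k P).comp ((continuous_id.div_const η).prodMk continuous_const)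
      exact (h1.mul (h3.mul h2)).aestronglyMeasurable
    · rw [norm_mul, norm_mul, norm_e, mul_one, Complex.norm_of_nonneg (W_nonneg _), mul_comm]
      exact mul_le_mul_of_nonneg_right (S_le k P _ _) (W_nonneg _)
  have hi2 : Integrable fun β : ℝ => (W β : ℂ) * (M k P (β / η) * e (-(β / η * y))) := by
    refine (W_int.const_mul (2 * (P:ℝ))).mono' ?_ (Filter.Eventually.of_forall fun β => ?_)
    · have h1 : Continuous fun β : ℝ => (W β : ℂ) := continuous_ofReal.comp W_cont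
      have h2 : Continuous fun β : ℝ => e (-(β / η * y)) := e_cont.comp (by fun_prop)
      have h3 : Continuous fun β : ℝ => M k P (β / η) := (M_cont k P).comp (continuous_id.div_const η)
      exact (h1.mul (h3.mul h2)).aestronglyMeasurable
    · rw [norm_mul, norm_mul, norm_e, mul_one, Complex.norm_of_nonneg (W_nonneg _), mul_comm]
      exact mul_le_mul_of_nonneg_right (M_le' k P _) (W_nonneg _)
  have e1 : ∀ v β : ℝ, e (β * ((v ^ k - y) / η)) = e (β / η * v ^ k) * e (-(β / η * y)) := by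
    intro v β
    rw [← e_add]
    congr 1
    ring
  have h1 : ((∑ x ∈ Ico P (3 * P), w ((((x:ℝ) + ζ) ^ k - y) / η) : ℝ) : ℂ) =
      ∫ β : ℝ, (W β : ℂ) * (S k P (β / η) ζ * e (-(β / η * y))) := by
    push_cast
    rw [sum_congr rfl fun (x : ℕ) _ => w_eq ((((x:ℝ) + ζ) ^ k - y) / η), ← integral_finsetSum _ fun x _ => We_int _]
    refine integral_congr_ae (Filter.Eventually.of_forall fun β => ?_)
    simp only
    rw [← mul_sum]
    congr 1
    unfold S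
    rw [sum_mul]
    exact sum_congr rfl fun x _ => e1 _ _
  have h2 : ((∫ v in (P:ℝ)..((3 * P : ℕ) : ℝ), w ((v ^ k - y) / η) : ℝ) : ℂ) =
      ∫ β : ℝ, (W β : ℂ) * (M k P (β / η) * e (-(β / η * y))) := by
    rw [← intervalIntegral.integral_ofReal]
    simp_rw [w_eq]
    rw [intervalIntegral.integral_of_le hle]
    have hint : Integrable (fun p : ℝ × ℝ => (W p.2 : ℂ) * e (p.2 * ((p.1 ^ k - y) / η)))
        ((volume.restrict (Set.Ioc (P:ℝ) ((3 * P : ℕ) : ℝ))).prod volume) := by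
      have h2 : Integrable (fun p : ℝ × ℝ => (1 : ℝ) * W p.2) ((volume.restrict (Set.Ioc (P:ℝ) ((3 * P : ℕ) : ℝ))).prod volume) :=
        (integrable_const (1 : ℝ)).mul_prod W_int
      refine h2.mono' ?_ (Filter.Eventually.of_forall fun p => ?_)
      · have hW : Continuous fun p : ℝ × ℝ => (W p.2 : ℂ) := continuous_ofReal.comp (W_cont.comp continuous_snd)
        have h4 : Continuous fun p : ℝ × ℝ => e (p.2 * ((p.1 ^ k - y) / η)) := e_cont.comp (by fun_prop)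
        exact (hW.mul h4).aestronglyMeasurable
      · rw [norm_mul, norm_e, mul_one, Complex.norm_of_nonneg (W_nonneg _), one_mul]
    rw [integral_integral_swap (f := fun (v : ℝ) (β : ℝ) => (W β : ℂ) * e (β * ((v ^ k - y) / η))) hint]
    refine integral_congr_ae (Filter.Eventually.of_forall fun β => ?_)
    simp only
    rw [integral_const_mul]
    congr 1
    simp_rw [e1]
    rw [integral_mul_const]
    congr 1
    unfold M
    rw [intervalIntegral.integral_of_le hle]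
  rw [Complex.ofReal_sub, h1, h2, ← integral_sub hi1 hi2]
  refine integral_congr_ae (Filter.Eventually.of_forall fun β => ?_)
  simp only
  ring

/-- the shifted sum of the other variables -/
noncomputable def sq (k : ℕ) {t : ℕ} (ξ : Fin (t + 1) → ℝ) (x : Fin t → ℕ) : ℝ := ∑ i, ((x i : ℝ) + ξ i.succ) ^ k

lemma DD_eq (k P P' : ℕ) (A : Finset ℕ) {t : ℕ} (η : ℝ) (ξ : Fin (t + 1) → ℝ) (τ : ℝ) :
    DD k P P' A η ξ τ = ((∑ a ∈ A, ∑ x ∈ bx t P',
      ((∑ z ∈ Ico P (3 * P), w ((((z:ℝ) + ξ 0) ^ k - (τ - a - sq k ξ x)) / η)) -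
        ∫ v in (P:ℝ)..((3 * P : ℕ) : ℝ), w ((v ^ k - (τ - a - sq k ξ x)) / η)) : ℝ) : ℂ) := by
  rw [Complex.ofReal_sum]
  simp_rw [Complex.ofReal_sum, one_var]
  have hi : ∀ y : ℝ, Integrable fun β : ℝ => (W β : ℂ) * ((S k P (β / η) (ξ 0) - M k P (β / η)) * e (-(β / η * y))) := by
    intro y
    refine (W_int.const_mul (4 * (P:ℝ))).mono' ?_ (Filter.Eventually.of_forall fun β => ?_)
    · have h1 : Continuous fun β : ℝ => (W β : ℂ) := continuous_ofReal.comp W_cont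
      have h2 : Continuous fun β : ℝ => e (-(β / η * y)) := e_cont.comp (by fun_prop)
      have h3 : Continuous fun β : ℝ => M k P (β / η) := (M_cont k P).comp (continuous_id.div_const η)
      have h4 : Continuous fun β : ℝ => S k P (β / η) (ξ 0) := (S_cont k P).comp ((continuous_id.div_const η).prodMk continuous_const)
      exact (h1.mul ((h4.sub h3).mul h2)).aestronglyMeasurable
    · rw [norm_mul, norm_mul, norm_e, mul_one, Complex.norm_of_nonneg (W_nonneg _), mul_comm]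
      apply mul_le_mul_of_nonneg_right _ (W_nonneg _)
      have h2 := norm_sub_le (S k P (β / η) (ξ 0)) (M k P (β / η))
      have h3 := S_le k P (β / η) (ξ 0)
      have h4 := M_le' k P (β / η)
      linarith
  have h1 : ∀ a ∈ A, ∑ x ∈ bx t P', ∫ β : ℝ, (W β : ℂ) * ((S k P (β / η) (ξ 0) - M k P (β / η)) * e (-(β / η * (τ - a - sq k ξ x)))) =
      ∫ β : ℝ, ∑ x ∈ bx t P', (W β : ℂ) * ((S k P (β / η) (ξ 0) - M k P (β / η)) * e (-(β / η * (τ - a - sq k ξ x)))) :=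
    fun a _ => (integral_finsetSum _ fun x _ => hi _).symm
  rw [sum_congr rfl h1, ← integral_finsetSum _ fun a _ => integrable_finsetSum _ fun x _ => hi _]
  unfold DD
  refine integral_congr_ae (Filter.Eventually.of_forall fun β => ?_)
  simp only
  unfold GG FA
  have h2 : PS k P' (β / η) ξ = ∑ x ∈ bx t P', e (β / η * sq k ξ x) := by
    unfold PS S bx sq
    rw [prod_univ_sum]
    apply sum_congr rfl
    intro x _
    rw [mul_sum, e_sum]
  rw [h2, sum_mul, sum_mul, mul_sum, sum_mul]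
  apply sum_congr rfl
  intro a _
  rw [mul_sum, sum_mul, mul_sum, sum_mul]
  apply sum_congr rfl
  intro x _
  have h3 : e (-(β / η * (τ - a - sq k ξ x))) = e (β / η * a) * e (β / η * sq k ξ x) * e (-(β / η * τ)) := by
    rw [← e_add, ← e_add]
    congr 1
    ring
  rw [h3]
  ring

/-- the integral over a window is not small -/
lemma win {m P : ℕ} (hP : 1 ≤ P) {η y : ℝ} (hη : 0 < η) (hη1 : η ≤ 1) (h1 : (P:ℝ) ^ (m + 2) + 1 ≤ y)
    (h2 : y ≤ (3 * (P:ℝ)) ^ (m + 2) - 1) :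
    η / (2 * (m + 2) * (3 * (P:ℝ)) ^ (m + 1)) ≤ ∫ v in (P:ℝ)..((3 * P : ℕ) : ℝ), w ((v ^ (m + 2) - y) / η) := by
  have hP0 : (0:ℝ) < P := by exact_mod_cast hP
  have hcast : ((3 * P : ℕ) : ℝ) = 3 * P := by push_cast; ring
  rw [hcast]
  set v1 : ℝ := (y - η / 2) ^ (((m + 2 : ℕ) : ℝ)⁻¹) with hv1
  set v2 : ℝ := (y + η / 2) ^ (((m + 2 : ℕ) : ℝ)⁻¹) with hv2
  have hPk : 0 < (P:ℝ) ^ (m + 2) := by positivity
  have p1 : v1 ^ (m + 2) = y - η / 2 := Real.rpow_inv_natCast_pow (by linarith) (by omega)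
  have p2 : v2 ^ (m + 2) = y + η / 2 := Real.rpow_inv_natCast_pow (by linarith) (by omega)
  have n1 : 0 ≤ v1 := Real.rpow_nonneg (by linarith) _
  have n2 : 0 ≤ v2 := Real.rpow_nonneg (by linarith) _
  have q1 : (P:ℝ) ≤ v1 := by
    apply le_of_pow_le_pow_left₀ (n := m + 2) (by omega) n1
    rw [p1]; linarith
  have q2 : v2 ≤ 3 * P := by
    apply le_of_pow_le_pow_left₀ (n := m + 2) (by omega) (by positivity)
    rw [p2]; linarith
  have q3 : v1 ≤ v2 := by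
    apply le_of_pow_le_pow_left₀ (n := m + 2) (by omega) n2
    rw [p1, p2]; linarith
  have hc : Continuous fun v : ℝ => w ((v ^ (m + 2) - y) / η) := w_cont.comp (by fun_prop)
  have hlen : η / ((m + 2) * (3 * (P:ℝ)) ^ (m + 1)) ≤ v2 - v1 := by
    rw [div_le_iff₀ (by positivity)]
    have h3 := pow_sub_le n1 q3 (m + 1)
    have e1 : v2 ^ (m + 1 + 1) - v1 ^ (m + 1 + 1) = η := by
      rw [show m + 1 + 1 = m + 2 from rfl, p1, p2]; ring
    rw [e1] at h3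
    have h4 : v2 ^ (m + 1) ≤ (3 * (P:ℝ)) ^ (m + 1) := pow_le_pow_left₀ n2 q2 _
    have h5 := mul_le_mul_of_nonneg_left h4 (by linarith : 0 ≤ v2 - v1)
    push_cast at h3
    have h6 : (0:ℝ) ≤ m + 1 + 1 := by positivity
    have h7 := mul_le_mul_of_nonneg_left h5 h6
    calc η ≤ (m + 1 + 1) * ((v2 - v1) * v2 ^ (m + 1)) := h3
      _ ≤ (m + 1 + 1) * ((v2 - v1) * (3 * (P:ℝ)) ^ (m + 1)) := h7
      _ = _ := by ring
  have h3 : ∫ v in v1..v2, (1 / 2 : ℝ) ≤ ∫ v in v1..v2, w ((v ^ (m + 2) - y) / η) := by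
    apply intervalIntegral.integral_mono_on q3 (by simp) (hc.intervalIntegrable _ _)
    intro v hv
    apply w_half
    have h4 : v1 ^ (m + 2) ≤ v ^ (m + 2) := pow_le_pow_left₀ n1 hv.1 _
    have h5 : v ^ (m + 2) ≤ v2 ^ (m + 2) := pow_le_pow_left₀ (n1.trans hv.1) hv.2 _
    rw [p1] at h4
    rw [p2] at h5
    rw [abs_div, abs_of_pos hη, div_le_iff₀ hη, abs_le]
    constructor <;> linarith
  have h4 : ∫ v in v1..v2, w ((v ^ (m + 2) - y) / η) ≤ ∫ v in (P:ℝ)..(3 * (P:ℝ)), w ((v ^ (m + 2) - y) / η) :=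
    intervalIntegral.integral_mono_interval q1 q3 q2 (Filter.Eventually.of_forall fun v => w_nonneg _) (hc.intervalIntegrable _ _)
  rw [intervalIntegral.integral_const, smul_eq_mul] at h3
  calc η / (2 * (m + 2) * (3 * (P:ℝ)) ^ (m + 1)) = η / ((m + 2) * (3 * (P:ℝ)) ^ (m + 1)) * (1 / 2) := by
        field_simp
    _ ≤ (v2 - v1) * (1 / 2) := mul_le_mul_of_nonneg_right hlen (by norm_num)
    _ ≤ _ := h3.trans h4

/-- the exceptions at one scale -/
def EB (k P : ℕ) (A : Finset ℕ) {t : ℕ} (η : ℝ) (ξ : Fin (t + 1) → ℝ) : Set ℝ :=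
  {τ | (5 / 4 * (P:ℝ) ^ k + 1 ≤ τ ∧ τ ≤ (3 * (P:ℝ)) ^ k - 1) ∧ ∀ a ∈ A, ∀ x : Fin (t + 1) → ℕ,
    η ≤ |(a:ℝ) + ∑ i, ((x i : ℝ) + ξ i) ^ k - τ|}

lemma EB_meas (k P : ℕ) (A : Finset ℕ) {t : ℕ} (η : ℝ) (ξ : Fin (t + 1) → ℝ) : MeasurableSet (EB k P A η ξ) := by
  have e1 : EB k P A η ξ = Set.Icc (5 / 4 * (P:ℝ) ^ k + 1) ((3 * (P:ℝ)) ^ k - 1) ∩ ⋂ a ∈ A, ⋂ x : Fin (t + 1) → ℕ,
      {τ | η ≤ |(a:ℝ) + ∑ i, ((x i : ℝ) + ξ i) ^ k - τ|} := by
    ext τ
    simp [EB]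
  rw [e1]
  refine measurableSet_Icc.inter (Finset.measurableSet_biInter A fun a _ => MeasurableSet.iInter fun x => ?_)
  exact measurableSet_le measurable_const (by fun_prop)

/-- the deviation is large at the exceptions -/
lemma DD_large {m P P' : ℕ} (hP : 1 ≤ P) {A : Finset ℕ} (hA : ∀ a ∈ A, (a:ℝ) ≤ (P:ℝ) ^ (m + 2) / 8) {t : ℕ}
    (hP' : t * (3 * (P':ℝ)) ^ (m + 2) ≤ (P:ℝ) ^ (m + 2) / 8) {η : ℝ} (hη : 0 < η) (hη1 : η ≤ 1) {ξ : Fin (t + 1) → ℝ}
    (hξ : ∀ i, ξ i ∈ Set.Ioc (0:ℝ) 1) {τ : ℝ} (hτ : τ ∈ EB (m + 2) P A η ξ) :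
    A.card * (2 * (P':ℝ)) ^ t * (η / (2 * (m + 2) * (3 * (P:ℝ)) ^ (m + 1))) ≤ ‖DD (m + 2) P P' A η ξ τ‖ := by
  obtain ⟨⟨ht1, ht2⟩, ht3⟩ := hτ
  have hP0 : (0:ℝ) < P := by exact_mod_cast hP
  rw [DD_eq]
  set κ : ℝ := η / (2 * (m + 2) * (3 * (P:ℝ)) ^ (m + 1)) with hκ
  have key : ∀ a ∈ A, ∀ x ∈ bx t P', (∑ z ∈ Ico P (3 * P), w ((((z:ℝ) + ξ 0) ^ (m + 2) - (τ - a - sq (m + 2) ξ x)) / η)) -
        ∫ v in (P:ℝ)..((3 * P : ℕ) : ℝ), w ((v ^ (m + 2) - (τ - a - sq (m + 2) ξ x)) / η) ≤ -κ := by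
    intro a ha x hx
    have h1 : ∑ z ∈ Ico P (3 * P), w ((((z:ℝ) + ξ 0) ^ (m + 2) - (τ - a - sq (m + 2) ξ x)) / η) = 0 := by
      apply sum_eq_zero
      intro z _
      apply w_zero
      rw [abs_div, abs_of_pos hη, le_div_iff₀ hη, one_mul]
      have h2 := ht3 a ha (Fin.cons z x)
      rw [Fin.sum_univ_succ] at h2
      simp only [Fin.cons_zero, Fin.cons_succ] at h2
      have e1 : (((z:ℝ) + ξ 0) ^ (m + 2) - (τ - a - sq (m + 2) ξ x)) =
          (a:ℝ) + (((z:ℝ) + ξ 0) ^ (m + 2) + ∑ i : Fin t, ((x i : ℝ) + ξ i.succ) ^ (m + 2)) - τ := by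
        unfold sq; ring
      rwa [e1]
    have h2 : 0 ≤ sq (m + 2) ξ x := sum_nonneg fun i _ => pow_nonneg (add_nonneg (Nat.cast_nonneg _) (hξ i.succ).1.le) _
    have h3 : sq (m + 2) ξ x ≤ (P:ℝ) ^ (m + 2) / 8 := by
      refine le_trans ?_ hP'
      unfold sq
      have h4 : ∀ i ∈ (univ : Finset (Fin t)), ((x i : ℝ) + ξ i.succ) ^ (m + 2) ≤ (3 * (P':ℝ)) ^ (m + 2) := by
        intro i _
        apply pow_le_pow_left₀ (add_nonneg (Nat.cast_nonneg _) (hξ i.succ).1.le)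
        unfold bx at hx
        rw [Fintype.mem_piFinset] at hx
        have h5 := (mem_Ico.1 (hx i)).2
        have h6 : (x i : ℝ) + 1 ≤ 3 * P' := by exact_mod_cast h5
        have h7 := (hξ i.succ).2
        linarith
      have h5 := sum_le_card_nsmul _ _ _ h4
      rwa [card_univ, Fintype.card_fin, nsmul_eq_mul] at h5
    have h4 := hA a ha
    have h5 : (0:ℝ) ≤ a := Nat.cast_nonneg a
    have h6 := win (m := m) hP hη hη1 (y := τ - a - sq (m + 2) ξ x) (by linarith) (by linarith)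
    rw [h1, zero_sub]
    linarith
  have h1 : (∑ a ∈ A, ∑ x ∈ bx t P',
      ((∑ z ∈ Ico P (3 * P), w ((((z:ℝ) + ξ 0) ^ (m + 2) - (τ - a - sq (m + 2) ξ x)) / η)) -
        ∫ v in (P:ℝ)..((3 * P : ℕ) : ℝ), w ((v ^ (m + 2) - (τ - a - sq (m + 2) ξ x)) / η))) ≤
      -(A.card * (2 * (P':ℝ)) ^ t * κ) := by
    have h2 : ∀ a ∈ A, ∑ x ∈ bx t P',
      ((∑ z ∈ Ico P (3 * P), w ((((z:ℝ) + ξ 0) ^ (m + 2) - (τ - a - sq (m + 2) ξ x)) / η)) -
        ∫ v in (P:ℝ)..((3 * P : ℕ) : ℝ), w ((v ^ (m + 2) - (τ - a - sq (m + 2) ξ x)) / η)) ≤ -((2 * (P':ℝ)) ^ t * κ) := by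
      intro a ha
      have h3 := sum_le_card_nsmul _ _ _ (key a ha)
      rw [nsmul_eq_mul, bx_card] at h3
      linarith
    have h3 := sum_le_card_nsmul _ _ _ h2
    rw [nsmul_eq_mul] at h3
    linarith
  rw [Complex.norm_real, Real.norm_eq_abs]
  have h2 := neg_abs_le (∑ a ∈ A, ∑ x ∈ bx t P',
      ((∑ z ∈ Ico P (3 * P), w ((((z:ℝ) + ξ 0) ^ (m + 2) - (τ - a - sq (m + 2) ξ x)) / η)) -
        ∫ v in (P:ℝ)..((3 * P : ℕ) : ℝ), w ((v ^ (m + 2) - (τ - a - sq (m + 2) ξ x)) / η)))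
  linarith

/-- **the measure of the exceptions at one scale** -/
theorem EB_vol {m P P' : ℕ} (hP : 1 ≤ P) (hP1 : 1 ≤ P') {A : Finset ℕ} (hA0 : A.Nonempty) (hA : ∀ a ∈ A, (a:ℝ) ≤ (P:ℝ) ^ (m + 2) / 8) {t : ℕ}
    (hP' : t * (3 * (P':ℝ)) ^ (m + 2) ≤ (P:ℝ) ^ (m + 2) / 8) {η : ℝ} (hη : 0 < η) (hη1 : η ≤ 1) {ξ : Fin (t + 1) → ℝ}
    (hξ : ∀ i, ξ i ∈ Set.Ioc (0:ℝ) 1) :
    volume (EB (m + 2) P A η ξ) ≤ ENNReal.ofReal (η * (QQ (m + 2) P P' A η ξ /
      (A.card * (2 * (P':ℝ)) ^ t * (η / (2 * (m + 2) * (3 * (P:ℝ)) ^ (m + 1)))) ^ 2)) := by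
  have hP0 : (0:ℝ) < P := by exact_mod_cast hP
  have hP10 : (0:ℝ) < P' := by exact_mod_cast hP1
  have hAc : (0:ℝ) < A.card := by exact_mod_cast hA0.card_pos
  obtain ⟨N, hN⟩ := exists_nat_ge (((3 * (P:ℝ)) ^ (m + 2)) / η)
  refine vol_bad (EB_meas _ _ _ _ _) hη (N := N) ?_ ?_
  · rintro τ ⟨⟨h1, h2⟩, _⟩
    have h3 : 0 < 5 / 4 * (P:ℝ) ^ (m + 2) := by positivity
    rw [div_le_iff₀ hη] at hN
    exact ⟨by linarith, by linarith⟩
  · intro c hc Z hZ
    apply dualG (GG_cont (m + 2) P P' A η ξ) (GG_le (m + 2) P P' A η ξ) hη Z c (by positivity)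
    intro n hn
    exact DD_large hP hA hP' hη hη1 hξ (hZ n hn)

end Pool.Agent.K7.H74.WD
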