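import Mathlib
import Pool.Agent.K7.H74.WD.Bas

set_option autoImplicit false

/-! Waring's problem with shifts and a given set: the mean value of the mean square. -/

namespace Pool.Agent.K7.H74.WD
open Finset MeasureTheory Complex
open Pool.Agent.K7.H74.WS (e norm_e e_cont e_add e_sub e_neg e_zero e_sum S M DS S_cont S_cont2 S_le int_S M_cont M_le M_le'
  CK DS_sq W w W_cont W_nonneg W_le W_int w_eq w_nonneg w_zero w_half w_cont W_one We_int um um_mul um_norm tp tp_cont tp_bound tp_sq cube varsq int_unit DS_nonneg)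

lemma GG_int2 (k P P' : ℕ) (A : Finset ℕ) (t : ℕ) (η : ℝ) :
    Integrable (fun q : (Fin (t + 1) → ℝ) × ℝ => W q.2 * ‖GG k P P' A η q.1 q.2‖ ^ 2) ((cube (t + 1)).prod volume) := by
  have h1 : Integrable (fun q : (Fin (t + 1) → ℝ) × ℝ => ((A.card * (2 * (P':ℝ)) ^ t * (4 * P)) ^ 2) * W q.2) ((cube (t + 1)).prod volume) :=
    (integrable_const ((A.card * (2 * (P':ℝ)) ^ t * (4 * P)) ^ 2)).mul_prod W_int
  refine h1.mono' (f := fun q : (Fin (t + 1) → ℝ) × ℝ => W q.2 * ‖GG k P P' A η q.1 q.2‖ ^ 2) ?_ ?_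
  · have hW : Continuous fun q : (Fin (t + 1) → ℝ) × ℝ => W q.2 := W_cont.comp continuous_snd
    exact (hW.mul ((GG_cont2 k P P' A t η).norm.pow 2)).aestronglyMeasurable
  · refine Filter.Eventually.of_forall fun q => ?_
    rw [Real.norm_of_nonneg (mul_nonneg (W_nonneg _) (sq_nonneg _)), mul_comm]
    exact mul_le_mul_of_nonneg_right (pow_le_pow_left₀ (norm_nonneg _) (GG_le k P P' A η q.1 q.2) 2) (W_nonneg _)

lemma QQ_int (k P P' : ℕ) (A : Finset ℕ) (t : ℕ) (η : ℝ) : Integrable (QQ k P P' A (t := t) η) (cube (t + 1)) :=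
  (GG_int2 k P P' A t η).integral_prod_left

lemma QQ_nonneg (k P P' : ℕ) (A : Finset ℕ) {t : ℕ} (η : ℝ) (ξ : Fin (t + 1) → ℝ) : 0 ≤ QQ k P P' A η ξ :=
  integral_nonneg fun β => mul_nonneg (W_nonneg _) (sq_nonneg _)

/-- the mean square of the sum -/
noncomputable def S2 (k P : ℕ) (α : ℝ) : ℝ := ∫ ξ in (0 : ℝ)..1, ‖S k P α ξ‖ ^ 2

lemma S2_nonneg (k P : ℕ) (α : ℝ) : 0 ≤ S2 k P α :=
  intervalIntegral.integral_nonneg zero_le_one fun _ _ => sq_nonneg _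

lemma S2_eq (k P : ℕ) (α : ℝ) : S2 k P α = DS k P α + ‖M k P α‖ ^ 2 := by
  unfold S2 DS
  rw [varsq (S_cont2 _ _ α) (int_S _ _ α)]
  ring

lemma inner (k P P' : ℕ) (A : Finset ℕ) (t : ℕ) (η β : ℝ) :
    ∫ ξ, W β * ‖GG k P P' A η ξ β‖ ^ 2 ∂(cube (t + 1)) = W β * ‖FA A (β / η)‖ ^ 2 * (DS k P (β / η) * S2 k P' (β / η) ^ t) := by
  set α := β / η with hα
  set fam : Fin (t + 1) → ℝ → ℝ := fun i x => Fin.cases (‖S k P α x - M k P α‖ ^ 2) (fun _ => ‖S k P' α x‖ ^ 2) i with hfam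
  have e1 : ∀ ξ : Fin (t + 1) → ℝ, W β * ‖GG k P P' A η ξ β‖ ^ 2 = W β * ‖FA A α‖ ^ 2 * ∏ i, fam i (ξ i) := by
    intro ξ
    rw [Fin.prod_univ_succ]
    unfold GG PS
    rw [norm_mul, norm_mul, norm_prod]
    simp only [hfam, Fin.cases_zero, Fin.cases_succ]
    rw [prod_pow]
    ring
  simp_rw [e1]
  rw [integral_const_mul]
  congr 1
  have h1 := integral_fintype_prod_eq_prod (𝕜 := ℝ) (fun (i : Fin (t + 1)) (x : ℝ) => fam i x)
    (μ := fun _ => volume.restrict (Set.Ioc (0 : ℝ) 1))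
  refine h1.trans ?_
  rw [Fin.prod_univ_succ]
  simp only [hfam, Fin.cases_zero, Fin.cases_succ]
  rw [prod_const, card_univ, Fintype.card_fin, int_unit, int_unit]
  rfl

lemma M_sq {m P : ℕ} (hP : 1 ≤ P) (α : ℝ) : ‖M (m + 2) P α‖ ^ 2 ≤ 5 * (P:ℝ) ^ 2 * (1 + ((P:ℝ) ^ (m + 2) * α) ^ 2)⁻¹ := by
  have hP0 : (0:ℝ) < P := by exact_mod_cast hP
  have hpos : 0 < 1 + ((P:ℝ) ^ (m + 2) * α) ^ 2 := by positivity
  rw [← div_eq_mul_inv, le_div_iff₀ hpos]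
  have h1 : ‖M (m + 2) P α‖ ^ 2 ≤ (2 * (P:ℝ)) ^ 2 := pow_le_pow_left₀ (norm_nonneg _) (M_le' _ _ _) 2
  have h2 : ‖M (m + 2) P α‖ * ((P:ℝ) ^ (m + 2) * |α|) ≤ P := by
    rcases eq_or_ne α 0 with h | h
    · rw [h]; simp
    · have h3 := M_le (m := m) hP h
      have hα : 0 < |α| := abs_pos.2 h
      rw [le_div_iff₀ (by positivity)] at h3
      calc ‖M (m + 2) P α‖ * ((P:ℝ) ^ (m + 2) * |α|) = (‖M (m + 2) P α‖ * (|α| * (P:ℝ) ^ (m + 1))) * P := by ring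
        _ ≤ 1 * P := mul_le_mul_of_nonneg_right h3 hP0.le
        _ = P := one_mul _
  have h3 : (‖M (m + 2) P α‖ * ((P:ℝ) ^ (m + 2) * |α|)) ^ 2 ≤ (P:ℝ) ^ 2 := pow_le_pow_left₀ (by positivity) h2 2
  have e1 : ((P:ℝ) ^ (m + 2) * α) ^ 2 = ((P:ℝ) ^ (m + 2) * |α|) ^ 2 := by rw [mul_pow, mul_pow, sq_abs]
  rw [mul_add, mul_one, e1, ← mul_pow]
  nlinarith

lemma M_sq_int {m P : ℕ} (hP : 1 ≤ P) {η : ℝ} (hη : 0 < η) :
    Integrable (fun β : ℝ => 5 * (P:ℝ) ^ 2 * (1 + ((P:ℝ) ^ (m + 2) * (β / η)) ^ 2)⁻¹) ∧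
    ∫ β : ℝ, 5 * (P:ℝ) ^ 2 * (1 + ((P:ℝ) ^ (m + 2) * (β / η)) ^ 2)⁻¹ = 5 * Real.pi * η * (P:ℝ) ^ 2 / (P:ℝ) ^ (m + 2) := by
  have hP0 : (0:ℝ) < P := by exact_mod_cast hP
  set a : ℝ := (P:ℝ) ^ (m + 2) / η with ha
  have ha0 : 0 < a := by positivity
  have e1 : ∀ β : ℝ, 5 * (P:ℝ) ^ 2 * (1 + ((P:ℝ) ^ (m + 2) * (β / η)) ^ 2)⁻¹ = 5 * (P:ℝ) ^ 2 * (1 + (a * β) ^ 2)⁻¹ := by
    intro β
    congr 3
    rw [ha]
    ring
  simp_rw [e1]
  constructor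
  · exact (integrable_inv_one_add_sq.comp_mul_left' ha0.ne').const_mul _
  · rw [integral_const_mul]
    have h1 := Measure.integral_comp_mul_left (fun y : ℝ => (1 + y ^ 2)⁻¹) a
    rw [h1, integral_univ_inv_one_add_sq, abs_of_pos (inv_pos.2 ha0), smul_eq_mul, ha]
    field_simp

lemma pw {x y Y : ℝ} (hx : 0 ≤ x) (hy : 0 ≤ y) (hyY : y ≤ Y) (hY : 0 < Y) (t : ℕ) :
    (x + y) ^ t ≤ 2 ^ t * (x ^ t + y * (Y ^ t / Y)) := by
  cases t with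
  | zero =>
    simp only [pow_zero, one_mul]
    have : 0 ≤ y * (1 / Y) := by positivity
    linarith
  | succ t =>
    have h1 := add_pow_le hx hy (t + 1)
    rw [Nat.add_sub_cancel] at h1
    have h2 : y ^ (t + 1) ≤ y * (Y ^ (t + 1) / Y) := by
      have e1 : Y ^ (t + 1) / Y = Y ^ t := by rw [pow_succ]; field_simp
      rw [e1, pow_succ, mul_comm]
      exact mul_le_mul_of_nonneg_left (pow_le_pow_left₀ hy hyY t) hy
    have h3 : 0 ≤ x ^ (t + 1) + y * (Y ^ (t + 1) / Y) := by positivity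
    calc (x + y) ^ (t + 1) ≤ 2 ^ t * (x ^ (t + 1) + y ^ (t + 1)) := h1
      _ ≤ 2 ^ t * (x ^ (t + 1) + y * (Y ^ (t + 1) / Y)) := by gcongr
      _ ≤ 2 ^ (t + 1) * (x ^ (t + 1) + y * (Y ^ (t + 1) / Y)) := by
          apply mul_le_mul_of_nonneg_right _ h3
          exact pow_le_pow_right₀ (by norm_num) (by omega)

lemma FA_mean (A : Finset ℕ) {η : ℝ} (hη : 0 < η) (hη1 : η ≤ 1) : ∫ β : ℝ, W β * ‖FA A (β / η)‖ ^ 2 ≤ A.card := by
  have h1 := tp_sq A (u := fun _ => 1) (fun _ => by simp) hη hη1 0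
  have e1 : ∀ β : ℝ, ‖FA A (β / η)‖ = ‖tp A (fun _ => 1) η 0 β‖ := by
    intro β
    have e2 : tp A (fun _ => 1) η 0 β = (starRingEnd ℂ) (FA A (β / η)) := by
      unfold tp FA
      rw [map_sum]
      apply sum_congr rfl
      intro a _
      rw [one_mul, ← e_neg]
      congr 1
      ring
    rw [e2, Complex.norm_conj]
  simp_rw [e1]
  exact h1

/-- **the mean value of the mean square** -/
theorem QQ_mean {m P P' : ℕ} (hP : 1 ≤ P) (hP' : 1 ≤ P') (A : Finset ℕ) (t : ℕ) {η : ℝ} (hη : 0 < η) (hη1 : η ≤ 1) :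
    ∫ ξ, QQ (m + 2) P P' A η ξ ∂(cube (t + 1)) ≤
      CD m * (P * (1 + Real.log (2 * P))) * (2 ^ t * ((CD m * (P' * (1 + Real.log (2 * P')))) ^ t * A.card +
        A.card ^ 2 * η * (4 * (4 * (P':ℝ) ^ 2) ^ t / (P':ℝ) ^ (m + 2)))) := by
  have hP0 : (0:ℝ) < P := by exact_mod_cast hP
  have hP'0 : (0:ℝ) < P' := by exact_mod_cast hP'
  have hP1 : (1:ℝ) ≤ P := by exact_mod_cast hP
  have hP'1 : (1:ℝ) ≤ P' := by exact_mod_cast hP'
  have hl1 : 0 ≤ Real.log (2 * P) := Real.log_nonneg (by linarith)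
  have hl2 : 0 ≤ Real.log (2 * P') := Real.log_nonneg (by linarith)
  have hCD := CD_pos m
  set D := CD m * (P * (1 + Real.log (2 * P))) with hD
  set D' := CD m * (P' * (1 + Real.log (2 * P'))) with hD'
  have hD0 : 0 ≤ D := by positivity
  have hD'0 : 0 ≤ D' := by positivity
  have h1 : ∫ ξ, QQ (m + 2) P P' A η ξ ∂(cube (t + 1)) =
      ∫ β : ℝ, W β * ‖FA A (β / η)‖ ^ 2 * (DS (m + 2) P (β / η) * S2 (m + 2) P' (β / η) ^ t) := by
    unfold QQ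
    rw [integral_integral_swap (f := fun (ξ : Fin (t + 1) → ℝ) (β : ℝ) => W β * ‖GG (m + 2) P P' A η ξ β‖ ^ 2)
      (GG_int2 (m + 2) P P' A t η)]
    exact integral_congr_ae (Filter.Eventually.of_forall fun β => inner (m + 2) P P' A t η β)
  rw [h1]
  have hFi : Integrable fun β : ℝ => W β * ‖FA A (β / η)‖ ^ 2 := by
    refine (W_int.const_mul ((A.card : ℝ) ^ 2)).mono'
      (W_cont.mul (((FA_cont A).comp (continuous_id.div_const η)).norm.pow 2)).aestronglyMeasurable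
      (Filter.Eventually.of_forall fun β => ?_)
    rw [Real.norm_of_nonneg (mul_nonneg (W_nonneg _) (sq_nonneg _)), mul_comm]
    exact mul_le_mul_of_nonneg_right (pow_le_pow_left₀ (norm_nonneg _) (FA_le _ _) 2) (W_nonneg _)
  obtain ⟨hMi, hMv⟩ := M_sq_int (m := m) hP' hη
  set Y : ℝ := 4 * (P':ℝ) ^ 2 with hY
  have hY0 : 0 < Y := by positivity
  have h2 : ∫ β : ℝ, W β * ‖FA A (β / η)‖ ^ 2 * (DS (m + 2) P (β / η) * S2 (m + 2) P' (β / η) ^ t) ≤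
      ∫ β : ℝ, (D * 2 ^ t * D' ^ t * (W β * ‖FA A (β / η)‖ ^ 2) +
        D * 2 ^ t * (A.card ^ 2 * (Y ^ t / Y)) * (5 * (P':ℝ) ^ 2 * (1 + ((P':ℝ) ^ (m + 2) * (β / η)) ^ 2)⁻¹)) := by
    apply integral_mono_of_nonneg
      (Filter.Eventually.of_forall fun β => mul_nonneg (mul_nonneg (W_nonneg _) (sq_nonneg _))
        (mul_nonneg (DS_nonneg _ _ _) (pow_nonneg (S2_nonneg _ _ _) _)))
      ((hFi.const_mul _).add (hMi.const_mul _))
    refine Filter.Eventually.of_forall fun β => ?_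
    simp only [Pi.add_apply]
    set α := β / η
    have hW0 := W_nonneg β
    have hW1 := W_le β
    have h3 := DS_sup (m := m) hP α
    have h4 := DS_sup (m := m) hP' α
    rw [← hD] at h3
    rw [← hD'] at h4
    have hF := FA_le A α
    have hF0 := norm_nonneg (FA A α)
    have hMM : ‖M (m + 2) P' α‖ ^ 2 ≤ Y := by
      have h5 := pow_le_pow_left₀ (norm_nonneg _) (M_le' (m + 2) P' α) 2
      rw [hY]; nlinarith
    have h5 : S2 (m + 2) P' α ^ t ≤ 2 ^ t * (D' ^ t + ‖M (m + 2) P' α‖ ^ 2 * (Y ^ t / Y)) := by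
      refine (pow_le_pow_left₀ (S2_nonneg _ _ _) ?_ t).trans (pw hD'0 (sq_nonneg _) hMM hY0 t)
      rw [S2_eq]; linarith
    have h6 : DS (m + 2) P α * S2 (m + 2) P' α ^ t ≤ D * (2 ^ t * (D' ^ t + ‖M (m + 2) P' α‖ ^ 2 * (Y ^ t / Y))) :=
      mul_le_mul h3 h5 (pow_nonneg (S2_nonneg _ _ _) _) hD0
    have hWF : 0 ≤ W β * ‖FA A α‖ ^ 2 := by positivity
    have h7 : W β * ‖FA A α‖ ^ 2 ≤ (A.card : ℝ) ^ 2 := by
      calc W β * ‖FA A α‖ ^ 2 ≤ 1 * (A.card : ℝ) ^ 2 :=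
            mul_le_mul hW1 (pow_le_pow_left₀ hF0 hF 2) (sq_nonneg _) zero_le_one
        _ = _ := one_mul _
    have h8 := M_sq (m := m) hP' α
    have hYt : 0 ≤ Y ^ t / Y := by positivity
    calc W β * ‖FA A α‖ ^ 2 * (DS (m + 2) P α * S2 (m + 2) P' α ^ t)
        ≤ W β * ‖FA A α‖ ^ 2 * (D * (2 ^ t * (D' ^ t + ‖M (m + 2) P' α‖ ^ 2 * (Y ^ t / Y)))) :=
          mul_le_mul_of_nonneg_left h6 hWF
      _ = D * 2 ^ t * D' ^ t * (W β * ‖FA A α‖ ^ 2) +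
          D * 2 ^ t * ((W β * ‖FA A α‖ ^ 2) * (Y ^ t / Y)) * ‖M (m + 2) P' α‖ ^ 2 := by ring
      _ ≤ _ := by gcongr
  refine h2.trans ?_
  rw [integral_add (hFi.const_mul _) (hMi.const_mul _), integral_const_mul, integral_const_mul, hMv]
  have h3 := FA_mean A hη hη1
  have h4 : D * 2 ^ t * D' ^ t * ∫ β : ℝ, W β * ‖FA A (β / η)‖ ^ 2 ≤ D * 2 ^ t * D' ^ t * A.card :=
    mul_le_mul_of_nonneg_left h3 (by positivity)
  have h5 : D * 2 ^ t * (A.card ^ 2 * (Y ^ t / Y)) * (5 * Real.pi * η * (P':ℝ) ^ 2 / (P':ℝ) ^ (m + 2)) ≤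
      D * 2 ^ t * (A.card ^ 2 * η * (4 * Y ^ t / (P':ℝ) ^ (m + 2))) := by
    have h6 : Real.pi ≤ 3.2 := by have := Real.pi_lt_d2; linarith
    have e1 : D * 2 ^ t * (A.card ^ 2 * (Y ^ t / Y)) * (5 * Real.pi * η * (P':ℝ) ^ 2 / (P':ℝ) ^ (m + 2)) =
        (D * 2 ^ t * A.card ^ 2 * η * (Y ^ t / (P':ℝ) ^ (m + 2))) * (5 * Real.pi / 4) := by
      rw [hY]
      field_simp
    have e2 : D * 2 ^ t * (A.card ^ 2 * η * (4 * Y ^ t / (P':ℝ) ^ (m + 2))) =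
        (D * 2 ^ t * A.card ^ 2 * η * (Y ^ t / (P':ℝ) ^ (m + 2))) * 4 := by ring
    rw [e1, e2]
    apply mul_le_mul_of_nonneg_left _ (by positivity)
    linarith
  calc _ ≤ D * 2 ^ t * D' ^ t * A.card + D * 2 ^ t * (A.card ^ 2 * η * (4 * Y ^ t / (P':ℝ) ^ (m + 2))) := by linarith
    _ = _ := by ring

end Pool.Agent.K7.H74.WD
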