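import Mathlib
import Pool.Agent.K7.H74.WS.SlF
import Pool.Agent.K7.H74.WD.Mean
import Pool.Agent.K7.H74.WD.Ind

set_option autoImplicit false

/-! Waring's problem with shifts and a given set: the exceptional set for almost all shifts. -/

namespace Pool.Agent.K7.H74.WD
open Finset MeasureTheory Filter Topology
open Pool.Agent.K7.H74.WS (cube)

/-- the algebra of one scale -/
lemma alg {D B x L1 L2 n η J1 b2 : ℝ} (hD : 1 ≤ D) (hB : 0 < B) (hx : 1 ≤ x) (hL1 : 0 ≤ L1) (hL2 : 0 ≤ L2) (hn : 1 ≤ n)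
    (hη : 0 < η) (hJ : 1 ≤ J1) (hb : 1 ≤ b2) (h1 : L1 ≤ b2 * J1) (h2 : L2 ≤ b2 * J1) (m t : ℕ) :
    η * (J1 ^ 2 * (D * (B * x * L1) * (2 ^ t * ((D * (x * L2)) ^ t * n + n ^ 2 * η * (4 * (4 * x ^ 2) ^ t / x ^ (m + 2))))) /
      (n * (2 * x) ^ t * (η / (2 * (m + 2) * (3 * (B * x)) ^ (m + 1)))) ^ 2) ≤
    D ^ (t + 1) * B * 2 ^ t * 16 * (m + 2) ^ 2 * (3 * B) ^ (2 * m + 2) * b2 ^ (t + 1) * J1 ^ (t + 3) *
      (x ^ (m + 1) + x ^ (2 * m + 3) / (x ^ t * (n * η))) := by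
  have hx0 : 0 < x := by linarith
  have hn0 : 0 < n := by linarith
  have hD0 : 0 < D := by linarith
  set T : ℝ := 2 ^ t with hT
  have hT1 : 1 ≤ T := one_le_pow₀ (by norm_num)
  have hT0 : 0 < T := by linarith
  have e1 : (2 * x) ^ t = T * x ^ t := by rw [mul_pow]
  have e2 : (4 * x ^ 2) ^ t = (T * x ^ t) ^ 2 := by
    rw [← e1, ← pow_mul, mul_comm t 2, pow_mul]
    congr 1
    ring
  have e3 : (D * (x * L2)) ^ t = D ^ t * (x ^ t * L2 ^ t) := by rw [mul_pow, mul_pow]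
  have e4 : (3 * (B * x)) ^ (m + 1) = (3 * B) ^ (m + 1) * x ^ (m + 1) := by rw [← mul_pow]; congr 1; ring
  rw [e1, e2, e3, e4]
  set V : ℝ := (3 * B) ^ (m + 1) with hV
  have hV0 : 0 < V := by positivity
  have hV2 : (3 * B) ^ (2 * m + 2) = V ^ 2 := by rw [hV, ← pow_mul]; congr 1; ring
  rw [hV2]
  have key : η * (J1 ^ 2 * (D * (B * x * L1) * (T * (D ^ t * (x ^ t * L2 ^ t) * n + n ^ 2 * η * (4 * (T * x ^ t) ^ 2 / x ^ (m + 2))))) /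
      (n * (T * x ^ t) * (η / (2 * (m + 2) * (V * x ^ (m + 1))))) ^ 2) =
      (D ^ (t + 1) * B * 4 * (m + 2) ^ 2 * V ^ 2 / T) * (J1 ^ 2 * L1 * L2 ^ t) * (x ^ (2 * m + 3) / (x ^ t * (n * η))) +
      (D * B * T * 16 * (m + 2) ^ 2 * V ^ 2) * (J1 ^ 2 * L1) * x ^ (m + 1) := by
    have e5 : x ^ (2 * m + 3) = x ^ (m + 1) * x ^ (m + 1) * x := by ring
    have e6 : x ^ (m + 2) = x ^ (m + 1) * x := by ring
    rw [e5, e6]
    set y := x ^ (m + 1) with hy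
    have hy0 : 0 < y := by positivity
    set z := x ^ t with hz
    have hz0 : 0 < z := by positivity
    field_simp
    ring
  rw [key]
  have a1 : J1 ^ 2 * L1 ≤ b2 * J1 ^ 3 := by
    calc J1 ^ 2 * L1 ≤ J1 ^ 2 * (b2 * J1) := by gcongr
      _ = _ := by ring
  have a2 : L2 ^ t ≤ (b2 * J1) ^ t := pow_le_pow_left₀ hL2 h2 t
  have a3 : J1 ^ 2 * L1 * L2 ^ t ≤ b2 ^ (t + 1) * J1 ^ (t + 3) := by
    calc J1 ^ 2 * L1 * L2 ^ t ≤ (b2 * J1 ^ 3) * (b2 * J1) ^ t := mul_le_mul a1 a2 (by positivity) (by positivity)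
      _ = _ := by rw [mul_pow]; ring
  have a4 : J1 ^ 2 * L1 ≤ b2 ^ (t + 1) * J1 ^ (t + 3) := by
    refine a1.trans (mul_le_mul ?_ ?_ (by positivity) (by positivity))
    · calc b2 = b2 ^ 1 := (pow_one _).symm
        _ ≤ _ := pow_le_pow_right₀ hb (by omega)
    · exact pow_le_pow_right₀ hJ (by omega)
  have a5 : D ≤ D ^ (t + 1) := by
    calc D = D ^ 1 := (pow_one _).symm
      _ ≤ _ := pow_le_pow_right₀ hD (by omega)
  have hm : (0:ℝ) < m + 2 := by positivity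
  have a6 : D ^ (t + 1) * B * 4 * (m + 2) ^ 2 * V ^ 2 / T ≤ D ^ (t + 1) * B * T * 16 * (m + 2) ^ 2 * V ^ 2 := by
    rw [div_le_iff₀ hT0]
    have a7 : 0 < D ^ (t + 1) * B * (m + 2) ^ 2 * V ^ 2 := by positivity
    have a8 : 1 ≤ T * T := by nlinarith
    calc D ^ (t + 1) * B * 4 * (m + 2) ^ 2 * V ^ 2 = (D ^ (t + 1) * B * (m + 2) ^ 2 * V ^ 2) * 4 := by ring
      _ ≤ (D ^ (t + 1) * B * (m + 2) ^ 2 * V ^ 2) * (16 * (T * T)) := by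
          apply mul_le_mul_of_nonneg_left _ a7.le
          linarith
      _ = _ := by ring
  have hq : 0 ≤ x ^ (2 * m + 3) / (x ^ t * (n * η)) := by positivity
  have b1 : (D ^ (t + 1) * B * 4 * (m + 2) ^ 2 * V ^ 2 / T) * (J1 ^ 2 * L1 * L2 ^ t) * (x ^ (2 * m + 3) / (x ^ t * (n * η))) ≤
      (D ^ (t + 1) * B * T * 16 * (m + 2) ^ 2 * V ^ 2) * (b2 ^ (t + 1) * J1 ^ (t + 3)) * (x ^ (2 * m + 3) / (x ^ t * (n * η))) := by
    gcongr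
  have b2' : (D * B * T * 16 * (m + 2) ^ 2 * V ^ 2) * (J1 ^ 2 * L1) * x ^ (m + 1) ≤
      (D ^ (t + 1) * B * T * 16 * (m + 2) ^ 2 * V ^ 2) * (b2 ^ (t + 1) * J1 ^ (t + 3)) * x ^ (m + 1) := by
    gcongr
  calc _ ≤ _ := add_le_add b1 b2'
    _ = _ := by ring

open Classical in
/-- the part of the set up to `Y` -/
noncomputable def cut (A : Set ℕ) (Y : ℕ) : Finset ℕ := (range (Y + 1)).filter (· ∈ A)

lemma cut_card (A : Set ℕ) (Y : ℕ) : (A ∩ Set.Iic Y).ncard = (cut A Y).card := by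
  classical
  have e : A ∩ Set.Iic Y = ((cut A Y : Finset ℕ) : Set ℕ) := by
    ext a
    unfold cut
    simp only [Set.mem_inter_iff, Set.mem_Iic, coe_filter, mem_range, Set.mem_ofPred_eq]
    constructor
    · rintro ⟨h1, h2⟩; exact ⟨by omega, h1⟩
    · rintro ⟨h1, h2⟩; exact ⟨h2, by omega⟩
  rw [e, Set.ncard_coe_finset]

lemma cut_mem {A : Set ℕ} {Y a : ℕ} (h : a ∈ cut A Y) : a ∈ A ∧ a ≤ Y := by
  classical
  unfold cut at h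
  rw [mem_filter, mem_range] at h
  exact ⟨h.2, by omega⟩

lemma log_pow_le {c J : ℕ} : 0 ≤ 1 + Real.log (2 * ((2 ^ (J + c) : ℕ) : ℝ)) ∧
    1 + Real.log (2 * ((2 ^ (J + c) : ℕ) : ℝ)) ≤ (c + 2) * ((J:ℝ) + 1) := by
  have h1 : Real.log 2 ≤ 1 := by have := Real.log_two_lt_d9; linarith
  have h0 : 0 ≤ Real.log 2 := Real.log_nonneg (by norm_num)
  have e1 : Real.log (2 * ((2 ^ (J + c) : ℕ) : ℝ)) = (J + c + 1) * Real.log 2 := by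
    have : (2:ℝ) * ((2 ^ (J + c) : ℕ) : ℝ) = 2 ^ (J + c + 1) := by push_cast; ring
    rw [this, Real.log_pow]
    push_cast
    ring
  rw [e1]
  have hJ : (0:ℝ) ≤ J := Nat.cast_nonneg _
  have hc : (0:ℝ) ≤ c := Nat.cast_nonneg _
  constructor
  · positivity
  · have h2 : ((J:ℝ) + c + 1) * Real.log 2 ≤ (J + c + 1) * 1 := mul_le_mul_of_nonneg_left h1 (by positivity)
    nlinarith

/-- the length of the range of the first variable -/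
def PJ (b J : ℕ) : ℕ := 2 ^ (J + b)

/-- the bound for the elements of the set -/
def YJ (m b J : ℕ) : ℕ := 2 ^ ((J + b) * (m + 2) - 3)

/-- the window -/
noncomputable def eJ (m b : ℕ) (κ : ℝ) (J : ℕ) : ℝ := ((3 * (PJ b J : ℝ)) ^ (m + 2)) ^ (-κ)

lemma PJ_one (b J : ℕ) : 1 ≤ PJ b J := Nat.one_le_two_pow

lemma PJ_cast (b J : ℕ) : (PJ b J : ℝ) = 2 ^ b * 2 ^ J := by
  unfold PJ
  push_cast
  rw [pow_add]
  ring

lemma PJ_zero (J : ℕ) : (PJ 0 J : ℝ) = 2 ^ J := by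
  rw [PJ_cast]; ring

lemma YJ_cast {m b : ℕ} (hb : 5 ≤ b) (J : ℕ) : (YJ m b J : ℝ) = (PJ b J : ℝ) ^ (m + 2) / 8 := by
  unfold YJ PJ
  have h3 : 3 ≤ (J + b) * (m + 2) := by
    have h1 : 5 * 2 ≤ (J + b) * (m + 2) := Nat.mul_le_mul (by omega) (by omega)
    omega
  rw [eq_div_iff (by norm_num)]
  have h8 : (8:ℝ) = 2 ^ 3 := by norm_num
  push_cast
  rw [h8, ← pow_add, ← pow_mul]
  congr 1
  omega

lemma YJ_ge {m b : ℕ} (hb : 5 ≤ b) (J : ℕ) : J ≤ YJ m b J := by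
  unfold YJ
  have h1 : J < 2 ^ J := Nat.lt_two_pow_self
  have h2 : 2 ^ J ≤ 2 ^ ((J + b) * (m + 2) - 3) := by
    apply Nat.pow_le_pow_right (by norm_num)
    have e1 : (J + b) * (m + 2) = J * (m + 2) + b * (m + 2) := by ring
    have h3 : J ≤ J * (m + 2) := Nat.le_mul_of_pos_right _ (by omega)
    have h4 : 5 * 2 ≤ b * (m + 2) := Nat.mul_le_mul hb (by omega)
    omega
  omega

lemma log_PJ (c J : ℕ) : 0 ≤ 1 + Real.log (2 * (PJ c J : ℝ)) ∧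
    1 + Real.log (2 * (PJ c J : ℝ)) ≤ (c + 2) * ((J:ℝ) + 1) := log_pow_le

lemma eJ_pos (m b : ℕ) (κ : ℝ) (J : ℕ) : 0 < eJ m b κ J := by
  unfold eJ
  have : (0:ℝ) < PJ b J := by exact_mod_cast PJ_one b J
  positivity

lemma eJ_le (m b : ℕ) {κ : ℝ} (hκ : 0 ≤ κ) (J : ℕ) : eJ m b κ J ≤ 1 := by
  unfold eJ
  apply Real.rpow_le_one_of_one_le_of_nonpos _ (by linarith)
  apply one_le_pow₀
  have : (1:ℝ) ≤ PJ b J := by exact_mod_cast PJ_one b J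
  linarith

lemma eJ_eq (m b : ℕ) (κ : ℝ) (J : ℕ) : eJ m b κ J = ((3 * 2 ^ b) ^ (m + 2)) ^ (-κ) * (((2:ℝ) ^ J) ^ (m + 2)) ^ (-κ) := by
  unfold eJ
  rw [← Real.mul_rpow (by positivity) (by positivity), PJ_cast]
  congr 1
  rw [← mul_pow]
  congr 1
  ring

/-- the number of elements, at least one -/
noncomputable def nJ (m b : ℕ) (A : Set ℕ) (J : ℕ) : ℝ := max ((cut A (YJ m b J)).card : ℝ) 1

/-- the bound for the mean value at one scale -/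
noncomputable def bJ (m t b : ℕ) (A : Set ℕ) (κ : ℝ) (J : ℕ) : ℝ :=
  CD m * ((PJ b J : ℝ) * (1 + Real.log (2 * (PJ b J : ℝ)))) *
    (2 ^ t * ((CD m * ((PJ 0 J : ℝ) * (1 + Real.log (2 * (PJ 0 J : ℝ))))) ^ t * nJ m b A J +
        nJ m b A J ^ 2 * eJ m b κ J * (4 * (4 * (PJ 0 J : ℝ) ^ 2) ^ t / (PJ 0 J : ℝ) ^ (m + 2))))

lemma bJ_pos (m t b : ℕ) (A : Set ℕ) (κ : ℝ) (J : ℕ) : 0 < bJ m t b A κ J := by
  unfold bJ
  have h1 := CD_pos m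
  have h2 := eJ_pos m b κ J
  have h3 : ∀ c, 0 < 1 + Real.log (2 * (PJ c J : ℝ)) := by
    intro c
    have : (1:ℝ) ≤ PJ c J := by exact_mod_cast PJ_one c J
    have := Real.log_nonneg (by linarith : (1:ℝ) ≤ 2 * (PJ c J : ℝ))
    linarith
  have h3a := h3 b
  have h3b := h3 0
  have h4 : ∀ c, (0:ℝ) < PJ c J := fun c => by exact_mod_cast PJ_one c J
  have h4a := h4 b
  have h4b := h4 0
  have h5 : 0 < nJ m b A J := lt_max_of_lt_right one_pos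
  positivity

lemma QQ_bJ (m t b : ℕ) (A : Set ℕ) {κ : ℝ} (hκ : 0 ≤ κ) (J : ℕ) :
    ∫ ξ, QQ (m + 2) (PJ b J) (PJ 0 J) (cut A (YJ m b J)) (eJ m b κ J) ξ ∂(cube (t + 1)) ≤ bJ m t b A κ J := by
  refine (QQ_mean (m := m) (PJ_one b J) (PJ_one 0 J) _ t (eJ_pos m b κ J) (eJ_le m b hκ J)).trans ?_
  unfold bJ
  have h1 := CD_pos m
  have h2 := eJ_pos m b κ J
  have h3 := (log_PJ b J).1
  have h4 := (log_PJ 0 J).1
  have h5 : ((cut A (YJ m b J)).card : ℝ) ≤ nJ m b A J := le_max_left _ _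
  have h6 : (0:ℝ) < PJ b J := by exact_mod_cast PJ_one b J
  have h7 : (0:ℝ) < PJ 0 J := by exact_mod_cast PJ_one 0 J
  gcongr

/-- the mean squares are bounded for almost all shifts -/
theorem ae_QQ (m t b : ℕ) (A : Set ℕ) {κ : ℝ} (hκ : 0 ≤ κ) :
    ∀ᵐ ξ ∂(cube (t + 1)), ∀ᶠ J : ℕ in atTop,
      QQ (m + 2) (PJ b J) (PJ 0 J) (cut A (YJ m b J)) (eJ m b κ J) ξ < ((J:ℝ) + 1) ^ 2 * bJ m t b A κ J := by
  have h0 : ∀ (J : ℕ) (ξ : Fin (t + 1) → ℝ), 0 ≤ QQ (m + 2) (PJ b J) (PJ 0 J) (cut A (YJ m b J)) (eJ m b κ J) ξ :=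
    fun J ξ => QQ_nonneg _ _ _ _ _ _
  have hi : ∀ J : ℕ, Integrable (fun ξ : Fin (t + 1) → ℝ => QQ (m + 2) (PJ b J) (PJ 0 J) (cut A (YJ m b J)) (eJ m b κ J) ξ) (cube (t + 1)) :=
    fun J => QQ_int _ _ _ _ _ _
  have hb : ∀ J : ℕ, ∫ ξ, QQ (m + 2) (PJ b J) (PJ 0 J) (cut A (YJ m b J)) (eJ m b κ J) ξ ∂(cube (t + 1)) ≤ bJ m t b A κ J :=
    fun J => QQ_bJ m t b A hκ J
  have hp : ∀ J : ℕ, 0 < ((J:ℝ) + 1) ^ 2 * bJ m t b A κ J := fun J => by have := bJ_pos m t b A κ J; positivity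
  have hs : Summable fun J : ℕ => bJ m t b A κ J / (((J:ℝ) + 1) ^ 2 * bJ m t b A κ J) := by
    have h1 : Summable fun J : ℕ => 1 / ((J + 1 : ℕ) : ℝ) ^ 2 :=
      (summable_nat_add_iff 1).2 (Real.summable_one_div_nat_pow.2 (by norm_num))
    refine h1.congr fun J => ?_
    have h2 := (bJ_pos m t b A κ J).ne'
    have h3 : ((J : ℝ) + 1) ≠ 0 := by positivity
    generalize bJ m t b A κ J = y at h2 ⊢
    push_cast
    field_simp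
  exact Pool.Agent.K7.H74.WS.bc (f := fun (J : ℕ) (ξ : Fin (t + 1) → ℝ) => QQ (m + 2) (PJ b J) (PJ 0 J) (cut A (YJ m b J)) (eJ m b κ J) ξ)
    h0 hi hb hp hs

/-- the real powers -/
lemma conv {x n η cn ce a κ : ℝ} {m t : ℕ} (hx : 1 ≤ x) (hcn : 0 < cn) (hce : 0 < ce) (hn : cn * (x ^ (m + 2)) ^ a ≤ n)
    (hη : η = ce * (x ^ (m + 2)) ^ (-κ)) :
    x ^ (m + 1) + x ^ (2 * m + 3) / (x ^ t * (n * η)) ≤
      (1 + (cn * ce)⁻¹) * ((x ^ (m + 2)) ^ (1 - 1 / ((m:ℝ) + 2)) + (x ^ (m + 2)) ^ (2 - ((t:ℝ) + 1) / (m + 2) - a + κ)) := by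
  have hx0 : 0 < x := by linarith
  have hk0 : (0:ℝ) < (m:ℝ) + 2 := by positivity
  set X : ℝ := x ^ (m + 2) with hX
  have hX0 : 0 < X := by positivity
  have hp1 : x ^ (m + 1) = X ^ (1 - 1 / ((m:ℝ) + 2)) := by
    rw [hX, ← Real.rpow_natCast x (m + 2), ← Real.rpow_mul hx0.le, ← Real.rpow_natCast x (m + 1)]
    congr 1
    push_cast
    field_simp
    ring
  have h1 : cn * ce * X ^ (a - κ) ≤ n * η := by
    rw [hη]
    calc cn * ce * X ^ (a - κ) = (cn * X ^ a) * (ce * X ^ (-κ)) := by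
          rw [sub_eq_add_neg, Real.rpow_add hX0]; ring
      _ ≤ _ := mul_le_mul_of_nonneg_right hn (by positivity)
  have h2 : x ^ (2 * m + 3) / x ^ t = X ^ (2 - ((t:ℝ) + 1) / (m + 2)) := by
    rw [hX, ← Real.rpow_natCast x (m + 2), ← Real.rpow_mul hx0.le, ← Real.rpow_natCast x (2 * m + 3), ← Real.rpow_natCast x t,
      ← Real.rpow_sub hx0]
    congr 1
    push_cast
    field_simp
    ring
  have hp2 : x ^ (2 * m + 3) / (x ^ t * (n * η)) ≤ (cn * ce)⁻¹ * X ^ (2 - ((t:ℝ) + 1) / (m + 2) - a + κ) := by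
    calc x ^ (2 * m + 3) / (x ^ t * (n * η)) = (x ^ (2 * m + 3) / x ^ t) / (n * η) := by rw [div_div]
      _ ≤ (x ^ (2 * m + 3) / x ^ t) / (cn * ce * X ^ (a - κ)) := by
          apply div_le_div_of_nonneg_left (by positivity) (by positivity) h1
      _ = (cn * ce)⁻¹ * X ^ (2 - ((t:ℝ) + 1) / (m + 2) - a + κ) := by
          rw [h2]
          have h3 : X ^ (2 - ((t:ℝ) + 1) / (m + 2) - a + κ) = X ^ (2 - ((t:ℝ) + 1) / (m + 2)) / X ^ (a - κ) := by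
            rw [← Real.rpow_sub hX0]; congr 1; ring
          rw [h3]
          field_simp
  rw [hp1]
  have hXp1 : 0 < X ^ (1 - 1 / ((m:ℝ) + 2)) := by positivity
  have hXp2 : 0 < X ^ (2 - ((t:ℝ) + 1) / (m + 2) - a + κ) := by positivity
  have hci : 0 < (cn * ce)⁻¹ := by positivity
  nlinarith

lemma sep_cond {m t J : ℕ} : (t:ℝ) * (3 * (PJ 0 J : ℝ)) ^ (m + 2) ≤ (PJ (t + 5) J : ℝ) ^ (m + 2) / 8 := by
  rw [PJ_zero, PJ_cast, mul_pow, mul_pow]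
  set x : ℝ := 2 ^ J
  have hx : 0 < x ^ (m + 2) := by positivity
  have h1 : (3:ℝ) * (8 * t + 1) ≤ 2 ^ (t + 5) := by
    have h2 : t + 1 ≤ 2 ^ t := Nat.lt_two_pow_self
    have h3 : (t:ℝ) + 1 ≤ 2 ^ t := by exact_mod_cast h2
    rw [pow_add]
    nlinarith
  have h2 : (3:ℝ) ^ (m + 2) * (8 * t + 1) ≤ (2 ^ (t + 5)) ^ (m + 2) := by
    calc (3:ℝ) ^ (m + 2) * (8 * t + 1) ≤ (3:ℝ) ^ (m + 2) * (8 * t + 1) ^ (m + 2) := by
          gcongr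
          exact le_self_pow₀ (by have : (0:ℝ) ≤ t := Nat.cast_nonneg t; linarith) (by omega)
      _ = (3 * (8 * (t:ℝ) + 1)) ^ (m + 2) := by rw [← mul_pow]
      _ ≤ (2 ^ (t + 5)) ^ (m + 2) := pow_le_pow_left₀ (by positivity) h1 _
  have h3 : (0:ℝ) < 3 ^ (m + 2) := by positivity
  have h4 : (t:ℝ) * 3 ^ (m + 2) ≤ (2 ^ (t + 5)) ^ (m + 2) / 8 := by
    rw [le_div_iff₀ (by norm_num)]
    nlinarith
  calc (t:ℝ) * (3 ^ (m + 2) * x ^ (m + 2)) = (t * 3 ^ (m + 2)) * x ^ (m + 2) := by ring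
    _ ≤ ((2 ^ (t + 5)) ^ (m + 2) / 8) * x ^ (m + 2) := mul_le_mul_of_nonneg_right h4 hx.le
    _ = _ := by ring

lemma CD_one (m : ℕ) : 1 ≤ CD m := by
  unfold CD
  have h1 : 0 ≤ 2 * (((m:ℝ) + 2) * 4 ^ (m + 1)) := by positivity
  have h2 : 0 ≤ (4 * Real.pi * 4 ^ (m + 1)) ^ 2 := sq_nonneg _
  linarith

/-- the constant of the algebra -/
noncomputable def C0 (m t : ℕ) : ℝ :=
  CD m ^ (t + 1) * 2 ^ (t + 5) * 2 ^ t * 16 * (m + 2) ^ 2 * (3 * 2 ^ (t + 5)) ^ (2 * m + 2) * (((t + 5 : ℕ) : ℝ) + 2) ^ (t + 1)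

lemma C0_pos (m t : ℕ) : 0 < C0 m t := by
  unfold C0
  have := CD_pos m
  positivity

/-- the volume at one scale -/
lemma vol_J {m t : ℕ} {A : Set ℕ} {κ : ℝ} (hκ : 0 ≤ κ) {J : ℕ} (hA : 0 < (cut A (YJ m (t + 5) J)).card)
    {ξ : Fin (t + 1) → ℝ} (hξ : ∀ i, ξ i ∈ Set.Ioc (0:ℝ) 1)
    (hQ : QQ (m + 2) (PJ (t + 5) J) (PJ 0 J) (cut A (YJ m (t + 5) J)) (eJ m (t + 5) κ J) ξ < ((J:ℝ) + 1) ^ 2 * bJ m t (t + 5) A κ J) :
    volume (EB (m + 2) (PJ (t + 5) J) (cut A (YJ m (t + 5) J)) (eJ m (t + 5) κ J) ξ) ≤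
      ENNReal.ofReal (C0 m t * ((J:ℝ) + 1) ^ (t + 3) * (((2:ℝ) ^ J) ^ (m + 1) +
        ((2:ℝ) ^ J) ^ (2 * m + 3) / (((2:ℝ) ^ J) ^ t * (((cut A (YJ m (t + 5) J)).card : ℝ) * eJ m (t + 5) κ J)))) := by
  have hb5 : 5 ≤ t + 5 := by omega
  have hvol := EB_vol (m := m) (P := PJ (t + 5) J) (P' := PJ 0 J) (A := cut A (YJ m (t + 5) J)) (PJ_one _ _) (PJ_one _ _)
    (card_pos.1 hA)
    (fun a ha => by
      have h1 := (cut_mem ha).2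
      have h2 : (a:ℝ) ≤ (YJ m (t + 5) J : ℝ) := by exact_mod_cast h1
      rwa [YJ_cast hb5] at h2) (t := t) sep_cond (eJ_pos m (t + 5) κ J) (eJ_le m (t + 5) hκ J) hξ
  refine hvol.trans (ENNReal.ofReal_le_ofReal ?_)
  have hη0 := eJ_pos m (t + 5) κ J
  have hn1 : (1:ℝ) ≤ ((cut A (YJ m (t + 5) J)).card : ℝ) := by exact_mod_cast hA
  have hnJ : nJ m (t + 5) A J = ((cut A (YJ m (t + 5) J)).card : ℝ) := max_eq_left hn1
  have hL1 := log_PJ (t + 5) J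
  have hL2 := log_PJ 0 J
  unfold bJ at hQ
  rw [hnJ] at hQ
  rw [PJ_zero] at hL2 hQ ⊢
  rw [PJ_cast] at hL1 hQ ⊢
  generalize eJ m (t + 5) κ J = η at *
  generalize QQ (m + 2) (PJ (t + 5) J) (PJ 0 J) (cut A (YJ m (t + 5) J)) η ξ = q at *
  generalize ((cut A (YJ m (t + 5) J)).card : ℝ) = n at *
  have hx1 : (1:ℝ) ≤ 2 ^ J := one_le_pow₀ (by norm_num)
  have hJ1 : (1:ℝ) ≤ (J:ℝ) + 1 := by have : (0:ℝ) ≤ J := Nat.cast_nonneg J; linarith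
  have hbr : (0:ℝ) ≤ ((t + 5 : ℕ) : ℝ) := Nat.cast_nonneg _
  have hx0 : (0:ℝ) < 2 ^ J := by positivity
  generalize (2:ℝ) ^ J = x at *
  have halg := alg (D := CD m) (B := 2 ^ (t + 5)) (x := x) (L1 := 1 + Real.log (2 * (2 ^ (t + 5) * x))) (L2 := 1 + Real.log (2 * x)) (n := n) (η := η)
    (J1 := (J:ℝ) + 1) (b2 := ((t + 5 : ℕ) : ℝ) + 2) (CD_one m) (by positivity) hx1 hL1.1 hL2.1 hn1 hη0 hJ1 (by linarith) hL1.2
    (hL2.2.trans (by push_cast; nlinarith)) m t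
  refine le_trans ?_ halg
  have hn0 : 0 < n := by linarith
  gcongr

/-- the bounds at one scale -/
theorem scale_bound {m t : ℕ} {A : Set ℕ} {a κ : ℝ} (hκ : 0 ≤ κ)
    (hA : ∀ᶠ X : ℕ in atTop, (X:ℝ) ^ a ≤ ((A ∩ Set.Iic X).ncard : ℝ)) :
    ∃ C : ℝ, 0 < C ∧ ∀ ξ : Fin (t + 1) → ℝ, (∀ i, ξ i ∈ Set.Ioc (0:ℝ) 1) → (∀ᶠ J : ℕ in atTop,
      QQ (m + 2) (PJ (t + 5) J) (PJ 0 J) (cut A (YJ m (t + 5) J)) (eJ m (t + 5) κ J) ξ < ((J:ℝ) + 1) ^ 2 * bJ m t (t + 5) A κ J) →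
      ∀ᶠ J : ℕ in atTop, volume (EB (m + 2) (PJ (t + 5) J) (cut A (YJ m (t + 5) J)) (eJ m (t + 5) κ J) ξ) ≤
        ENNReal.ofReal (C * ((J:ℝ) + 1) ^ (t + 3) *
          ((((2:ℝ) ^ J) ^ (m + 2)) ^ (1 - 1 / ((m:ℝ) + 2)) + (((2:ℝ) ^ J) ^ (m + 2)) ^ (2 - ((t:ℝ) + 1) / (m + 2) - a + κ))) := by
  set cn : ℝ := ((2 ^ (t + 5)) ^ (m + 2) / 8) ^ a with hcn
  set ce : ℝ := ((3 * 2 ^ (t + 5)) ^ (m + 2)) ^ (-κ) with hce
  have hcn0 : 0 < cn := by positivity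
  have hce0 : 0 < ce := by positivity
  have hC0 := C0_pos m t
  refine ⟨C0 m t * (1 + (cn * ce)⁻¹), by positivity, fun ξ hξ hQ => ?_⟩
  have hY : Tendsto (fun J : ℕ => YJ m (t + 5) J) atTop atTop :=
    tendsto_atTop_mono (f := fun J : ℕ => J) (fun J => YJ_ge (by omega) J) tendsto_id
  filter_upwards [hQ, hY.eventually hA] with J hJ hAJ
  rw [cut_card, YJ_cast (by omega), PJ_cast] at hAJ
  have hX0 : (0:ℝ) < (2 ^ J) ^ (m + 2) := by positivity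
  have e1 : (2 ^ (t + 5) * (2:ℝ) ^ J) ^ (m + 2) / 8 = ((2 ^ (t + 5)) ^ (m + 2) / 8) * ((2 ^ J) ^ (m + 2)) := by rw [mul_pow]; ring
  rw [e1, Real.mul_rpow (by positivity) hX0.le, ← hcn] at hAJ
  have hn0 : 0 < ((cut A (YJ m (t + 5) J)).card : ℝ) := lt_of_lt_of_le (by positivity) hAJ
  refine (vol_J hκ (by exact_mod_cast hn0) hξ hJ).trans (ENNReal.ofReal_le_ofReal ?_)
  have h1 := conv (x := (2:ℝ) ^ J) (m := m) (t := t) (one_le_pow₀ (by norm_num)) hcn0 hce0 hAJ (eJ_eq m (t + 5) κ J)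
  have h2 : 0 ≤ C0 m t * ((J:ℝ) + 1) ^ (t + 3) := by positivity
  calc _ ≤ C0 m t * ((J:ℝ) + 1) ^ (t + 3) * _ := mul_le_mul_of_nonneg_left h1 h2
    _ = _ := by ring

end Pool.Agent.K7.H74.WD
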