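import Mathlib
import Pool.Agent.K7.H74.WD.Asm

set_option autoImplicit false

/-! Waring's problem with shifts and a given set: all large numbers. -/

namespace Pool.Agent.K7.H74.WD
open MeasureTheory Filter Topology Set
open Pool.Agent.K7.H74.WS (cube)

lemma cube_eq (s : ℕ) : cube s = (volume : Measure (Fin s → ℝ)).restrict (Set.pi univ (fun _ => Ioc (0:ℝ) 1)) := by
  unfold cube
  rw [volume_pi, Measure.restrict_pi_pi]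

lemma ae_cube {s : ℕ} {p : (Fin s → ℝ) → Prop} (h : ∀ᵐ ξ ∂(cube s), p ξ) :
    ∀ᵐ ξ : Fin s → ℝ, (∀ i, ξ i ∈ Ioc (0:ℝ) 1) → p ξ := by
  rw [cube_eq, ae_restrict_iff' (MeasurableSet.univ_pi (fun _ => measurableSet_Ioc))] at h
  filter_upwards [h] with ξ hξ h1
  exact hξ (fun i _ => h1 i)

/-- polynomials against exponentials -/
lemma poly_exp {C ε : ℝ} (hε : 0 < ε) (N : ℕ) : ∀ᶠ n : ℕ in atTop, C * (n:ℝ) ^ N ≤ ((2:ℝ) ^ n) ^ ε := by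
  have h2 : (1:ℝ) < 2 ^ ε := Real.one_lt_rpow (by norm_num) hε
  have h3 := (tendsto_pow_const_div_const_pow_of_one_lt N h2).const_mul C
  rw [mul_zero] at h3
  filter_upwards [h3.eventually (gt_mem_nhds one_pos)] with n hn
  have e1 : ((2:ℝ) ^ n) ^ ε = (2 ^ ε) ^ n := by
    rw [← Real.rpow_natCast 2 n, ← Real.rpow_mul (by norm_num), mul_comm, Real.rpow_mul (by norm_num), Real.rpow_natCast]
  rw [e1]
  have hpos : 0 < ((2:ℝ) ^ ε) ^ n := by positivity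
  rw [← mul_div_assoc, div_lt_one hpos] at hn
  exact hn.le

lemma three_pow (m : ℕ) : (2:ℝ) ^ (m + 3) + 1 ≤ 3 ^ (m + 2) := by
  induction m with
  | zero => norm_num
  | succ m ih =>
    have e1 : (2:ℝ) ^ (m + 1 + 3) = 2 * 2 ^ (m + 3) := by ring
    have e2 : (3:ℝ) ^ (m + 1 + 2) = 3 * 3 ^ (m + 2) := by ring
    rw [e1, e2]
    have : (0:ℝ) < 2 ^ (m + 3) := by positivity
    nlinarith

/-- the exceptional set in a dyadic interval is contained in the exceptional set at one scale -/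
lemma dyadic {m t : ℕ} {A : Set ℕ} {κ : ℝ} (hκ : 0 ≤ κ) (ξ : Fin (t + 1) → ℝ) {n : ℕ}
    (hn : (t + 5) + 1 ≤ (n - 1) / (m + 2)) :
    U (fun _ => m + 2) A κ ξ ∩ Icc ((2:ℝ) ^ n) (2 ^ (n + 1)) ⊆
      EB (m + 2) (PJ (t + 5) ((n - 1) / (m + 2) - (t + 5))) (cut A (YJ m (t + 5) ((n - 1) / (m + 2) - (t + 5))))
        (eJ m (t + 5) κ ((n - 1) / (m + 2) - (t + 5))) ξ := by
  set q := (n - 1) / (m + 2) with hq
  set J := q - (t + 5) with hJ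
  have hP : (PJ (t + 5) J : ℝ) = 2 ^ q := by
    unfold PJ
    push_cast
    congr 1
    omega
  -- the position of `n`
  have h1 : q * (m + 2) ≤ n - 1 := Nat.div_mul_le_self _ _
  have h2 : n - 1 < q * (m + 2) + (m + 2) := Nat.lt_div_mul_add (by omega)
  have hn1 : 1 ≤ n := by
    by_contra hc
    have : n = 0 := by omega
    subst this
    simp at hq
    omega
  have hk : (PJ (t + 5) J : ℝ) ^ (m + 2) = 2 ^ (q * (m + 2)) := by rw [hP, ← pow_mul]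
  have hlow : 5 / 4 * (PJ (t + 5) J : ℝ) ^ (m + 2) + 1 ≤ 2 ^ n := by
    rw [hk]
    have h3 : (2:ℝ) ^ (q * (m + 2) + 1) ≤ 2 ^ n := pow_le_pow_right₀ (by norm_num) (by omega)
    have h4 : (4:ℝ) ≤ 2 ^ (q * (m + 2)) := by
      calc (4:ℝ) = 2 ^ 2 := by norm_num
        _ ≤ 2 ^ (q * (m + 2)) := pow_le_pow_right₀ (by norm_num) (by nlinarith)
    rw [pow_succ] at h3
    linarith
  have hup : (2:ℝ) ^ (n + 1) ≤ (3 * (PJ (t + 5) J : ℝ)) ^ (m + 2) - 1 := by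
    rw [mul_pow, hk]
    have h3 : (2:ℝ) ^ (n + 1) ≤ 2 ^ (q * (m + 2) + (m + 3)) := pow_le_pow_right₀ (by norm_num) (by omega)
    have h4 : (1:ℝ) ≤ 2 ^ (q * (m + 2)) := one_le_pow₀ (by norm_num)
    have h5 := mul_le_mul_of_nonneg_right (three_pow m) (by linarith : (0:ℝ) ≤ 2 ^ (q * (m + 2)))
    rw [pow_add _ (q * (m + 2)) (m + 3)] at h3
    nlinarith
  rintro τ ⟨⟨hτ1, hτ⟩, h3, h4⟩
  refine ⟨⟨hlow.trans h3, h4.trans hup⟩, fun a ha x => ?_⟩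
  refine le_trans ?_ (hτ a (cut_mem ha).1 x)
  unfold eJ
  apply Real.rpow_le_rpow_of_nonpos (by linarith) _ (by linarith)
  linarith

/-- **the exceptional set for almost all shifts** -/
theorem base {k r : ℕ} (hk : 2 ≤ k) (hr : 1 ≤ r) {A : Set ℕ} {a : ℝ}
    (hA : ∀ᶠ X : ℕ in atTop, (X:ℝ) ^ a ≤ ((A ∩ Set.Iic X).ncard : ℝ)) :
    ∀ κ δ : ℝ, 0 ≤ κ → δ < min (1 / (k:ℝ)) (a + r / k - 1 - κ) →
      ∀ᵐ ξ : Fin r → ℝ, (∀ i, ξ i ∈ Ioc (0:ℝ) 1) → Small (U (fun _ => k) A κ ξ) δ := by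
  intro κ δ hκ hδ
  obtain ⟨m, rfl⟩ : ∃ m, k = m + 2 := ⟨k - 2, by omega⟩
  obtain ⟨t, rfl⟩ : ∃ t, r = t + 1 := ⟨r - 1, by omega⟩
  set μ : ℝ := min (1 / ((m + 2 : ℕ) : ℝ)) (a + ((t + 1 : ℕ) : ℝ) / ((m + 2 : ℕ) : ℝ) - 1 - κ) with hμ
  have hk0 : (0:ℝ) < (m:ℝ) + 2 := by positivity
  have hμ1 : μ ≤ 1 / ((m:ℝ) + 2) := by
    have := min_le_left (1 / ((m + 2 : ℕ) : ℝ)) (a + ((t + 1 : ℕ) : ℝ) / ((m + 2 : ℕ) : ℝ) - 1 - κ)
    rw [← hμ] at this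
    push_cast at this
    exact this
  have hμ2 : μ ≤ a + ((t:ℝ) + 1) / (m + 2) - 1 - κ := by
    have := min_le_right (1 / ((m + 2 : ℕ) : ℝ)) (a + ((t + 1 : ℕ) : ℝ) / ((m + 2 : ℕ) : ℝ) - 1 - κ)
    rw [← hμ] at this
    push_cast at this
    exact this
  have hμ3 : μ ≤ 1 := by
    refine hμ1.trans ?_
    rw [div_le_one hk0]
    have : (0:ℝ) ≤ m := Nat.cast_nonneg m
    linarith
  obtain ⟨C, hC0, hC⟩ := scale_bound (m := m) (t := t) hκ hA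
  have hbase := ae_cube (ae_QQ m t (t + 5) A hκ)
  filter_upwards [hbase] with ξ hξ hpos
  have h1 := hC ξ hpos (hξ hpos)
  have hJt : Tendsto (fun n : ℕ => (n - 1) / (m + 2) - (t + 5)) atTop atTop := by
    apply tendsto_atTop_atTop.2
    intro b
    refine ⟨(b + (t + 5)) * (m + 2) + 1, fun n hn => ?_⟩
    have h2 : b + (t + 5) ≤ (n - 1) / (m + 2) := by
      rw [Nat.le_div_iff_mul_le (by omega)]
      omega
    omega
  filter_upwards [hJt.eventually h1, hJt.eventually_ge_atTop 1, poly_exp (C := 2 * C) (sub_pos.2 hδ) (t + 3), eventually_ge_atTop 1]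
    with n h2 h3 h4 h5
  refine (measure_mono (dyadic hκ ξ (by omega))).trans (h2.trans (ENNReal.ofReal_le_ofReal ?_))
  set J := (n - 1) / (m + 2) - (t + 5) with hJ
  set X : ℝ := ((2:ℝ) ^ J) ^ (m + 2) with hX
  have hX1 : 1 ≤ X := one_le_pow₀ (one_le_pow₀ (by norm_num))
  have hXn : X ≤ 2 ^ n := by
    rw [hX, ← pow_mul]
    apply pow_le_pow_right₀ (by norm_num)
    have h6 : (n - 1) / (m + 2) * (m + 2) ≤ n - 1 := Nat.div_mul_le_self _ _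
    have h7 : J * (m + 2) ≤ (n - 1) / (m + 2) * (m + 2) := Nat.mul_le_mul_right _ (by omega)
    omega
  have hJn : (J:ℝ) + 1 ≤ n := by
    have h6 : (n - 1) / (m + 2) ≤ n - 1 := Nat.div_le_self _ _
    exact_mod_cast (by omega : J + 1 ≤ n)
  have p1 : X ^ (1 - 1 / ((m:ℝ) + 2)) ≤ (2 ^ n) ^ (1 - μ) := by
    calc X ^ (1 - 1 / ((m:ℝ) + 2)) ≤ X ^ (1 - μ) := Real.rpow_le_rpow_of_exponent_le hX1 (by linarith)
      _ ≤ (2 ^ n) ^ (1 - μ) := Real.rpow_le_rpow (by linarith) hXn (by linarith)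
  have p2 : X ^ (2 - ((t:ℝ) + 1) / (m + 2) - a + κ) ≤ (2 ^ n) ^ (1 - μ) := by
    calc X ^ (2 - ((t:ℝ) + 1) / (m + 2) - a + κ) ≤ X ^ (1 - μ) := Real.rpow_le_rpow_of_exponent_le hX1 (by linarith)
      _ ≤ (2 ^ n) ^ (1 - μ) := Real.rpow_le_rpow (by linarith) hXn (by linarith)
  have hJ0 : (0:ℝ) ≤ J := Nat.cast_nonneg J
  have hpow : ((J:ℝ) + 1) ^ (t + 3) ≤ (n:ℝ) ^ (t + 3) := pow_le_pow_left₀ (by linarith) hJn _
  have h2n : (0:ℝ) < 2 ^ n := by positivity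
  calc C * ((J:ℝ) + 1) ^ (t + 3) * (X ^ (1 - 1 / ((m:ℝ) + 2)) + X ^ (2 - ((t:ℝ) + 1) / (m + 2) - a + κ))
      ≤ C * (n:ℝ) ^ (t + 3) * ((2 ^ n) ^ (1 - μ) + (2 ^ n) ^ (1 - μ)) := by gcongr
    _ = (2 * C * (n:ℝ) ^ (t + 3)) * (2 ^ n) ^ (1 - μ) := by ring
    _ ≤ (2 ^ n) ^ (μ - δ) * (2 ^ n) ^ (1 - μ) := by gcongr
    _ = (2 ^ n) ^ (1 - δ) := by rw [← Real.rpow_add h2n]; congr 1; ring

/-- **all large numbers, a given set and shifted powers** -/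
theorem main {k r : ℕ} (hk : 2 ≤ k) (hr : 1 ≤ r) {A : Set ℕ} {a : ℝ}
    (hA : ∀ᶠ X : ℕ in atTop, (X:ℝ) ^ a ≤ ((A ∩ Set.Iic X).ncard : ℝ)) (j : ℕ) (K : Fin (r + j) → ℕ)
    (hK : ∀ i : Fin r, K (Fin.castAdd j i) = k) (hK2 : ∀ i : Fin j, 2 ≤ K (Fin.natAdd r i)) {κ : ℝ} (hκ : 0 ≤ κ)
    (h : 1 + κ < 2 ^ j * min (1 / (k:ℝ)) (a + r / k - 1 - κ)) :
    ∀ᵐ ξ : Fin (r + j) → ℝ, (∀ i, ξ i ∈ Ioc (0:ℝ) 1) →
      ∀ᶠ τ : ℝ in atTop, ∃ n ∈ A, ∃ x : Fin (r + j) → ℕ, |(n:ℝ) + ∑ i, ((x i : ℝ) + ξ i) ^ K i - τ| < τ ^ (-κ) :=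
  all_large (φ := fun κ => min (1 / (k:ℝ)) (a + r / k - 1 - κ)) (by fun_prop) (base hk hr hA) j K hK hK2 hκ h

/-- from real to natural numbers -/
theorem floor_form {k r : ℕ} (hk : 2 ≤ k) (hr : 1 ≤ r) {A : Set ℕ} {a : ℝ}
    (hA : ∀ᶠ X : ℕ in atTop, (X:ℝ) ^ a ≤ ((A ∩ Set.Iic X).ncard : ℝ)) (j : ℕ) (K : Fin (r + j) → ℕ)
    (hK : ∀ i : Fin r, K (Fin.castAdd j i) = k) (hK2 : ∀ i : Fin j, 2 ≤ K (Fin.natAdd r i))
    (h : 1 < 2 ^ j * min (1 / (k:ℝ)) (a + r / k - 1)) :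
    ∀ᵐ ξ : Fin (r + j) → ℝ, (∀ i, ξ i ∈ Ioc (0:ℝ) 1) →
      ∀ᶠ n : ℕ in atTop, ∃ m ∈ A, ∃ x : Fin (r + j) → ℕ, m + ⌊∑ i, ((x i : ℝ) + ξ i) ^ K i⌋₊ = n := by
  obtain ⟨κ, hκ0, hκ⟩ : ∃ κ : ℝ, 0 < κ ∧ 1 + κ < 2 ^ j * min (1 / (k:ℝ)) (a + r / k - 1 - κ) := by
    have h1 : ∀ᶠ x in 𝓝 (0:ℝ), 0 < 2 ^ j * min (1 / (k:ℝ)) (a + r / k - 1 - x) - (1 + x) := by
      have hc : Continuous fun x : ℝ => 2 ^ j * min (1 / (k:ℝ)) (a + r / k - 1 - x) - (1 + x) := by fun_prop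
      apply hc.continuousAt.eventually (lt_mem_nhds _)
      simp only [sub_zero, add_zero]
      linarith
    have h2 : ∀ᶠ x in 𝓝[>] (0:ℝ), 0 < 2 ^ j * min (1 / (k:ℝ)) (a + r / k - 1 - x) - (1 + x) := nhdsWithin_le_nhds h1
    obtain ⟨x, hx1, hx2⟩ := (h2.and self_mem_nhdsWithin).exists
    exact ⟨x, hx2, by linarith⟩
  filter_upwards [main hk hr hA j K hK hK2 hκ0.le hκ] with ξ hξ hpos
  have h3 := hξ hpos
  have hsh : Tendsto (fun n : ℕ => (n:ℝ) + 1 / 2) atTop atTop :=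
    tendsto_atTop_add_const_right _ _ tendsto_natCast_atTop_atTop
  have hg2 : ∀ᶠ t : ℝ in atTop, (2:ℝ) ≤ t ^ κ := (tendsto_rpow_atTop hκ0).eventually_ge_atTop 2
  filter_upwards [hsh.eventually h3, hsh.eventually hg2] with n hn hn2
  obtain ⟨m, hm, x, hx⟩ := hn
  refine ⟨m, hm, x, ?_⟩
  have hn0 : (0:ℝ) < (n:ℝ) + 1 / 2 := by positivity
  have hw : ((n:ℝ) + 1 / 2) ^ (-κ) ≤ 1 / 2 := by
    have h4 := inv_anti₀ (by norm_num) hn2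
    rw [Real.rpow_neg hn0.le]
    norm_num at h4 ⊢
    exact h4
  set S : ℝ := ∑ i, ((x i : ℝ) + ξ i) ^ K i with hS
  have hS0 : 0 ≤ S := Finset.sum_nonneg fun i _ => pow_nonneg (add_nonneg (Nat.cast_nonneg _) (hpos i).1.le) _
  rw [abs_lt] at hx
  have h5 : (m:ℝ) ≤ n := by
    have h6 : (m:ℝ) < (n + 1 : ℕ) := by push_cast; linarith [hx.2]
    have h7 : m < n + 1 := by exact_mod_cast h6
    exact_mod_cast (by omega : m ≤ n)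
  have h6 : m ≤ n := by exact_mod_cast h5
  have h7 : ⌊S⌋₊ = n - m := by
    rw [Nat.floor_eq_iff hS0]
    push_cast [h6]
    constructor <;> linarith [hx.1, hx.2]
  rw [h7]
  omega

end Pool.Agent.K7.H74.WD
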