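import Mathlib
import Pool.Agent.K7.H74.WD.Kus

set_option autoImplicit false

/-! Sums of `u` many `k`-th powers: diminishing ranges. -/

namespace Pool.Agent.K7.H74.WD
open Filter Topology

/-- the sums of `u` many `k`-th powers -/
def powSums (k u : ℕ) : Set ℕ := {n | ∃ y : Fin u → ℕ, ∑ i, y i ^ k = n}

lemma powSums_succ {k u p b : ℕ} (hb : b ∈ powSums k u) : p ^ k + b ∈ powSums k (u + 1) := by
  obtain ⟨y, hy⟩ := hb
  refine ⟨Fin.cons p y, ?_⟩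
  rw [Fin.sum_univ_succ]
  simp only [Fin.cons_zero, Fin.cons_succ]
  rw [hy]

/-- gaps between powers -/
lemma gap {k P p q b c : ℕ} (hk : 2 ≤ k) (hP : 1 ≤ P) (hp : P ≤ p) (hpq : p < q) (hb : b ≤ P ^ (k - 1)) : p ^ k + b < q ^ k + c := by
  obtain ⟨m, rfl⟩ : ∃ m, k = m + 2 := ⟨k - 2, by omega⟩
  rw [show m + 2 - 1 = m + 1 by omega] at hb
  have h1 : (p + 1) ^ (m + 2) ≤ q ^ (m + 2) := Nat.pow_le_pow_left (by omega) _
  have h2 : p ^ (m + 2) + 2 * p ^ (m + 1) ≤ (p + 1) ^ (m + 2) := by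
    have h3 : p ^ (m + 1) + p ^ m ≤ (p + 1) ^ (m + 1) := by
      calc p ^ (m + 1) + p ^ m = (p + 1) * p ^ m := by ring
        _ ≤ (p + 1) * (p + 1) ^ m := Nat.mul_le_mul_left _ (Nat.pow_le_pow_left (by omega) _)
        _ = (p + 1) ^ (m + 1) := by ring
    calc p ^ (m + 2) + 2 * p ^ (m + 1) ≤ (p ^ (m + 1) + p ^ m) * (p + 1) := by
          have : (p ^ (m + 1) + p ^ m) * (p + 1) = p ^ (m + 2) + 2 * p ^ (m + 1) + p ^ m := by ring
          omega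
      _ ≤ (p + 1) ^ (m + 1) * (p + 1) := Nat.mul_le_mul_right _ h3
      _ = (p + 1) ^ (m + 2) := by ring
  have h3 : P ^ (m + 1) ≤ p ^ (m + 1) := Nat.pow_le_pow_left hp _
  have h4 : 0 < p ^ (m + 1) := Nat.pow_pos (by omega)
  omega

lemma finite_cut (A : Set ℕ) (Y : ℕ) : (A ∩ Set.Iic Y).Finite := (Set.finite_Iic Y).inter_of_right A

/-- one more power -/
lemma count_step {k u P X : ℕ} (hk : 2 ≤ k) (hP : 1 ≤ P) (hX : (2 * P) ^ k + P ^ (k - 1) ≤ X) :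
    P * (powSums k u ∩ Set.Iic (P ^ (k - 1))).ncard ≤ (powSums k (u + 1) ∩ Set.Iic X).ncard := by
  classical
  set B : Finset ℕ := (finite_cut (powSums k u) (P ^ (k - 1))).toFinset with hB
  have hBc : B.card = (powSums k u ∩ Set.Iic (P ^ (k - 1))).ncard := (Set.ncard_eq_toFinset_card _ _).symm
  set f : ℕ × ℕ → ℕ := fun z => z.1 ^ k + z.2 with hf
  have hinj : Set.InjOn f ((Finset.Ico P (2 * P) ×ˢ B : Finset (ℕ × ℕ)) : Set (ℕ × ℕ)) := by
    rintro ⟨p, b⟩ h1 ⟨q, c⟩ h2 h3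
    simp only [Finset.coe_product, Set.mem_prod, Finset.coe_Ico, Set.mem_Ico, Finset.mem_coe, hB, Set.Finite.mem_toFinset,
      Set.mem_inter_iff, Set.mem_Iic] at h1 h2
    simp only [hf] at h3
    rcases lt_trichotomy p q with h | h | h
    · have := gap (c := c) hk hP h1.1.1 h h1.2.2
      omega
    · subst h
      have : b = c := by omega
      rw [this]
    · have := gap (c := b) hk hP h2.1.1 h h2.2.2
      omega
  have h1 : (Finset.image f (Finset.Ico P (2 * P) ×ˢ B)).card = P * B.card := by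
    rw [Finset.card_image_of_injOn hinj, Finset.card_product, Nat.card_Ico]
    congr 1
    omega
  have h2 : ((Finset.image f (Finset.Ico P (2 * P) ×ˢ B) : Finset ℕ) : Set ℕ) ⊆ powSums k (u + 1) ∩ Set.Iic X := by
    intro n hn
    simp only [Finset.coe_image, Set.mem_image, Finset.mem_coe, Finset.mem_product, Finset.mem_Ico, hB, Set.Finite.mem_toFinset,
      Set.mem_inter_iff, Set.mem_Iic] at hn
    obtain ⟨⟨p, b⟩, ⟨⟨h3, h4⟩, h5, h6⟩, rfl⟩ := hn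
    refine ⟨powSums_succ h5, ?_⟩
    have h7 : p ^ k ≤ (2 * P) ^ k := Nat.pow_le_pow_left h4.le _
    simp only [hf, Set.mem_Iic]
    simp only at h6
    omega
  have h3 := Set.ncard_le_ncard h2 (finite_cut _ _)
  rw [Set.ncard_coe_finset, h1, hBc] at h3
  exact h3

/-- **diminishing ranges** -/
theorem powSums_count {k : ℕ} (hk : 2 ≤ k) (u : ℕ) : ∃ c : ℝ, 0 < c ∧ ∀ᶠ X : ℕ in atTop,
    c * (X:ℝ) ^ (1 - (1 - 1 / (k:ℝ)) ^ u) ≤ ((powSums k u ∩ Set.Iic X).ncard : ℝ) := by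
  have hk0 : (0:ℝ) < k := by exact_mod_cast (by omega : 0 < k)
  induction u with
  | zero =>
    refine ⟨1, one_pos, Eventually.of_forall fun X => ?_⟩
    simp only [pow_zero, sub_self, Real.rpow_zero, mul_one]
    have h1 : (0:ℕ) ∈ powSums k 0 ∩ Set.Iic X := ⟨⟨fun i => i.elim0, by simp⟩, Nat.zero_le _⟩
    have h2 : 0 < (powSums k 0 ∩ Set.Iic X).ncard := (Set.ncard_pos (finite_cut _ _)).2 ⟨0, h1⟩
    exact_mod_cast h2
  | succ u ih =>
    obtain ⟨c, hc, h⟩ := ih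
    set α : ℝ := 1 - (1 - 1 / (k:ℝ)) ^ u with hα
    have hα0 : 0 ≤ α := by
      rw [hα]
      have h1 : (1 - 1 / (k:ℝ)) ^ u ≤ 1 := by
        apply pow_le_one₀
        · rw [sub_nonneg, div_le_one hk0]
          exact_mod_cast (by omega : 1 ≤ k)
        · have : 0 < 1 / (k:ℝ) := by positivity
          linarith
      linarith
    -- the length
    set y : ℕ → ℝ := fun X => ((X:ℝ) / 2) ^ (1 / (k:ℝ)) / 2 with hy
    have hyt : Tendsto y atTop atTop := by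
      have h1 : Tendsto (fun X : ℕ => (X:ℝ) / 2) atTop atTop :=
        tendsto_natCast_atTop_atTop.atTop_div_const (by norm_num)
      exact ((tendsto_rpow_atTop (by positivity : 0 < 1 / (k:ℝ))).comp h1).atTop_div_const (by norm_num)
    have hPt : Tendsto (fun X => ⌊y X⌋₊) atTop atTop := tendsto_nat_floor_atTop.comp hyt
    have hYt : Tendsto (fun X => ⌊y X⌋₊ ^ (k - 1)) atTop atTop := (tendsto_pow_atTop (by omega)).comp hPt
    refine ⟨c * ((1 / 4) * (1 / 2) ^ (1 / (k:ℝ))) ^ (1 + ((k:ℝ) - 1) * α), by positivity, ?_⟩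
    filter_upwards [hYt.eventually h, hyt.eventually_ge_atTop 2, eventually_ge_atTop 1] with X h1 h2 h3
    set P := ⌊y X⌋₊ with hP
    have hX0 : (0:ℝ) < X := by exact_mod_cast h3
    have hPy : (P:ℝ) ≤ y X := Nat.floor_le (by linarith)
    have hPy2 : y X / 2 ≤ P := by
      have := Nat.lt_floor_add_one (y X)
      linarith
    have hP0 : (0:ℝ) < P := by linarith
    have hP1 : 1 ≤ P := by exact_mod_cast hP0
    have hyk : (2 * y X) ^ k = X / 2 := by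
      have e1 : 2 * y X = ((X:ℝ) / 2) ^ (1 / (k:ℝ)) := by rw [hy]; ring
      rw [e1, ← Real.rpow_natCast, ← Real.rpow_mul (by positivity), one_div_mul_cancel hk0.ne', Real.rpow_one]
    have h4 : (2 * (P:ℝ)) ^ k ≤ X / 2 := by
      rw [← hyk]
      exact pow_le_pow_left₀ (by positivity) (by linarith) _
    have h5 : (2 * P) ^ k + P ^ (k - 1) ≤ X := by
      have h6 : (P:ℝ) ^ (k - 1) ≤ (2 * (P:ℝ)) ^ k := by
        have hP1' : (1:ℝ) ≤ P := by exact_mod_cast hP1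
        calc (P:ℝ) ^ (k - 1) ≤ (P:ℝ) ^ k := pow_le_pow_right₀ hP1' (by omega)
          _ ≤ (2 * (P:ℝ)) ^ k := pow_le_pow_left₀ hP0.le (by linarith) _
      have h7 : ((2 * P : ℕ) : ℝ) ^ k + (P:ℝ) ^ (k - 1) ≤ X := by push_cast; linarith
      exact_mod_cast h7
    have h6 := count_step (u := u) hk hP1 h5
    have h7 : (P:ℝ) * ((powSums k u ∩ Set.Iic (P ^ (k - 1))).ncard : ℝ) ≤ ((powSums k (u + 1) ∩ Set.Iic X).ncard : ℝ) := by
      exact_mod_cast h6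
    refine le_trans ?_ h7
    have h8 := mul_le_mul_of_nonneg_left h1 hP0.le
    refine le_trans ?_ h8
    -- the exponents
    have e1 : ((P ^ (k - 1) : ℕ) : ℝ) ^ α = (P:ℝ) ^ (((k:ℝ) - 1) * α) := by
      push_cast
      rw [← Real.rpow_natCast, ← Real.rpow_mul hP0.le]
      congr 2
      push_cast [Nat.cast_sub (by omega : 1 ≤ k)]
      ring
    have e2 : (P:ℝ) * (c * ((P ^ (k - 1) : ℕ) : ℝ) ^ α) = c * (P:ℝ) ^ (1 + ((k:ℝ) - 1) * α) := by
      rw [e1, Real.rpow_add hP0, Real.rpow_one]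
      ring
    have e2' : (P:ℝ) * (c * (((P:ℕ) : ℝ) ^ (k - 1)) ^ α) = c * (P:ℝ) ^ (1 + ((k:ℝ) - 1) * α) := by
      rw [← e2]; push_cast; ring
    have hexp : 0 ≤ 1 + ((k:ℝ) - 1) * α := by
      have : (1:ℝ) ≤ k := by exact_mod_cast (by omega : 1 ≤ k)
      have : 0 ≤ ((k:ℝ) - 1) * α := mul_nonneg (by linarith) hα0
      linarith
    have h9 : (1 / 4) * (1 / 2) ^ (1 / (k:ℝ)) * (X:ℝ) ^ (1 / (k:ℝ)) ≤ P := by
      refine le_trans (le_of_eq ?_) hPy2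
      rw [hy]
      simp only
      have e3 : ((X:ℝ) / 2) ^ (1 / (k:ℝ)) = (1 / 2) ^ (1 / (k:ℝ)) * (X:ℝ) ^ (1 / (k:ℝ)) := by
        rw [← Real.mul_rpow (by norm_num) hX0.le]; congr 1; ring
      rw [e3]; ring
    have h10 : ((1 / 4) * (1 / 2) ^ (1 / (k:ℝ)) * (X:ℝ) ^ (1 / (k:ℝ))) ^ (1 + ((k:ℝ) - 1) * α) ≤ (P:ℝ) ^ (1 + ((k:ℝ) - 1) * α) :=
      Real.rpow_le_rpow (by positivity) h9 hexp
    rw [Real.mul_rpow (by positivity) (by positivity), ← Real.rpow_mul hX0.le] at h10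
    have e4 : 1 / (k:ℝ) * (1 + ((k:ℝ) - 1) * α) = 1 - (1 - 1 / (k:ℝ)) ^ (u + 1) := by
      rw [hα, pow_succ]
      field_simp
      ring
    rw [e4] at h10
    calc c * ((1 / 4) * (1 / 2) ^ (1 / (k:ℝ))) ^ (1 + ((k:ℝ) - 1) * α) * (X:ℝ) ^ (1 - (1 - 1 / (k:ℝ)) ^ (u + 1))
        = c * ((((1 / 4) * (1 / 2) ^ (1 / (k:ℝ))) ^ (1 + ((k:ℝ) - 1) * α)) * (X:ℝ) ^ (1 - (1 - 1 / (k:ℝ)) ^ (u + 1))) := by ring
      _ ≤ c * (P:ℝ) ^ (1 + ((k:ℝ) - 1) * α) := mul_le_mul_of_nonneg_left h10 hc.le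
      _ = _ := e2.symm

/-- the exponent of the sums of `u` many `k`-th powers -/
theorem powSums_dense {k : ℕ} (hk : 2 ≤ k) (u : ℕ) {a : ℝ} (ha : a < 1 - (1 - 1 / (k:ℝ)) ^ u) :
    ∀ᶠ X : ℕ in atTop, (X:ℝ) ^ a ≤ ((powSums k u ∩ Set.Iic X).ncard : ℝ) := by
  obtain ⟨c, hc, h⟩ := powSums_count hk u
  have h1 : ∀ᶠ X : ℕ in atTop, 1 / c ≤ (X:ℝ) ^ (1 - (1 - 1 / (k:ℝ)) ^ u - a) :=
    ((tendsto_rpow_atTop (by linarith)).comp tendsto_natCast_atTop_atTop).eventually_ge_atTop _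
  filter_upwards [h, h1, eventually_ge_atTop 1] with X h2 h3 h4
  have hX0 : (0:ℝ) < X := by exact_mod_cast h4
  refine le_trans ?_ h2
  have e1 : (X:ℝ) ^ (1 - (1 - 1 / (k:ℝ)) ^ u) = (X:ℝ) ^ (1 - (1 - 1 / (k:ℝ)) ^ u - a) * (X:ℝ) ^ a := by
    rw [← Real.rpow_add hX0]; congr 1; ring
  rw [e1, ← mul_assoc]
  apply le_mul_of_one_le_left (by positivity)
  rw [div_le_iff₀ hc] at h3
  linarith

end Pool.Agent.K7.H74.WD
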